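import Pool.Agent.Q97.RB.Lin

set_option autoImplicit false

open Filter MeasureTheory Metric Set Topology Complex
open scoped ENNReal

namespace Q97.RD

open Q97.RB

noncomputable section

/-- The sub-mean value inequality over circles. -/
theorem circ_le {F : ℂ → ℂ} (hF : Differentiable ℂ F) {β : ℝ} (hβ : 0 < β) (s : ℂ) {r : ℝ}
    (hr : 0 < r) : ‖F s‖ ^ β ≤ Real.circleAverage (fun z => ‖F z‖ ^ β) s r := by
  refine le_trans ?_ (jensen_ineq hF hr hβ)
  have := NN_nonneg hF s hr
  exact le_mul_of_one_le_right (by positivity) (Real.one_le_exp (by positivity))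

theorem pw_cont {F : ℂ → ℂ} (hF : Differentiable ℂ F) {β : ℝ} (hβ : 0 < β) :
    Continuous (fun z => ‖F z‖ ^ β) :=
  hF.continuous.norm.rpow_const fun _ => Or.inr hβ.le

/-- The same as a lower integral over `(-π, π)`. -/
theorem circ_lint {F : ℂ → ℂ} (hF : Differentiable ℂ F) {β : ℝ} (hβ : 0 < β) (s : ℂ) {r : ℝ}
    (hr : 0 < r) : ENNReal.ofReal (2 * Real.pi * ‖F s‖ ^ β) ≤
      ∫⁻ θ in Ioo (-Real.pi) Real.pi, ENNReal.ofReal (‖F (circleMap s r θ)‖ ^ β) := by
  have hπ := Real.pi_pos
  have hc : Continuous (fun θ : ℝ => ‖F (circleMap s r θ)‖ ^ β) :=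
    (pw_cont hF hβ).comp (continuous_circleMap s r)
  have h1 := circ_le hF hβ s hr
  rw [Real.circleAverage_def, smul_eq_mul, le_inv_mul_iff₀ (by positivity)] at h1
  have hper : Function.Periodic (fun θ : ℝ => ‖F (circleMap s r θ)‖ ^ β) (2 * Real.pi) :=
    (periodic_circleMap s r).comp (fun z => ‖F z‖ ^ β)
  have h2 : ∫ θ in (0 : ℝ)..2 * Real.pi, ‖F (circleMap s r θ)‖ ^ β =
      ∫ θ in (-Real.pi)..Real.pi, ‖F (circleMap s r θ)‖ ^ β := by
    have h3 := hper.intervalIntegral_add_eq 0 (-Real.pi)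
    rw [zero_add, show -Real.pi + 2 * Real.pi = Real.pi by ring] at h3
    exact h3
  change 2 * Real.pi * ‖F s‖ ^ β ≤ ∫ θ in (0 : ℝ)..2 * Real.pi, ‖F (circleMap s r θ)‖ ^ β at h1
  rw [h2, intervalIntegral.integral_of_le (by linarith)] at h1
  rw [← restrict_Ioo_eq_restrict_Ioc] at h1
  rw [← ofReal_integral_eq_lintegral_ofReal (hc.integrableOn_Icc.mono_set Ioo_subset_Icc_self)
    (Eventually.of_forall fun θ => by positivity)]
  exact ENNReal.ofReal_le_ofReal h1

/-- The sub-mean value inequality over discs. -/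
theorem area {F : ℂ → ℂ} (hF : Differentiable ℂ F) {β : ℝ} (hβ : 0 < β) (s : ℂ) {r : ℝ}
    (hr : 0 < r) : ENNReal.ofReal (Real.pi * r ^ 2 * ‖F s‖ ^ β) ≤
      ∫⁻ z in closedBall s r, ENNReal.ofReal (‖F z‖ ^ β) := by
  have hπ := Real.pi_pos
  have hgm : Measurable (fun z => ENNReal.ofReal (‖F z‖ ^ β)) :=
    (pw_cont hF hβ).measurable.ennreal_ofReal
  rw [← lintegral_indicator measurableSet_closedBall]
  rw [← lintegral_add_left_eq_self _ s, ← Complex.lintegral_comp_polarCoord_symm,
    _root_.polarCoord_target, Measure.volume_eq_prod, ← Measure.prod_restrict]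
  have hsymm : ∀ p : ℝ × ℝ, s + Complex.polarCoord.symm p = circleMap s p.1 p.2 := by
    intro p
    rw [Complex.polarCoord_symm_apply, circleMap, Complex.exp_mul_I]
    push_cast
    ring
  have hcm : Continuous (fun p : ℝ × ℝ => circleMap s p.1 p.2) := by
    have : (fun p : ℝ × ℝ => circleMap s p.1 p.2) =
        fun p : ℝ × ℝ => s + (p.1 : ℂ) * cexp ((p.2 : ℂ) * I) := by
      funext p
      rfl
    rw [this]
    fun_prop
  simp only [hsymm, smul_eq_mul]
  have hmeas : Measurable (fun p : ℝ × ℝ => ENNReal.ofReal p.1 *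
      (closedBall s r).indicator (fun z => ENNReal.ofReal (‖F z‖ ^ β)) (circleMap s p.1 p.2)) := by
    refine Measurable.mul ?_ ?_
    · fun_prop
    · exact (hgm.indicator measurableSet_closedBall).comp hcm.measurable
  rw [lintegral_prod _ hmeas.aemeasurable]
  calc ENNReal.ofReal (Real.pi * r ^ 2 * ‖F s‖ ^ β)
      = ∫⁻ ρ in Ioc 0 r, ENNReal.ofReal (ρ * (2 * Real.pi * ‖F s‖ ^ β)) := by
        have hc : Continuous (fun ρ : ℝ => ρ * (2 * Real.pi * ‖F s‖ ^ β)) := by fun_prop
        rw [← ofReal_integral_eq_lintegral_ofReal (hc.integrableOn_Icc.mono_set Ioc_subset_Icc_self),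
          ← intervalIntegral.integral_of_le hr.le, intervalIntegral.integral_mul_const, integral_id]
        · congr 1
          ring
        · filter_upwards [ae_restrict_mem measurableSet_Ioc] with ρ hρ
          have := hρ.1.le
          positivity
    _ ≤ ∫⁻ ρ in Ioc 0 r, ∫⁻ θ in Ioo (-Real.pi) Real.pi, ENNReal.ofReal ρ *
          (closedBall s r).indicator (fun z => ENNReal.ofReal (‖F z‖ ^ β)) (circleMap s ρ θ) := by
        refine setLIntegral_mono' measurableSet_Ioc fun ρ hρ => ?_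
        have h1 : ∀ θ : ℝ, (closedBall s r).indicator (fun z => ENNReal.ofReal (‖F z‖ ^ β))
            (circleMap s ρ θ) = ENNReal.ofReal (‖F (circleMap s ρ θ)‖ ^ β) := by
          intro θ
          apply indicator_of_mem
          exact closedBall_subset_closedBall hρ.2 (circleMap_mem_closedBall s hρ.1.le θ)
        simp only [h1]
        rw [lintegral_const_mul' _ _ ENNReal.ofReal_ne_top, ENNReal.ofReal_mul hρ.1.le]
        gcongr
        exact circ_lint hF hβ s hρ.1
    _ ≤ _ := lintegral_mono_set Ioc_subset_Ioi_self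

end

end Q97.RD
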