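import Pool.Agent.Q97.RD.Sh

set_option autoImplicit false

open Filter MeasureTheory Metric Set Topology Polynomial
open scoped ENNReal Nat

namespace Q97.RD

noncomputable section

/-- Taylor polynomials with a geometric error, on a disc. -/
theorem taylor_poly' {F : ℂ → ℂ} {c : ℂ} {R R₁ Λ : ℝ} (hR : 0 < R) (hRR : R < R₁)
    (hF : DifferentiableOn ℂ F (ball c R₁))
    (hΛ : ∀ z ∈ sphere c R, ‖F z‖ ≤ Λ) (N : ℕ) {q : ℝ} (hq0 : 0 ≤ q) (hq : q ≤ 1 / 2) :
    ∃ P : ℂ[X], P.degree < (N : ℕ) ∧ ∀ z : ℂ, ‖z - c‖ ≤ q * R → ‖F z - P.eval z‖ ≤ 2 * Λ * q ^ N := by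
  refine ⟨∑ n ∈ Finset.range N, C ((n ! : ℂ)⁻¹ * iteratedDeriv n F c) * (X - C c) ^ n, ?_, ?_⟩
  · rw [Polynomial.degree_lt_iff_coeff_zero]
    intro m hm
    rw [finsetSum_coeff]
    refine Finset.sum_eq_zero fun n hn => ?_
    rw [Finset.mem_range] at hn
    rw [coeff_C_mul]
    have h1 : ((X - C c) ^ n).coeff m = 0 := by
      apply coeff_eq_zero_of_natDegree_lt
      rw [natDegree_pow, natDegree_X_sub_C]
      omega
    rw [h1, mul_zero]
  · intro z hz
    have hzb : z ∈ ball c R₁ := by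
      rw [mem_ball, dist_eq_norm]
      nlinarith
    have hs := Complex.hasSum_taylorSeries_on_ball hF hzb
    have hdc : DiffContOnCl ℂ F (ball c R) :=
      hF.diffContOnCl_ball (closedBall_subset_ball hRR)
    have hb : ∀ n : ℕ, ‖(n ! : ℂ)⁻¹ • (z - c) ^ n • iteratedDeriv n F c‖ ≤ Λ * q ^ n := by
      intro n
      have h1 := Complex.norm_iteratedDeriv_le_of_forall_mem_sphere_norm_le n hR
        hdc hΛ
      rw [norm_smul, norm_smul, norm_inv, norm_pow, Complex.norm_natCast]
      have h2 : ‖z - c‖ ^ n ≤ q ^ n * R ^ n := by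
        rw [← mul_pow]
        gcongr
      have h3 : 0 < (n ! : ℝ) := by exact_mod_cast Nat.factorial_pos n
      calc (n ! : ℝ)⁻¹ * (‖z - c‖ ^ n * ‖iteratedDeriv n F c‖)
          ≤ (n ! : ℝ)⁻¹ * ((q ^ n * R ^ n) * (n ! * Λ / R ^ n)) := by gcongr
        _ = Λ * q ^ n := by field_simp
    have h4 := norm_sub_le_of_geometric_bound_of_hasSum (by linarith : q < 1) hb hs N
    have h5 : (∑ n ∈ Finset.range N, C ((n ! : ℂ)⁻¹ * iteratedDeriv n F c) * (X - C c) ^ n).eval z =
        ∑ n ∈ Finset.range N, (n ! : ℂ)⁻¹ • (z - c) ^ n • iteratedDeriv n F c := by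
      rw [eval_finsetSum]
      refine Finset.sum_congr rfl fun n _ => ?_
      rw [eval_mul, eval_C, eval_pow, eval_sub, eval_X, eval_C, smul_eq_mul, smul_eq_mul]
      ring
    rw [h5, norm_sub_rev]
    refine h4.trans ?_
    have hΛ0 : 0 ≤ Λ := by
      obtain ⟨w, hw⟩ := (NormedSpace.sphere_nonempty (x := c)).mpr hR.le
      exact (norm_nonneg _).trans (hΛ w hw)
    rw [div_le_iff₀ (by linarith)]
    have : 0 ≤ Λ * q ^ N := by positivity
    nlinarith

/-- **An inequality of Remez type** in a disc. -/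
theorem remez3 {F : ℂ → ℂ} {u h γ Λ B K R₁ : ℝ} (hh : 0 < h) (hγ : 0 < γ)
    (hγ1 : γ ≤ 1) (hK : 96 * Real.exp 1 / γ ≤ K) (hKR : K * h < R₁)
    (hF : DifferentiableOn ℂ F (ball (pp (u + h / 2)) R₁))
    (hΛ : ∀ z ∈ sphere (pp (u + h / 2)) (K * h), ‖F z‖ ≤ Λ) {w : ℂ} (hw : ‖w‖ ≤ h / 4)
    {S : Set ℝ} (hS : S ⊆ Icc u (u + h)) (hSv : ENNReal.ofReal (γ * h) ≤ volume S)
    (hB : ∀ x ∈ S, ‖F (pp x + w)‖ ≤ B) {N : ℕ} (hN : 0 < N) {y : ℂ}
    (hy : ‖y - pp (u + h / 2)‖ ≤ 2 * h) :
    ‖F y‖ ≤ (24 * Real.exp 1 / γ) ^ N * B + 4 / 2 ^ N * Λ := by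
  set Q := 24 * Real.exp 1 / γ with hQ
  have he1 : 1 ≤ Real.exp 1 := Real.one_le_exp (by norm_num)
  have hQ0 : 12 ≤ Q := by
    rw [hQ, le_div_iff₀ hγ]
    nlinarith
  have hKQ : 4 * Q ≤ K := by
    refine le_trans (le_of_eq ?_) hK
    rw [hQ]
    ring
  have hK0 : 0 < K := by linarith
  have hKh : 0 < K * h := by positivity
  set c : ℂ := pp (u + h / 2) with hc
  have hq0 : 0 ≤ 1 / (2 * Q) := by positivity
  have hq1 : 1 / (2 * Q) ≤ 1 / 2 := by
    rw [div_le_div_iff₀ (by positivity) (by norm_num)]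
    linarith
  obtain ⟨P, hPd, hP⟩ := taylor_poly' hKh hKR hF hΛ N hq0 hq1
  have hΛ0 : 0 ≤ Λ := by
    obtain ⟨w, hw⟩ := (NormedSpace.sphere_nonempty (x := c)).mpr hKh.le
    exact (norm_nonneg _).trans (hΛ w hw)
  have hrad : 2 * h ≤ 1 / (2 * Q) * (K * h) := by
    rw [div_mul_eq_mul_div, one_mul, le_div_iff₀ (by positivity)]
    nlinarith
  have hxc : ∀ x ∈ Icc u (u + h), ‖pp x + w - c‖ ≤ 3 / 4 * h := by
    intro x hx
    have h1 : |x - (u + h / 2)| ≤ h / 2 := abs_le.mpr ⟨by linarith [hx.1], by linarith [hx.2]⟩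
    calc ‖pp x + w - c‖ = ‖(pp x - pp (u + h / 2)) + w‖ := by rw [hc]; congr 1; ring
      _ ≤ h / 2 + h / 4 := (norm_add_le _ _).trans (add_le_add ((pp_sub_norm _ _).le.trans h1) hw)
      _ = _ := by ring
  set err := 2 * Λ * (1 / (2 * Q)) ^ N with herr
  have herr0 : 0 ≤ err := by positivity
  -- the points
  set d := γ * h / (2 * N) with hd
  have hN' : (0 : ℝ) < N := by exact_mod_cast hN
  have hd0 : 0 < d := by positivity
  obtain ⟨x, hx, hx'⟩ := greedy hd0 N S (bddBelow_Icc.mono hS) (by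
    have : 2 * (N : ℝ) * d = γ * h := by
      rw [hd]
      field_simp
    rw [this]
    exact hSv)
  set v : ℕ → ℂ := fun i => pp (x i) + w with hv
  have hvd : ∀ i j, ‖v i - v j‖ = |x i - x j| := by
    intro i j
    have e1 : v i - v j = pp (x i) - pp (x j) := by
      simp only [hv]
      ring
    rw [e1, pp_sub_norm]
  have hL := lagrange_bd hN P hPd v (h := 3 * h) hd0 (fun i hi j hj => by
      rw [hvd]
      rcases lt_trichotomy i j with hij | hij | hij
      · have h1 := hx' i j hij hj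
        have h2 : |(i : ℝ) - j| = (j : ℝ) - i := by
          rw [abs_sub_comm, abs_of_nonneg]
          have : (i : ℝ) < j := by exact_mod_cast hij
          linarith
        rw [h2, abs_sub_comm]
        exact h1.trans (le_abs_self _)
      · rw [hij]
        simp
      · have h1 := hx' j i hij hi
        have h2 : |(i : ℝ) - j| = (i : ℝ) - j := by
          rw [abs_of_nonneg]
          have : (j : ℝ) < i := by exact_mod_cast hij
          linarith
        rw [h2]
        exact h1.trans (le_abs_self _))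
    (y := y) (fun i hi => by
      have h1 := hxc _ (hS (hx i hi))
      calc ‖y - v i‖ = ‖(y - c) - (pp (x i) + w - c)‖ := by
            simp only [hv]
            congr 1
            ring
        _ ≤ 2 * h + 3 / 4 * h := (norm_sub_le _ _).trans (add_le_add hy h1)
        _ ≤ 3 * h := by linarith) (B := B + err)
    (fun i hi => by
      have h1 := hP (v i) ((hxc _ (hS (hx i hi))).trans (by linarith))
      have h2 := hB _ (hx i hi)
      calc ‖P.eval (v i)‖ = ‖F (v i) - (F (v i) - P.eval (v i))‖ := by congr 1; ring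
        _ ≤ ‖F (v i)‖ + ‖F (v i) - P.eval (v i)‖ := norm_sub_le _ _
        _ ≤ B + err := add_le_add h2 h1)
  -- the constant
  have hW : (N : ℝ) * ((2 * (3 * h) / d) ^ (N - 1) / (N - 1).factorial) ≤ Q ^ N := by
    have e1 : 2 * (3 * h) / d = 12 * N / γ := by
      rw [hd]
      field_simp
      ring
    rw [e1]
    obtain ⟨m, rfl⟩ : ∃ m, N = m + 1 := ⟨N - 1, by omega⟩
    rw [Nat.add_sub_cancel]
    have h1 := Real.pow_div_factorial_le_exp (x := ((m + 1 : ℕ) : ℝ)) (by positivity) (m + 1)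
    have h2 : Real.exp ((m + 1 : ℕ) : ℝ) = Real.exp 1 ^ (m + 1) := by
      rw [← Real.exp_nat_mul, mul_one]
    rw [h2, Nat.factorial_succ, pow_succ] at h1
    have h3 : 0 < (m.factorial : ℝ) := by exact_mod_cast Nat.factorial_pos m
    have h4 : ((m + 1 : ℕ) : ℝ) ^ m / m.factorial ≤ Real.exp 1 ^ (m + 1) := by
      refine le_trans (le_of_eq ?_) h1
      push_cast
      field_simp
    have h5 : ((m + 1 : ℕ) : ℝ) ≤ 2 ^ (m + 1) := by
      exact_mod_cast (Nat.lt_two_pow_self (n := m + 1)).le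
    have h6 : (12 / γ) ^ m ≤ (12 / γ) ^ (m + 1) := by
      apply pow_le_pow_right₀ _ (Nat.le_succ m)
      rw [le_div_iff₀ hγ]
      linarith
    calc ((m + 1 : ℕ) : ℝ) * ((12 * ((m + 1 : ℕ) : ℝ) / γ) ^ m / m.factorial)
        = ((m + 1 : ℕ) : ℝ) * ((12 / γ) ^ m * (((m + 1 : ℕ) : ℝ) ^ m / m.factorial)) := by
          rw [show 12 * ((m + 1 : ℕ) : ℝ) / γ = 12 / γ * ((m + 1 : ℕ) : ℝ) by ring, mul_pow]
          ring
      _ ≤ 2 ^ (m + 1) * ((12 / γ) ^ (m + 1) * Real.exp 1 ^ (m + 1)) := by gcongr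
      _ = Q ^ (m + 1) := by
          rw [hQ, ← mul_pow, ← mul_pow]
          congr 1
          ring
  have hB0 : 0 ≤ B := (norm_nonneg _).trans (hB _ (hx 0 hN))
  have h9 := hP _ (hy.trans hrad)
  have hQN : 1 ≤ Q ^ N := one_le_pow₀ (by linarith)
  calc ‖F y‖ = ‖(F y - P.eval y) + P.eval y‖ := by congr 1; ring
    _ ≤ err + Q ^ N * (B + err) := by
        refine (norm_add_le _ _).trans (add_le_add h9 (hL.trans ?_))
        gcongr
    _ ≤ Q ^ N * B + 2 * (Q ^ N * err) := by nlinarith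
    _ = Q ^ N * B + 4 / 2 ^ N * Λ := by
        have e2 : Q * (1 / (2 * Q)) = 1 / 2 := by field_simp
        have e3 : Q ^ N * err = 2 * Λ * (1 / 2) ^ N := by
          calc Q ^ N * err = 2 * Λ * (Q * (1 / (2 * Q))) ^ N := by
                rw [herr, mul_pow]
                ring
            _ = _ := by rw [e2]
        rw [e3, one_div_pow]
        ring

/-- Antiderivatives of polynomials. -/
theorem antideriv {N : ℕ} {q : ℂ[X]} (hq : q.degree < (N : ℕ)) :
    ∃ p : ℂ[X], p.degree < ((N + 1 : ℕ) : WithBot ℕ) ∧ derivative p = q := by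
  refine ⟨∑ i ∈ Finset.range N, monomial (i + 1) (q.coeff i / (i + 1)), ?_, ?_⟩
  · rw [Polynomial.degree_lt_iff_coeff_zero]
    intro m hm
    rw [finsetSum_coeff]
    refine Finset.sum_eq_zero fun i hi => ?_
    rw [Finset.mem_range] at hi
    rw [coeff_monomial, if_neg (by omega)]
  · rw [derivative_sum]
    ext m
    rw [finsetSum_coeff]
    simp only [derivative_monomial, Nat.add_sub_cancel, coeff_monomial]
    rw [Finset.sum_ite_eq' (Finset.range N) m]
    split_ifs with hm
    · push_cast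
      have : (m : ℂ) + 1 ≠ 0 := by exact_mod_cast Nat.succ_ne_zero m
      field_simp
    · rw [Finset.mem_range, not_lt] at hm
      exact ((Polynomial.degree_lt_iff_coeff_zero q N).mp hq m hm).symm

/-- A function with a small derivative of high order is nearly a polynomial. -/
theorem near_poly {c : ℂ} {r ε : ℝ} (hr : 0 < r) (hε : 0 ≤ ε) (j : ℕ) : ∀ f : ℂ → ℂ,
    DifferentiableOn ℂ f (ball c r) → (∀ z ∈ ball c r, ‖iteratedDeriv (j + 1) f z‖ ≤ ε) →
    ∃ p : ℂ[X], p.degree < ((j + 1 : ℕ) : WithBot ℕ) ∧ ∀ z ∈ ball c r,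
      ‖f z - p.eval z‖ ≤ ε * r ^ (j + 1) ∧ ‖deriv f z - (derivative p).eval z‖ ≤ ε * r ^ j := by
  induction j with
  | zero =>
    intro f hf hb
    refine ⟨C (f c), ?_, fun z hz => ?_⟩
    · refine lt_of_le_of_lt degree_C_le ?_
      norm_num
    · simp only [zero_add, iteratedDeriv_one] at hb
      rw [eval_C, derivative_C, eval_zero, sub_zero, pow_zero, mul_one, zero_add, pow_one]
      refine ⟨?_, hb z hz⟩
      have h1 := (convex_ball c r).norm_image_sub_le_of_norm_deriv_le
        (fun x hx => (hf x hx).differentiableAt (isOpen_ball.mem_nhds hx)) hb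
        (mem_ball_self hr) hz
      refine h1.trans ?_
      gcongr
      rw [mem_ball, dist_eq_norm] at hz
      exact hz.le
  | succ j ih =>
    intro f hf hb
    have hfd : DifferentiableOn ℂ (deriv f) (ball c r) := hf.deriv isOpen_ball
    have hb' : ∀ z ∈ ball c r, ‖iteratedDeriv (j + 1) (deriv f) z‖ ≤ ε := by
      intro z hz
      rw [← iteratedDeriv_succ']
      exact hb z hz
    obtain ⟨q, hq, hqb⟩ := ih (deriv f) hfd hb'
    obtain ⟨p₀, hp₀, hp₀d⟩ := antideriv hq
    set p : ℂ[X] := p₀ + C (f c - p₀.eval c) with hp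
    have hpd : derivative p = q := by
      rw [hp, derivative_add, derivative_C, add_zero, hp₀d]
    have hpc : p.eval c = f c := by
      rw [hp, eval_add, eval_C]
      ring
    refine ⟨p, ?_, fun z hz => ?_⟩
    · rw [hp]
      refine lt_of_le_of_lt (degree_add_le _ _) (max_lt hp₀ (lt_of_le_of_lt degree_C_le ?_))
      exact_mod_cast Nat.succ_pos _
    · rw [hpd]
      refine ⟨?_, (hqb z hz).1⟩
      have hd : ∀ x ∈ ball c r, DifferentiableAt ℂ (fun z => f z - p.eval z) x := fun x hx =>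
        ((hf x hx).differentiableAt (isOpen_ball.mem_nhds hx)).sub p.differentiableAt
      have hdb : ∀ x ∈ ball c r, ‖deriv (fun z => f z - p.eval z) x‖ ≤ ε * r ^ (j + 1) := by
        intro x hx
        rw [deriv_fun_sub ((hf x hx).differentiableAt (isOpen_ball.mem_nhds hx))
          p.differentiableAt, Polynomial.deriv, hpd]
        exact (hqb x hx).1
      have h1 := (convex_ball c r).norm_image_sub_le_of_norm_deriv_le hd hdb (mem_ball_self hr) hz
      simp only [hpc, sub_self, sub_zero] at h1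
      refine h1.trans ?_
      rw [pow_succ r (j + 1), ← mul_assoc]
      gcongr
      rw [mem_ball, dist_eq_norm] at hz
      exact hz.le

/-- the constant in Markov's inequality -/
def CM (N : ℕ) : ℝ := N * ((4 * N) ^ (N - 1) / (N - 1).factorial)

theorem CM_nonneg (N : ℕ) : 0 ≤ CM N := by
  unfold CM
  positivity

/-- A weak form of Markov's inequality. -/
theorem markov {N : ℕ} (hN : 0 < N) {p : ℂ[X]} (hp : p.degree < (N : ℕ)) {u h B : ℝ} (hh : 0 < h)
    (hB : ∀ x ∈ Icc u (u + h), ‖p.eval (pp x)‖ ≤ B) {x : ℝ} (hx : x ∈ Icc u (u + h)) :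
    ‖(derivative p).eval (pp x)‖ ≤ 2 * CM N / h * B := by
  have hN' : (0 : ℝ) < N := by exact_mod_cast hN
  set v : ℕ → ℂ := fun i => pp (u + i * (h / N)) with hv
  have hvin : ∀ i < N, u + i * (h / N) ∈ Icc u (u + h) := by
    intro i hi
    have hi' : (i : ℝ) ≤ N := by exact_mod_cast hi.le
    have h1 : (i : ℝ) * (h / N) ≤ N * (h / N) := by gcongr
    have h2 : (N : ℝ) * (h / N) = h := by field_simp
    exact ⟨by have : 0 ≤ (i : ℝ) * (h / N) := by positivity
              linarith, by linarith⟩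
  have hdisc : ∀ y : ℂ, ‖y - pp x‖ ≤ h / 2 → ‖p.eval y‖ ≤ CM N * B := by
    intro y hy
    have hL := lagrange_bd hN p hp v (h := 2 * h) (d := h / N) (by positivity)
      (fun i hi k hk => by
        simp only [hv]
        rw [pp_sub_norm, show u + (i : ℝ) * (h / N) - (u + k * (h / N)) =
          ((i : ℝ) - k) * (h / N) by ring, abs_mul, abs_of_pos (by positivity : 0 < h / N)])
      (y := y) (fun i hi => by
        have h1 := hvin i hi
        have h2 : ‖pp x - v i‖ ≤ h := by
          simp only [hv]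
          rw [pp_sub_norm]
          exact abs_le.mpr ⟨by linarith [h1.2, hx.1], by linarith [h1.1, hx.2]⟩
        calc ‖y - v i‖ = ‖(y - pp x) + (pp x - v i)‖ := by congr 1; ring
          _ ≤ h / 2 + h := (norm_add_le _ _).trans (add_le_add hy h2)
          _ ≤ 2 * h := by linarith) (B := B) (fun i hi => hB _ (hvin i hi))
    refine hL.trans (le_of_eq ?_)
    unfold CM
    have : 2 * (2 * h) / (h / N) = 4 * N := by
      field_simp
      ring
    rw [this]
  have h1 := Complex.norm_deriv_le_of_forall_mem_sphere_norm_le (c := pp x) (R := h / 2)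
    (C := CM N * B) (f := fun z => p.eval z) (by positivity) (p.differentiable.diffContOnCl)
    (fun z hz => hdisc z (by
      rw [mem_sphere, dist_eq_norm] at hz
      exact hz.le))
  rw [Polynomial.deriv] at h1
  refine h1.trans (le_of_eq ?_)
  field_simp

end

end Q97.RD
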