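import Pool.Agent.Q97.RD.De1

set_option autoImplicit false

open Filter MeasureTheory Metric Set Topology Polynomial
open scoped ENNReal Nat

namespace Q97.RD

noncomputable section

/-- If a derivative is small and the first derivative is not small compared with the function on
the line, then the function is small. -/
theorem key_small {f : ℂ → ℂ} {u L a lam ε : ℝ} {j : ℕ} (hL : 0 < L) (ha : 12 * CM (j + 1) ≤ a)
    (ha1 : 1 ≤ a) (hε : 0 ≤ ε) (hlam : 0 ≤ lam)
    (hf : DifferentiableOn ℂ f (ball (pp (u + a / L / 2)) (2 * (a / L))))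
    (hb : ∀ z ∈ ball (pp (u + a / L / 2)) (2 * (a / L)),
      ‖iteratedDeriv (j + 1) f z‖ ≤ ε * L ^ (j + 1) * lam)
    (hlow : ∀ x ∈ Icc u (u + a / L), L / 3 * ‖f (pp x)‖ ≤ ‖deriv f (pp x)‖) :
    ∀ x ∈ Icc u (u + a / L), ‖f (pp x)‖ ≤ 9 * ε * (2 * a) ^ (j + 1) * lam := by
  set h := a / L with hh'
  have hh : 0 < h := by positivity
  set c := pp (u + h / 2) with hc
  obtain ⟨p, hp, hpb⟩ := near_poly (c := c) (r := 2 * h) (by positivity)
    (by positivity : 0 ≤ ε * L ^ (j + 1) * lam) j f hf hb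
  set e1 := ε * (2 * a) ^ (j + 1) * lam with he1
  have he10 : 0 ≤ e1 := by positivity
  have hLh : L * (2 * h) = 2 * a := by
    rw [hh']
    field_simp
  have k1 : ε * L ^ (j + 1) * lam * (2 * h) ^ (j + 1) = e1 := by
    calc ε * L ^ (j + 1) * lam * (2 * h) ^ (j + 1) = ε * (L * (2 * h)) ^ (j + 1) * lam := by
          rw [mul_pow]; ring
      _ = e1 := by rw [hLh]
  have k2 : ε * L ^ (j + 1) * lam * (2 * h) ^ j ≤ L * e1 := by
    have h1 : (2 * a) ^ j ≤ (2 * a) ^ (j + 1) := pow_le_pow_right₀ (by linarith) (Nat.le_succ j)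
    calc ε * L ^ (j + 1) * lam * (2 * h) ^ j = L * (ε * (L * (2 * h)) ^ j * lam) := by
          rw [mul_pow, pow_succ]; ring
      _ = L * (ε * (2 * a) ^ j * lam) := by rw [hLh]
      _ ≤ _ := by rw [he1]; gcongr
  rw [k1] at hpb
  have hin : ∀ x ∈ Icc u (u + h), pp x ∈ ball c (2 * h) := by
    intro x hx
    rw [mem_ball, dist_eq_norm, hc, pp_sub_norm]
    have : |x - (u + h / 2)| ≤ h / 2 := abs_le.mpr ⟨by linarith [hx.1], by linarith [hx.2]⟩
    linarith
  have hne : (Icc u (u + h)).Nonempty := ⟨u, by constructor <;> linarith⟩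
  have hcont : ContinuousOn (fun x : ℝ => ‖p.eval (pp x)‖) (Icc u (u + h)) := by
    have hpc : Continuous pp := by unfold pp; fun_prop
    exact ((p.continuous).comp hpc).norm.continuousOn
  obtain ⟨y, hy, hmax⟩ := isCompact_Icc.exists_isMaxOn hne hcont
  set B := ‖p.eval (pp y)‖ with hB
  have hmax' : ∀ x ∈ Icc u (u + h), ‖p.eval (pp x)‖ ≤ B := fun x hx => hmax hx
  have h1 := markov (Nat.succ_pos j) hp hh hmax' hy
  have h2 := hlow y hy
  have h3 := (hpb _ (hin y hy)).1
  have h4 := (hpb _ (hin y hy)).2.trans k2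
  have h5 : B - e1 ≤ ‖f (pp y)‖ := by
    have := norm_sub_norm_le (p.eval (pp y)) (f (pp y))
    rw [norm_sub_rev] at this
    linarith
  have h6 : ‖deriv f (pp y)‖ ≤ 2 * CM (j + 1) / h * B + L * e1 := by
    calc ‖deriv f (pp y)‖ = ‖(deriv f (pp y) - (derivative p).eval (pp y)) +
          (derivative p).eval (pp y)‖ := by congr 1; ring
      _ ≤ L * e1 + 2 * CM (j + 1) / h * B := (norm_add_le _ _).trans (add_le_add h4 h1)
      _ = _ := by ring
  have h7 : 2 * CM (j + 1) / h ≤ L / 6 := by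
    rw [hh', div_div_eq_mul_div, div_le_iff₀ (by linarith)]
    nlinarith
  have hB0 : 0 ≤ B := norm_nonneg _
  have h8 : B ≤ 8 * e1 := by
    have h9 : L / 3 * (B - e1) ≤ L / 6 * B + L * e1 := by
      calc L / 3 * (B - e1) ≤ L / 3 * ‖f (pp y)‖ := by gcongr
        _ ≤ ‖deriv f (pp y)‖ := h2
        _ ≤ 2 * CM (j + 1) / h * B + L * e1 := h6
        _ ≤ _ := by gcongr
    have h10 : L * B ≤ L * (8 * e1) := by nlinarith
    exact le_of_mul_le_mul_left h10 hL
  intro x hx
  have h11 := (hpb _ (hin x hx)).1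
  have h12 := hmax' x hx
  calc ‖f (pp x)‖ = ‖(f (pp x) - p.eval (pp x)) + p.eval (pp x)‖ := by congr 1; ring
    _ ≤ e1 + B := (norm_add_le _ _).trans (add_le_add h11 h12)
    _ ≤ 9 * e1 := by linarith
    _ = _ := by rw [he1]; ring

/-- In an interval which matters, a derivative is small on a small set only. -/
theorem small_set (j : ℕ) {γ η a K : ℝ} (hγ : 0 < γ) (hγ1 : γ ≤ 1) (hη : 0 < η)
    (ha : 12 * CM j ≤ a) (ha1 : 1 ≤ a) (hK : 96 * Real.exp 1 / γ ≤ K) :
    ∃ δ : ℝ, 0 < δ ∧ ∀ (f : ℂ → ℂ) (u L lam : ℝ) (w : ℂ), 0 < L →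
      DifferentiableOn ℂ f (ball (pp (u + a / L / 2)) (2 * K * (a / L))) →
      (∀ z ∈ closedBall (pp (u + a / L / 2)) ((K + 1) * (a / L)), ‖f z‖ ≤ lam) →
      (∀ x ∈ Icc u (u + a / L), L / 3 * ‖f (pp x)‖ ≤ ‖deriv f (pp x)‖) →
      ‖w‖ ≤ a / L / 4 → (∃ x ∈ Icc u (u + a / L), η * lam < ‖f (pp x)‖) →
      volume {x ∈ Icc u (u + a / L) | ‖iteratedDeriv j f (pp x + w)‖ ≤ δ * L ^ j * lam} <
        ENNReal.ofReal (γ * (a / L)) := by
  have he1 : 1 ≤ Real.exp 1 := Real.one_le_exp (by norm_num)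
  set Q := 24 * Real.exp 1 / γ with hQ
  have hQ0 : 0 < Q := by positivity
  have hK1 : 96 ≤ K := by
    refine le_trans ?_ hK
    rw [le_div_iff₀ hγ]
    nlinarith
  set ε := η / (9 * (2 * a) ^ j) with hε
  have hε0 : 0 < ε := by positivity
  have hj0 : 0 < (j ! : ℝ) := by exact_mod_cast Nat.factorial_pos j
  obtain ⟨N, hN0, hN⟩ : ∃ N : ℕ, 0 < N ∧ 4 / 2 ^ N ≤ ε / 2 / j ! := by
    have h1 : Tendsto (fun n : ℕ => 4 * (1 / 2 : ℝ) ^ n) atTop (𝓝 (4 * 0)) :=
      (tendsto_pow_atTop_nhds_zero_of_lt_one (by norm_num) (by norm_num)).const_mul 4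
    rw [mul_zero] at h1
    obtain ⟨N, hN⟩ := ((h1.eventually (gt_mem_nhds (show 0 < ε / 2 / (j ! : ℝ) by positivity))).and
      (eventually_gt_atTop 0)).exists
    refine ⟨N, hN.2, ?_⟩
    have := hN.1.le
    rwa [one_div_pow, mul_one_div] at this
  set δ := ε / 2 / Q ^ N with hδ
  have hδ0 : 0 < δ := by positivity
  refine ⟨δ, hδ0, fun f u L lam w hL hf hlam hlow hw hex => ?_⟩
  set h := a / L with hh'
  have hh : 0 < h := by positivity
  set c := pp (u + h / 2) with hc
  obtain ⟨x0, hx0, hx0'⟩ := hex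
  have hlam0 : 0 ≤ lam := (norm_nonneg _).trans (hlam _ (mem_closedBall_self (by positivity)))
  by_contra hcon
  push Not at hcon
  have hRb : (K + 1) * h < 2 * K * h := by nlinarith
  have hg : DifferentiableOn ℂ (iteratedDeriv j f) (ball c (2 * K * h)) := by
    rw [iteratedDeriv_eq_iterate]
    exact ((hf.analyticOnNhd isOpen_ball).iterated_deriv j).differentiableOn
  have hgb : ∀ z ∈ sphere c (K * h), ‖iteratedDeriv j f z‖ ≤ j ! * (L ^ j * lam) := by
    intro z hz
    rw [mem_sphere, dist_eq_norm] at hz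
    have hsub : closedBall z h ⊆ closedBall c ((K + 1) * h) := by
      apply closedBall_subset_closedBall'
      rw [dist_eq_norm, hz]
      linarith
    have hdc : DiffContOnCl ℂ f (ball z h) :=
      hf.diffContOnCl_ball (hsub.trans (closedBall_subset_ball hRb))
    have h1 := Complex.norm_iteratedDeriv_le_of_forall_mem_sphere_norm_le j hh hdc
      (fun y hy => hlam y (hsub (sphere_subset_closedBall hy)))
    refine h1.trans ?_
    rw [div_le_iff₀ (by positivity)]
    have h2 : L ^ j * h ^ j = a ^ j := by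
      rw [← mul_pow, hh', mul_div_cancel₀ _ hL.ne']
    calc (j ! : ℝ) * lam ≤ j ! * (lam * a ^ j) := by
          gcongr
          exact le_mul_of_one_le_right hlam0 (one_le_pow₀ ha1)
      _ = _ := by rw [← h2]; ring
  have hsmall : ∀ y ∈ ball c (2 * h), ‖iteratedDeriv j f y‖ ≤ ε * L ^ j * lam := by
    intro y hy
    rw [mem_ball, dist_eq_norm] at hy
    have h1 := remez3 (u := u) (h := h) (γ := γ) (K := K) (R₁ := 2 * K * h) hh hγ hγ1 hK
      (by nlinarith) hg hgb hw
      (S := {x ∈ Icc u (u + h) | ‖iteratedDeriv j f (pp x + w)‖ ≤ δ * L ^ j * lam})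
      (fun x hx => hx.1) hcon (fun x hx => hx.2) hN0 (y := y) hy.le
    refine h1.trans ?_
    have h2 : Q ^ N * (δ * L ^ j * lam) = ε / 2 * (L ^ j * lam) := by
      rw [hδ]
      field_simp
    have h3 : 4 / 2 ^ N * (j ! * (L ^ j * lam)) ≤ ε / 2 * (L ^ j * lam) := by
      have : 4 / 2 ^ N * (j ! : ℝ) ≤ ε / 2 := by
        rwa [le_div_iff₀ hj0] at hN
      calc 4 / 2 ^ N * (j ! * (L ^ j * lam)) = (4 / 2 ^ N * j !) * (L ^ j * lam) := by ring
        _ ≤ _ := by gcongr
    rw [h2]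
    calc ε / 2 * (L ^ j * lam) + 4 / 2 ^ N * (j ! * (L ^ j * lam))
        ≤ ε / 2 * (L ^ j * lam) + ε / 2 * (L ^ j * lam) := by gcongr
      _ = _ := by ring
  have hfin : ‖f (pp x0)‖ ≤ η * lam := by
    rcases Nat.eq_zero_or_pos j with h0 | h0
    · subst h0
      have hx0b : pp x0 ∈ ball c (2 * h) := by
        rw [mem_ball, dist_eq_norm, hc, pp_sub_norm]
        have : |x0 - (u + h / 2)| ≤ h / 2 := abs_le.mpr ⟨by linarith [hx0.1], by linarith [hx0.2]⟩
        linarith
      have h1 := hsmall _ hx0b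
      rw [iteratedDeriv_zero, pow_zero, mul_one] at h1
      refine h1.trans ?_
      rw [hε, pow_zero, mul_one]
      have : η / 9 * lam ≤ η * lam := by
        have : 0 ≤ η * lam := by positivity
        nlinarith
      exact this
    · obtain ⟨i, rfl⟩ : ∃ i, j = i + 1 := ⟨j - 1, by omega⟩
      have h1 := key_small (f := f) (u := u) (L := L) (a := a) (lam := lam) (ε := ε) (j := i) hL ha
        ha1 hε0.le hlam0 (hf.mono (ball_subset_ball (by nlinarith))) hsmall hlow x0 hx0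
      refine h1.trans (le_of_eq ?_)
      rw [hε]
      field_simp
  linarith

end

end Q97.RD
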