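import Pool.Agent.Q97.RD.Lo

set_option autoImplicit false

open Filter MeasureTheory Metric Set Topology Complex
open scoped ENNReal ComplexConjugate

namespace Q97.RD

open Q97.RB Q97.MM

noncomputable section

/-- the pointwise lower bound from the functional equation -/
theorem ld_ge : ∀ᶠ T : ℝ in atTop, ∀ t : ℝ, |t - T| ≤ 1 / 4 * T → riemannZeta (pp t) ≠ 0 →
    (Real.log T - 4) / 2 ≤ ‖deriv riemannZeta (pp t) / riemannZeta (pp t)‖ := by
  filter_upwards [Q97.BS.win_bd (ϑ := 1 / 4) le_rfl] with T h t ht h0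
  obtain ⟨h12, hL⟩ := h t ht
  have h1 := Q97.BS.re_id h12
  rw [← pp_eq_pt] at h1 hL
  set z := riemannZeta (pp t) with hz
  set a := deriv riemannZeta (pp t) with ha
  have hz0 : 0 < ‖z‖ := norm_pos_iff.mpr h0
  have h2 : Real.log T - 4 ≤ (H345.Chi.L2 (pp t)).re := by
    have := (abs_le.mp hL).1
    linarith
  have h3 : -(a * conj z).re ≤ ‖a‖ * ‖z‖ := by
    have := (neg_le_abs _).trans (Complex.abs_re_le_norm (a * conj z))
    rwa [norm_mul, Complex.norm_conj] at this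
  rw [norm_div, le_div_iff₀ hz0]
  have h4 : (Real.log T - 4) * ‖z‖ ^ 2 ≤ 2 * (‖a‖ * ‖z‖) := by
    calc (Real.log T - 4) * ‖z‖ ^ 2 ≤ (H345.Chi.L2 (pp t)).re * ‖z‖ ^ 2 := by gcongr
      _ = 2 * -(a * conj z).re := by rw [h1]; ring
      _ ≤ _ := by gcongr
  have h5 : ((Real.log T - 4) / 2 * ‖z‖) * ‖z‖ ≤ ‖a‖ * ‖z‖ := by nlinarith
  exact le_of_mul_le_mul_right h5 hz0

/-- **Lower bound for the moments of the logarithmic derivative.** -/
theorem ld_lower {β q : ℝ} (hβ : 0 < β) (hq : 0 < q) {ε : ℝ} (hε : 0 < ε) (hε2 : ε < 1 / 2) :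
    ∀ᶠ T : ℝ in atTop, ∀ U : ℝ, Adm T U →
      ENNReal.ofReal (((1 / 2 - ε) * Real.log T) ^ q * MB β T U (1 / 2)) ≤
        ∫⁻ t : ℝ, ENNReal.ofReal (‖deriv riemannZeta (pp t) / riemannZeta (pp t)‖ ^ q *
          zd β T U t) := by
  obtain ⟨c, hc, hcM⟩ := HM_cmp hβ
  set θ : ℝ := ((1 / 2 - ε) / (1 / 2 - ε / 2)) ^ q with hθ
  have hθ1 : θ < 1 := by
    apply Real.rpow_lt_one _ _ hq
    · apply div_nonneg <;> linarith
    · rw [div_lt_one (by linarith)]
      linarith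
  have hsm : Tendsto (fun T : ℝ => Real.pi / T ^ 3) atTop (𝓝 0) :=
    (tendsto_pow_atTop (n := 3) (α := ℝ) (by norm_num)).const_div_atTop _
  have hcθ : 0 < (1 - θ) * c := mul_pos (by linarith) hc
  filter_upwards [ld_ge, hcM (1 / 8) (by norm_num) (by norm_num), hsm.eventually (gt_mem_nhds hcθ),
    eventually_ge_atTop 3, Q97.BS.tail ⌈2 * β⌉₊ 3 (180 ^ β) (ϑ := 1 / 4) (by norm_num),
    Real.tendsto_log_atTop.eventually (eventually_ge_atTop (4 / ε))]
    with T h1 h2 h3 hT h4 h6 U h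
  have hT0 : 0 < T := by linarith
  have hL := h.log
  have hL0 : 0 < Real.log T := by linarith
  have hU := h.pos
  obtain ⟨_, g5⟩ := h2 U h
  set L := Real.log T with hLd
  set M := MB β T U (1 / 2) with hM
  have hM0 : 0 < M := by linarith
  obtain ⟨t1, t2⟩ := Q97.BS.tR_int 3 hT0
  have htn : ∀ y, 0 ≤ Q97.BS.tR 3 T y := fun y => by unfold Q97.BS.tR; positivity
  have htm : Measurable (fun y => ENNReal.ofReal (Q97.BS.tR 3 T y)) := by
    unfold Q97.BS.tR
    fun_prop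
  have hUL : U * L ≤ T := by
    have := h.2.2
    rwa [le_div_iff₀ (by linarith)] at this
  set κ : ℝ := ((1 / 2 - ε / 2) * L) ^ q with hκ
  have hκb : 0 < (1 / 2 - ε / 2) * L := mul_pos (by linarith) hL0
  have hκ0 : 0 < κ := by positivity
  set Φ : ℝ → ℝ≥0∞ := fun t => ENNReal.ofReal (‖deriv riemannZeta (pp t) / riemannZeta (pp t)‖ ^ q *
    zd β T U t) with hΦ
  have hbase : (1 / 2 - ε / 2) * L ≤ (L - 4) / 2 := by
    rw [div_le_iff₀ hε] at h6
    linarith
  have hpt : ∀ t : ℝ, ENNReal.ofReal (zd β T U t) ≤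
      ENNReal.ofReal κ⁻¹ * Φ t + ENNReal.ofReal (Q97.BS.tR 3 T t) := by
    intro t
    have hz0 := zd_nonneg β T U t
    by_cases h0 : riemannZeta (pp t) = 0
    · have : zd β T U t = 0 := by
        unfold zd
        rw [h0, norm_zero, Real.zero_rpow hβ.ne', zero_mul]
      rw [this, ENNReal.ofReal_zero]
      exact zero_le
    by_cases hy : |t - T| ≤ 1 / 4 * T
    · refine le_trans ?_ le_self_add
      rw [hΦ, ← ENNReal.ofReal_mul (by positivity)]
      apply ENNReal.ofReal_le_ofReal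
      rw [le_inv_mul_iff₀ hκ0]
      have k1 := h1 t hy h0
      have k2 : κ ≤ ‖deriv riemannZeta (pp t) / riemannZeta (pp t)‖ ^ q :=
        Real.rpow_le_rpow hκb.le (hbase.trans k1) hq.le
      gcongr
    · push Not at hy
      refine le_trans ?_ le_add_self
      apply ENNReal.ofReal_le_ofReal
      refine le_trans ?_ (h4 U h t (lt_of_le_of_lt (by gcongr) hy))
      have := zeta_rpow_bd hβ (x := 1 / 2) (by norm_num) (by norm_num) t
      have hw := wt_pos T U t
      unfold zd pp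
      gcongr
  have h7 := lintegral_mono (μ := volume) hpt
  rw [lintegral_add_right _ htm, lintegral_const_mul' _ _ ENNReal.ofReal_ne_top, zd_lint hβ h,
    ← ofReal_integral_eq_lintegral_ofReal t1 (Eventually.of_forall htn)] at h7
  have h8 : ENNReal.ofReal M ≤ ENNReal.ofReal κ⁻¹ * (∫⁻ t, Φ t) +
      ENNReal.ofReal ((1 - θ) * M) := by
    refine h7.trans (add_le_add le_rfl (ENNReal.ofReal_le_ofReal ?_))
    refine t2.trans (h3.le.trans ?_)
    have : 0 ≤ 1 - θ := by linarith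
    gcongr
  have h9 : ENNReal.ofReal (θ * M) ≤ ENNReal.ofReal κ⁻¹ * (∫⁻ t, Φ t) := by
    have hθ0 : 0 ≤ θ := by
      apply Real.rpow_nonneg
      apply div_nonneg <;> linarith
    have e1 : ENNReal.ofReal M = ENNReal.ofReal (θ * M) + ENNReal.ofReal ((1 - θ) * M) := by
      rw [← ENNReal.ofReal_add (by positivity) (mul_nonneg (by linarith) hM0.le)]
      congr 1
      ring
    rw [e1] at h8
    exact (ENNReal.add_le_add_iff_right ENNReal.ofReal_ne_top).mp h8
  calc ENNReal.ofReal (((1 / 2 - ε) * L) ^ q * M) = ENNReal.ofReal κ * ENNReal.ofReal (θ * M) := by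
        rw [← ENNReal.ofReal_mul hκ0.le]
        congr 1
        have e2 : ((1 / 2 - ε) * L) ^ q = κ * θ := by
          rw [hκ, hθ, ← Real.mul_rpow hκb.le (by apply div_nonneg <;> linarith)]
          congr 1
          have h10 : 1 / 2 - ε / 2 ≠ 0 := by
            have : 0 < 1 / 2 - ε / 2 := by linarith
            exact this.ne'
          have e3 : (1 / 2 - ε) / (1 / 2 - ε / 2) * (1 / 2 - ε / 2) = 1 / 2 - ε :=
            div_mul_cancel₀ _ h10
          calc (1 / 2 - ε) * L = (1 / 2 - ε) / (1 / 2 - ε / 2) * (1 / 2 - ε / 2) * L := by rw [e3]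
            _ = _ := by ring
        rw [e2]
        ring
    _ ≤ ENNReal.ofReal κ * (ENNReal.ofReal κ⁻¹ * ∫⁻ t, Φ t) := by gcongr
    _ = _ := by
        rw [← mul_assoc, ← ENNReal.ofReal_mul hκ0.le, mul_inv_cancel₀ hκ0.ne', ENNReal.ofReal_one,
          one_mul]

/-- At and beyond the exponent `1 + β` a simple zero makes the moment infinite. -/
theorem ld_top {β q : ℝ} (hβ : 0 < β) (hqβ : 1 + β ≤ q) {γ : ℝ} (h0 : riemannZeta (pp γ) = 0)
    (h1 : deriv riemannZeta (pp γ) ≠ 0) (T U : ℝ) :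
    ∫⁻ t : ℝ, ENNReal.ofReal (‖deriv riemannZeta (pp t) / riemannZeta (pp t)‖ ^ q *
      zd β T U t) = ⊤ := by
  set a := deriv riemannZeta (pp γ) with ha
  have ha0 : 0 < ‖a‖ := norm_pos_iff.mpr h1
  have hq0 : 0 < q := by linarith
  -- the derivative along the line
  have hd : HasDerivAt (fun t : ℝ => riemannZeta (pp t)) (a * I) γ := by
    have h2 : HasDerivAt (fun t : ℝ => pp t) I γ := by
      unfold pp
      have h3 : HasDerivAt (fun t : ℝ => (t : ℂ)) 1 γ := Complex.ofRealCLM.hasDerivAt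
      simpa using (h3.mul_const I).const_add (((1 / 2 : ℝ) : ℂ))
    exact HasDerivAt.comp (h₂ := riemannZeta) γ
      (differentiableAt_riemannZeta (pp_ne γ)).hasDerivAt h2
  have hdc : ContinuousAt (fun t : ℝ => deriv riemannZeta (pp t)) γ :=
    (Q97.BS.z'_cont).continuousAt
  -- near `γ`
  have hb1 : ∀ᶠ t in 𝓝[>] γ, ‖riemannZeta (pp t)‖ ≤ 2 * ‖a‖ * (t - γ) ∧
      ‖a‖ / 2 * (t - γ) ≤ ‖riemannZeta (pp t)‖ := by
    have h2 := hd.isLittleO.def (show 0 < ‖a‖ / 2 by positivity)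
    filter_upwards [nhdsWithin_le_nhds h2, self_mem_nhdsWithin] with t ht htγ
    have hpos : 0 < t - γ := sub_pos.mpr htγ
    rw [h0, sub_zero] at ht
    have e1 : ‖((t - γ : ℝ)) • (a * I)‖ = ‖a‖ * (t - γ) := by
      rw [norm_smul, norm_mul, Complex.norm_I, mul_one, Real.norm_eq_abs, abs_of_pos hpos, mul_comm]
    have e2 : ‖(t - γ : ℝ)‖ = t - γ := by rw [Real.norm_eq_abs, abs_of_pos hpos]
    rw [e2] at ht
    have h3 := norm_sub_norm_le (riemannZeta (pp t)) ((t - γ) • (a * I))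
    have h4 := norm_sub_norm_le ((t - γ) • (a * I)) (riemannZeta (pp t))
    rw [norm_sub_rev] at h4
    rw [e1] at h3 h4
    constructor <;> nlinarith [mul_pos ha0 hpos]
  have hb2 : ∀ᶠ t in 𝓝[>] γ, ‖a‖ / 2 ≤ ‖deriv riemannZeta (pp t)‖ := by
    have h2 : ∀ᶠ t in 𝓝 γ, ‖a‖ / 2 < ‖deriv riemannZeta (pp t)‖ :=
      hdc.norm.eventually (lt_mem_nhds (show ‖a‖ / 2 < ‖deriv riemannZeta (pp γ)‖ by
        rw [← ha]; linarith))
    filter_upwards [nhdsWithin_le_nhds h2] with t ht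
    exact ht.le
  have hwc : ∀ᶠ t in 𝓝[>] γ, wt T U γ / 2 ≤ wt T U t := by
    have h2 : ContinuousAt (wt T U) γ := by
      unfold wt
      fun_prop
    have h3 := h2.eventually (lt_mem_nhds (show wt T U γ / 2 < wt T U γ by
      linarith [wt_pos T U γ]))
    filter_upwards [nhdsWithin_le_nhds h3] with t ht
    exact ht.le
  have hnear : ∀ᶠ t in 𝓝[>] γ, t < γ + 1 :=
    nhdsWithin_le_nhds (gt_mem_nhds (by linarith))
  set K : ℝ := (1 / 4) ^ q * (‖a‖ / 2) ^ β * (wt T U γ / 2) with hK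
  have hw := wt_pos T U γ
  have hK0 : 0 < K := by positivity
  obtain ⟨u, hu, hsub⟩ := (mem_nhdsGT_iff_exists_Ioo_subset).mp
    (hb1.and (hb2.and (hwc.and hnear)))
  have hu' : γ < u := hu
  have hlow : ∀ t ∈ Ioo γ u, K * (t - γ)⁻¹ ≤
      ‖deriv riemannZeta (pp t) / riemannZeta (pp t)‖ ^ q * zd β T U t := by
    intro t ht
    obtain ⟨⟨k1, k2⟩, k3, k4, k5⟩ := hsub ht
    have hpos : 0 < t - γ := sub_pos.mpr ht.1
    have hzp : 0 < ‖riemannZeta (pp t)‖ := lt_of_lt_of_le (by positivity) k2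
    have k6 : 1 / 4 * (t - γ)⁻¹ ≤ ‖deriv riemannZeta (pp t) / riemannZeta (pp t)‖ := by
      rw [norm_div, le_div_iff₀ hzp]
      calc 1 / 4 * (t - γ)⁻¹ * ‖riemannZeta (pp t)‖ ≤ 1 / 4 * (t - γ)⁻¹ * (2 * ‖a‖ * (t - γ)) := by
            gcongr
        _ = ‖a‖ / 2 := by
            field_simp
            norm_num
        _ ≤ _ := k3
    have k7 : (t - γ)⁻¹ ≤ ((t - γ)⁻¹) ^ q * (t - γ) ^ β := by
      have e1 : ((t - γ)⁻¹) ^ q * (t - γ) ^ β = ((t - γ)⁻¹) ^ (q - β) := by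
        rw [Real.rpow_sub (by positivity), Real.inv_rpow hpos.le (β)]
        field_simp
      rw [e1]
      have h1' : 1 ≤ (t - γ)⁻¹ := (one_le_inv₀ hpos).mpr (by linarith)
      calc (t - γ)⁻¹ = ((t - γ)⁻¹) ^ (1 : ℝ) := (Real.rpow_one _).symm
        _ ≤ _ := Real.rpow_le_rpow_of_exponent_le h1' (by linarith)
    unfold zd
    calc K * (t - γ)⁻¹ ≤ K * (((t - γ)⁻¹) ^ q * (t - γ) ^ β) := by gcongr
      _ = (1 / 4 * (t - γ)⁻¹) ^ q * ((‖a‖ / 2 * (t - γ)) ^ β * (wt T U γ / 2)) := by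
          rw [hK, Real.mul_rpow (by norm_num) (by positivity), Real.mul_rpow (by positivity) hpos.le]
          ring
      _ ≤ _ := by gcongr
  by_contra hne
  -- then `1 / (t - γ)` is integrable
  have hfin : ∫⁻ t in Ioo γ u, ENNReal.ofReal (K * (t - γ)⁻¹) < ⊤ := by
    refine lt_of_le_of_lt ?_ (lt_top_iff_ne_top.mpr hne)
    refine (setLIntegral_mono' measurableSet_Ioo fun t ht => ENNReal.ofReal_le_ofReal (hlow t ht)).trans
      (setLIntegral_le_lintegral _ _)
  have hint : IntegrableOn (fun t : ℝ => K * (t - γ)⁻¹) (Ioo γ u) := by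
    refine ⟨(by fun_prop : Measurable (fun t : ℝ => K * (t - γ)⁻¹)).aestronglyMeasurable, ?_⟩
    rw [hasFiniteIntegral_iff_ofReal]
    · exact hfin
    · refine (ae_restrict_iff' measurableSet_Ioo).mpr (Eventually.of_forall fun t ht => ?_)
      have : 0 < t - γ := sub_pos.mpr ht.1
      simp only [Pi.zero_apply]
      positivity
  have hint2 : IntervalIntegrable (fun t : ℝ => (t - γ)⁻¹) volume γ u := by
    rw [intervalIntegrable_iff_integrableOn_Ioo_of_le hu'.le]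
    have h3 : IntegrableOn (fun t : ℝ => K⁻¹ * (K * (t - γ)⁻¹)) (Ioo γ u) := hint.const_mul K⁻¹
    refine h3.congr_fun (fun t _ => ?_) measurableSet_Ioo
    simp only
    rw [← mul_assoc, inv_mul_cancel₀ hK0.ne', one_mul]
  rw [intervalIntegrable_sub_inv_iff] at hint2
  rcases hint2 with h3 | h3
  · exact hu'.ne h3
  · exact h3 left_mem_uIcc

end

end Q97.RD
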