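import Pool.Agent.Q97.RD.Th

set_option autoImplicit false

open Filter MeasureTheory Metric Set Topology Complex
open scoped ENNReal

namespace Q97.RD

open Q97.RB Q97.MM

noncomputable section

/-- Enlarging a set which is thick near `T`. -/
theorem enlarge {E : Set ℝ} {T ℓ h γ : ℝ} (hh : 0 < h) (hγ1 : γ ≤ 1)
    (hE : ∀ y : ℝ, |y - T| ≤ ℓ → ENNReal.ofReal (γ * h) ≤ volume (E ∩ Ico y (y + h)))
    (hℓ : 0 ≤ ℓ) (y : ℝ) :
    ENNReal.ofReal (γ * h) ≤ volume ((E ∪ {x | ℓ < |x - T|}) ∩ Ico y (y + h)) := by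
  have hγh : γ * h ≤ h := mul_le_of_le_one_left hh.le hγ1
  by_cases h1 : |y - T| ≤ ℓ
  · exact (hE y h1).trans (measure_mono (inter_subset_inter_left _ subset_union_left))
  · push Not at h1
    rcases lt_or_ge T y with h2 | h2
    · -- to the right
      rw [abs_of_pos (by linarith)] at h1
      have hsub : Ico y (y + h) ⊆ (E ∪ {x | ℓ < |x - T|}) ∩ Ico y (y + h) := by
        intro x hx
        refine ⟨Or.inr ?_, hx⟩
        change ℓ < |x - T|
        rw [abs_of_pos (by linarith [hx.1])]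
        linarith [hx.1]
      refine le_trans ?_ (measure_mono hsub)
      rw [Real.volume_Ico]
      apply ENNReal.ofReal_le_ofReal
      linarith
    · rw [abs_of_nonpos (by linarith)] at h1
      set s := T - ℓ with hs
      rcases le_or_gt (y + h) s with h3 | h3
      · have hsub : Ico y (y + h) ⊆ (E ∪ {x | ℓ < |x - T|}) ∩ Ico y (y + h) := by
          intro x hx
          refine ⟨Or.inr ?_, hx⟩
          change ℓ < |x - T|
          rw [abs_of_neg (by linarith [hx.2])]
          linarith [hx.2]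
        refine le_trans ?_ (measure_mono hsub)
        rw [Real.volume_Ico]
        apply ENNReal.ofReal_le_ofReal
        linarith
      · have hEs := hE s (by rw [hs, abs_of_nonpos (by linarith)]; linarith)
        -- the left part is full, the right part is part of `E`
        have hsub1 : Ico y s ∪ (E ∩ Ico s (y + h)) ⊆ (E ∪ {x | ℓ < |x - T|}) ∩ Ico y (y + h) := by
          intro x hx
          rcases hx with hx | hx
          · refine ⟨Or.inr ?_, hx.1, by linarith [hx.2]⟩
            change ℓ < |x - T|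
            rw [abs_of_neg (by linarith [hx.2])]
            linarith [hx.2]
          · exact ⟨Or.inl hx.1, by linarith [hx.2.1], hx.2.2⟩
        have hdisj : Disjoint (E ∩ Ico s (y + h)) (Ico y s) := by
          rw [Set.disjoint_left]
          intro x hx hx'
          linarith [hx.2.1, hx'.2]
        have hsub2 : E ∩ Ico s (s + h) ⊆ (E ∩ Ico s (y + h)) ∪ Ico (y + h) (s + h) := by
          intro x hx
          rcases lt_or_ge x (y + h) with h5 | h5
          · exact Or.inl ⟨hx.1, hx.2.1, h5⟩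
          · exact Or.inr ⟨h5, hx.2.2⟩
        refine le_trans ?_ (measure_mono hsub1)
        rw [union_comm, measure_union hdisj measurableSet_Ico, Real.volume_Ico]
        refine (hEs.trans (measure_mono hsub2)).trans ((measure_union_le _ _).trans
          (add_le_add le_rfl ?_))
        rw [Real.volume_Ico]
        apply ENNReal.ofReal_le_ofReal
        linarith

/-- **The theorem on thick sets.** -/
theorem thick_zeta {β : ℝ} (hβ : 0 < β) {a γ : ℝ} (ha : 0 < a) (hγ : 0 < γ) (hγ1 : γ ≤ 1) :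
    ∃ c : ℝ, 0 < c ∧ ∀ᶠ T : ℝ in atTop, ∀ U : ℝ, Adm T U → ∀ E : Set ℝ, MeasurableSet E →
      (∀ y : ℝ, |y - T| ≤ U * Real.log T →
        ENNReal.ofReal (γ * (a / Real.log T)) ≤ volume (E ∩ Ico y (y + a / Real.log T))) →
      ENNReal.ofReal (c * MB β T U (1 / 2)) ≤
        ∫⁻ x in E, ENNReal.ofReal (‖riemannZeta (((1 / 2 : ℝ) : ℂ) + (x : ℂ) * I)‖ ^ β * wt T U x) := by
  have hπ := Real.pi_pos
  obtain ⟨c, hc, hcT⟩ := thick_F hβ ha hγ hγ1
  obtain ⟨c₀, hc₀, hc₀T⟩ := H0_lower hβ
  have h32 : (0 : ℝ) < (3 / 2) ^ β := by positivity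
  refine ⟨(3 / 2 * (3 / 2) ^ β)⁻¹ * (c / 2), by positivity, ?_⟩
  have hsm : Tendsto (fun T : ℝ => Real.pi / T ^ 3) atTop (𝓝 0) :=
    (tendsto_pow_atTop (n := 3) (α := ℝ) (by norm_num)).const_div_atTop _
  have hcε : 0 < c / 2 * c₀ := by positivity
  filter_upwards [hcT, F1 hβ 0 (ε := 1 / 4) (by norm_num),
    Q97.BS.tail ⌈2 * β⌉₊ 3 (45 ^ β) (ϑ := 1 / 4) (by norm_num), hsm.eventually (gt_mem_nhds hcε),
    eventually_ge_atTop 3] with T h1 h2 h4 h5 hT U h E hE hEj
  have hT0 : 0 < T := by linarith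
  have hL := h.log
  have hL0 : 0 < Real.log T := by linarith
  have hU1 := h.2.1
  have hV0 := HB_pos hβ h (x := 1 / 2) (by norm_num) (by norm_num)
  set H := HB β T U (1 / 2) with hH
  set M := MB β T U (1 / 2) with hM
  have hM0 : 0 ≤ M := MB_nonneg _ _ _ _
  have hTβ : 0 < T ^ β := by positivity
  set hh := a / Real.log T with hhd
  have hh0 : 0 < hh := by positivity
  -- `T ^ β M ≤ (3/2) H`
  have g1 : T ^ β * M ≤ 3 / 2 * H := by
    have g2 := (abs_le.mp (h2 U h)).1
    rw [GB_zero hβ h] at g2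
    have g3 : JB β T U 0 = T ^ β * M / H := by
      unfold JB
      rw [zero_div, add_zero]
    rw [g3] at g2
    have g4 : T ^ β * M / H ≤ 3 / 2 := by linarith
    rwa [div_le_iff₀ hV0] at g4
  have g5 : Real.pi / T ^ 3 ≤ c / 2 * H := by
    have g6 := hc₀T T U h
    have hT1 : 1 ≤ T ^ β := Real.one_le_rpow (by linarith) hβ.le
    have g7 : c₀ ≤ c₀ * (T ^ β * U) := by
      have : 1 ≤ T ^ β * U := one_le_mul_of_one_le_of_one_le hT1 hU1
      nlinarith
    calc Real.pi / T ^ 3 ≤ c / 2 * c₀ := h5.le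
      _ ≤ c / 2 * H := by
          have : c₀ ≤ H := by linarith
          gcongr
  set Far : Set ℝ := {x | U * Real.log T < |x - T|} with hFar
  have hFm : MeasurableSet Far := measurableSet_lt measurable_const (by fun_prop)
  have h6 := h1 U h (E ∪ Far) (hE.union hFm) (fun j => by
    exact enlarge hh0 hγ1 hEj (by positivity) _)
  -- the pointwise comparison
  obtain ⟨t1, t2⟩ := Q97.BS.tR_int 3 hT0
  have htm : Measurable (fun y => ENNReal.ofReal (Q97.BS.tR 3 T y)) := by
    unfold Q97.BS.tR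
    fun_prop
  have htn : ∀ y, 0 ≤ Q97.BS.tR 3 T y := fun y => by unfold Q97.BS.tR; positivity
  set D : ℝ := (3 / 2 * T) ^ β with hD
  have hD0 : 0 < D := by positivity
  set g : ℝ → ℝ≥0∞ := fun x =>
    ENNReal.ofReal (‖riemannZeta (((1 / 2 : ℝ) : ℂ) + (x : ℂ) * I)‖ ^ β * wt T U x) with hg
  have hfar : ∀ y : ℝ, 1 / 4 * (U * Real.log T) < |y - T| →
      ENNReal.ofReal (‖FB β T U (((1 / 2 : ℝ) : ℂ) + (y : ℂ) * I)‖ ^ β) ≤
        ENNReal.ofReal (Q97.BS.tR 3 T y) := by
    intro y hy
    apply ENNReal.ofReal_le_ofReal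
    rw [FB_pow hβ h.pos]
    have hexp : Real.exp (((1 / 2 : ℝ) - 1 / 2) ^ 2 / U ^ 2) = 1 := by norm_num
    rw [hexp, one_mul]
    refine le_trans ?_ (h4 U h y hy)
    have := Z1_rpow_bd hβ (x := 1 / 2) (by norm_num) (by norm_num) y
    have hw := wt_pos T U y
    gcongr
  have hpt : ∀ y : ℝ, ENNReal.ofReal (‖FB β T U (((1 / 2 : ℝ) : ℂ) + (y : ℂ) * I)‖ ^ β) ≤
      ENNReal.ofReal D * g y + ENNReal.ofReal (Q97.BS.tR 3 T y) := by
    intro y
    by_cases hy : |y - T| ≤ 1 / 4 * T
    · refine le_trans ?_ le_self_add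
      rw [hg, ← ENNReal.ofReal_mul hD0.le]
      apply ENNReal.ofReal_le_ofReal
      rw [FB_pow hβ h.pos]
      have hexp : Real.exp (((1 / 2 : ℝ) - 1 / 2) ^ 2 / U ^ 2) = 1 := by norm_num
      rw [hexp, one_mul]
      set z : ℂ := ((1 / 2 : ℝ) : ℂ) + y * I with hz
      have hne : z ≠ 1 := ne_one_of_re (by norm_num) y
      have hy2 := abs_le.mp hy
      have a1 : ‖z - 1‖ ≤ 3 / 2 * T := by
        have e1 : z - 1 = ((-(1 / 2) : ℝ) : ℂ) + y * I := by
          rw [hz]
          push_cast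
          ring
        rw [e1]
        refine (norm_add_le _ _).trans ?_
        rw [norm_mul, Complex.norm_I, mul_one, Complex.norm_real, Complex.norm_real, Real.norm_eq_abs,
          Real.norm_eq_abs, abs_neg, abs_of_pos (by norm_num : (0 : ℝ) < 1 / 2),
          abs_of_pos (by linarith [hy2.1] : 0 < y)]
        linarith [hy2.2]
      have hw := wt_pos T U y
      rw [Z1_of_ne hne, norm_mul, Real.mul_rpow (norm_nonneg _) (norm_nonneg _), hD]
      have : ‖z - 1‖ ^ β ≤ (3 / 2 * T) ^ β := Real.rpow_le_rpow (norm_nonneg _) a1 hβ.le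
      calc ‖z - 1‖ ^ β * ‖riemannZeta z‖ ^ β * wt T U y
          ≤ (3 / 2 * T) ^ β * ‖riemannZeta z‖ ^ β * wt T U y := by gcongr
        _ = _ := by ring
    · push Not at hy
      refine le_trans ?_ le_add_self
      apply hfar
      refine lt_of_le_of_lt ?_ hy
      have := h.2.2
      rw [le_div_iff₀ (by linarith)] at this
      gcongr
  have h7 : ∫⁻ x in E ∪ Far, ENNReal.ofReal (‖FB β T U (((1 / 2 : ℝ) : ℂ) + (x : ℂ) * I)‖ ^ β) ≤
      ENNReal.ofReal D * (∫⁻ x in E, g x) + ENNReal.ofReal (Real.pi / T ^ 3) := by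
    rw [← lintegral_indicator (hE.union hFm)]
    have h8 : ∀ y : ℝ, (E ∪ Far).indicator
        (fun x : ℝ => ENNReal.ofReal (‖FB β T U (((1 / 2 : ℝ) : ℂ) + (x : ℂ) * I)‖ ^ β)) y ≤
        ENNReal.ofReal D * E.indicator g y + ENNReal.ofReal (Q97.BS.tR 3 T y) := by
      intro y
      by_cases hyE : y ∈ E
      · rw [indicator_of_mem (show y ∈ E ∪ Far from Or.inl hyE), indicator_of_mem hyE]
        exact hpt y
      · by_cases hyF : y ∈ Far
        · rw [indicator_of_mem (show y ∈ E ∪ Far from Or.inr hyF)]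
          refine le_trans ?_ le_add_self
          apply hfar
          refine lt_of_le_of_lt ?_ hyF
          have : 0 ≤ U * Real.log T := by positivity
          linarith
        · rw [indicator_of_notMem (by simp [hyE, hyF])]
          exact zero_le
    refine (lintegral_mono h8).trans ?_
    rw [lintegral_add_right _ htm, lintegral_const_mul' _ _ ENNReal.ofReal_ne_top,
      lintegral_indicator hE, ← ofReal_integral_eq_lintegral_ofReal t1 (Eventually.of_forall htn)]
    gcongr
  have h9 := h6.trans h7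
  have h10 : ENNReal.ofReal (c / 2 * H) ≤ ENNReal.ofReal D * ∫⁻ x in E, g x := by
    have e1 : ENNReal.ofReal (c * H) = ENNReal.ofReal (c / 2 * H) + ENNReal.ofReal (c / 2 * H) := by
      rw [← ENNReal.ofReal_add (by positivity) (by positivity)]
      congr 1
      ring
    rw [e1] at h9
    have h11 : ENNReal.ofReal (c / 2 * H) + ENNReal.ofReal (c / 2 * H) ≤
        ENNReal.ofReal D * (∫⁻ x in E, g x) + ENNReal.ofReal (c / 2 * H) :=
      h9.trans (by gcongr)
    exact (ENNReal.add_le_add_iff_right ENNReal.ofReal_ne_top).mp h11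
  calc ENNReal.ofReal ((3 / 2 * (3 / 2) ^ β)⁻¹ * (c / 2) * M)
      ≤ ENNReal.ofReal (D⁻¹ * (c / 2 * H)) := by
        apply ENNReal.ofReal_le_ofReal
        have e2 : D = (3 / 2) ^ β * T ^ β := by
          rw [hD, Real.mul_rpow (by norm_num) hT0.le]
        rw [e2]
        calc (3 / 2 * (3 / 2) ^ β)⁻¹ * (c / 2) * M
            = ((3 / 2) ^ β * T ^ β)⁻¹ * (c / 2 * (2 / 3 * (T ^ β * M))) := by
              field_simp
          _ ≤ ((3 / 2) ^ β * T ^ β)⁻¹ * (c / 2 * H) := by
              gcongr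
              linarith
    _ = ENNReal.ofReal D⁻¹ * ENNReal.ofReal (c / 2 * H) := ENNReal.ofReal_mul (by positivity)
    _ ≤ ENNReal.ofReal D⁻¹ * (ENNReal.ofReal D * ∫⁻ x in E, g x) := by gcongr
    _ = ∫⁻ x in E, g x := by
        rw [← mul_assoc, ← ENNReal.ofReal_mul (by positivity), inv_mul_cancel₀ hD0.ne',
          ENNReal.ofReal_one, one_mul]

end

end Q97.RD
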