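import Pool.Agent.Q97.RD.Si
import Pool.Agent.Q97.RD.Tk

set_option autoImplicit false

open Filter MeasureTheory Metric Set Topology
open scoped ENNReal

namespace Q97.RD

open Q97.RB Q97.MM

noncomputable section

theorem wt_cmp' {T U R t y L : ℝ} (hU : 1 ≤ U) (hL : 1 ≤ L) (hR : 0 ≤ R) (ht : |t - T| ≤ U * L)
    (hy : |y - t| ≤ R / L) : wt T U y ≤ Real.exp (2 * R) * wt T U t := by
  unfold wt
  rw [← Real.exp_add, Real.exp_le_exp]
  have hL0 : 0 < L := by linarith
  have hU0 : 0 < U := by linarith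
  have h2 : (t - T) ^ 2 - (y - T) ^ 2 ≤ (2 * R) * U ^ 2 := by
    have e1 : (t - T) ^ 2 - (y - T) ^ 2 = -(y - t) ^ 2 + 2 * ((t - y) * (t - T)) := by ring
    have h3 : (t - y) * (t - T) ≤ R * U := by
      calc (t - y) * (t - T) ≤ |(t - y) * (t - T)| := le_abs_self _
        _ = |y - t| * |t - T| := by rw [abs_mul, abs_sub_comm t y]
        _ ≤ R / L * (U * L) := by gcongr
        _ = R * U := by field_simp
    have h5 : R * U ≤ R * U ^ 2 := by
      gcongr
      nlinarith
    rw [e1]
    nlinarith [sq_nonneg (y - t)]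
  have h7 : ((t - T) / U) ^ 2 - ((y - T) / U) ^ 2 ≤ 2 * R := by
    rw [div_pow, div_pow, ← sub_div, div_le_iff₀ (by positivity)]
    exact h2
  linarith

/-- **Upper bound for shifted moments.** -/
theorem shift_up {n : ℕ} (hn : 0 < n) {β : Fin n → ℝ} (hβ : ∀ i, 0 < β i) {A : ℝ} (hA : 0 ≤ A) :
    ∃ C : ℝ, 0 < C ∧ ∀ᶠ T : ℝ in atTop, ∀ U : ℝ, Adm T U → ∀ w : Fin n → ℂ,
      (∀ i, ‖w i‖ ≤ A / Real.log T) →
      ∫⁻ x : ℝ, ENNReal.ofReal ((∏ i, ‖riemannZeta (pp x + w i)‖ ^ β i) * wt T U x) ≤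
        ENNReal.ofReal (C * MB (∑ i, β i) T U (1 / 2)) := by
  have : Nonempty (Fin n) := ⟨⟨0, hn⟩⟩
  set b := ∑ i, β i with hb
  have hb0 : 0 < b := Finset.sum_pos (fun i _ => hβ i) Finset.univ_nonempty
  obtain ⟨C, hC, h⟩ := zeta_disc hb0 hA
  refine ⟨C, hC, ?_⟩
  filter_upwards [h] with T h1 U hAdm w hw
  have hex : ∀ x : ℝ, ∃ i : Fin n, ∀ j : Fin n,
      ‖riemannZeta (pp x + w j)‖ ≤ ‖riemannZeta (pp x + w i)‖ := by
    intro x
    obtain ⟨i, _, hi⟩ := Finset.exists_max_image Finset.univ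
      (fun i : Fin n => ‖riemannZeta (pp x + w i)‖) Finset.univ_nonempty
    exact ⟨i, fun j => hi j (Finset.mem_univ j)⟩
  choose i hi using hex
  refine le_trans (lintegral_mono fun x => ?_) (h1 U hAdm (fun x => pp x + w (i x)) (fun t => by
    rw [add_sub_cancel_left]
    exact hw _))
  apply ENNReal.ofReal_le_ofReal
  have hwt := wt_pos T U x
  gcongr
  rw [hb, Real.rpow_sum_of_nonneg (norm_nonneg _) (fun i _ => (hβ i).le)]
  refine Finset.prod_le_prod (fun i _ => by positivity) fun j _ => ?_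
  exact Real.rpow_le_rpow (norm_nonneg _) (hi x j) (hβ j).le

/-- **Lower bound for shifted moments.** -/
theorem shift_low {n : ℕ} (hn : 0 < n) {β : Fin n → ℝ} (hβ : ∀ i, 0 < β i) {A : ℝ} (hA : 0 ≤ A) :
    ∃ c : ℝ, 0 < c ∧ ∀ᶠ T : ℝ in atTop, ∀ U : ℝ, Adm T U → ∀ w : Fin n → ℂ,
      (∀ i, ‖w i‖ ≤ A / Real.log T) →
      ENNReal.ofReal (c * MB (∑ i, β i) T U (1 / 2)) ≤
      ∫⁻ x : ℝ, ENNReal.ofReal ((∏ i, ‖riemannZeta (pp x + w i)‖ ^ β i) * wt T U x) := by
  have hπ := Real.pi_pos
  have : Nonempty (Fin n) := ⟨⟨0, hn⟩⟩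
  set b := ∑ i, β i with hb
  have hb0 : 0 < b := Finset.sum_pos (fun i _ => hβ i) Finset.univ_nonempty
  have hsum1 : ∑ i, β i / b = 1 := by
    rw [← Finset.sum_div, ← hb, div_self hb0.ne']
  obtain ⟨c, hc, hcT⟩ := shift_F hn hβ hA
  obtain ⟨c₀, hc₀, hc₀T⟩ := H0_lower hb0
  set E := Real.exp 1 * Real.exp (2 * A) with hE
  have hE0 : 0 < E := by positivity
  refine ⟨(3 / 2 * (E * 4 ^ b))⁻¹ * (c / 2), by positivity, ?_⟩
  have hsm : Tendsto (fun T : ℝ => 4 * (Real.pi / T ^ 3)) atTop (𝓝 (4 * 0)) :=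
    ((tendsto_pow_atTop (n := 3) (α := ℝ) (by norm_num)).const_div_atTop _).const_mul _
  rw [mul_zero] at hsm
  have hcε : 0 < c / 2 * c₀ := by positivity
  filter_upwards [hcT, F1 hb0 0 (ε := 1 / 4) (by norm_num), far_disc hb0 3 (e := 1) one_pos,
    hsm.eventually (gt_mem_nhds hcε), eventually_ge_atTop 3,
    (log_div_tendsto A).eventually (gt_mem_nhds (show (0 : ℝ) < 1 / 8 by norm_num))]
    with T h1 h2 h4 h5 hT h3 U h w hw
  have hT0 : 0 < T := by linarith
  have hL := h.log
  have hL0 : 0 < Real.log T := by linarith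
  rw [abs_of_nonneg (by positivity)] at h3
  have hU1 := h.2.1
  have hV0 := HB_pos hb0 h (x := 1 / 2) (by norm_num) (by norm_num)
  have h6 := h1 U h w hw
  set H := HB b T U (1 / 2) with hH
  set M := MB b T U (1 / 2) with hM
  have hM0 : 0 ≤ M := MB_nonneg _ _ _ _
  have hTβ : 0 < T ^ b := by positivity
  have hUL : U * Real.log T ≤ T := by
    have := h.2.2
    rwa [le_div_iff₀ (by linarith)] at this
  -- `T ^ b M ≤ (3/2) H`
  have g1 : T ^ b * M ≤ 3 / 2 * H := by
    have g2 := (abs_le.mp (h2 U h)).1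
    rw [GB_zero hb0 h] at g2
    have g3 : JB b T U 0 = T ^ b * M / H := by
      unfold JB
      rw [zero_div, add_zero]
    rw [g3] at g2
    have g4 : T ^ b * M / H ≤ 3 / 2 := by linarith
    rwa [div_le_iff₀ hV0] at g4
  have g5 : 4 * (Real.pi / T ^ 3) ≤ c / 2 * H := by
    have g6 := hc₀T T U h
    have hT1 : 1 ≤ T ^ b := Real.one_le_rpow (by linarith) hb0.le
    have g7 : c₀ ≤ c₀ * (T ^ b * U) := by
      have : 1 ≤ T ^ b * U := one_le_mul_of_one_le_of_one_le hT1 hU1
      nlinarith
    calc 4 * (Real.pi / T ^ 3) ≤ c / 2 * c₀ := h5.le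
      _ ≤ c / 2 * H := by
          have : c₀ ≤ H := by linarith
          gcongr
  obtain ⟨t1, t2⟩ := Q97.BS.tR_int 3 hT0
  have htm : Measurable (fun y => ENNReal.ofReal (4 * Q97.BS.tR 3 T y)) := by
    unfold Q97.BS.tR
    fun_prop
  have htn : ∀ y, 0 ≤ Q97.BS.tR 3 T y := fun y => by unfold Q97.BS.tR; positivity
  set D : ℝ := E * (4 * T) ^ b with hD
  have hD0 : 0 < D := by positivity
  set g : ℝ → ℝ≥0∞ := fun x =>
    ENNReal.ofReal ((∏ i, ‖riemannZeta (pp x + w i)‖ ^ β i) * wt T U x) with hg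
  have hroot : ∀ (z : ℂ) (i : Fin n), ‖FB b T U z‖ ^ β i = (‖FB b T U z‖ ^ b) ^ (β i / b) := by
    intro z i
    rw [← Real.rpow_mul (norm_nonneg _)]
    congr 1
    field_simp
  have hpt : ∀ x : ℝ, ENNReal.ofReal (∏ i, ‖FB b T U (pp x + w i)‖ ^ β i) ≤
      ENNReal.ofReal D * g x + ENNReal.ofReal (4 * Q97.BS.tR 3 T x) := by
    intro x
    have hwx := wt_pos T U x
    by_cases hy : 1 * (U * Real.log T) < |x - T|
    · refine le_trans ?_ le_add_self
      apply ENNReal.ofReal_le_ofReal
      have ht0 : 0 ≤ 4 * Q97.BS.tR 3 T x := by linarith [htn x]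
      calc ∏ i, ‖FB b T U (pp x + w i)‖ ^ β i
          ≤ ∏ i, (4 * Q97.BS.tR 3 T x) ^ (β i / b) := by
            refine Finset.prod_le_prod (fun i _ => by positivity) fun i _ => ?_
            rw [hroot]
            refine Real.rpow_le_rpow (by positivity) ?_ (div_nonneg (hβ i).le hb0.le)
            refine h4 U h x (pp x + w i) ?_ hy
            rw [add_sub_cancel_left]
            exact (hw i).trans h3.le
        _ = 4 * Q97.BS.tR 3 T x := by
            rw [← Real.rpow_sum_of_nonneg ht0 (fun i _ => div_nonneg (hβ i).le hb0.le), hsum1,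
              Real.rpow_one]
    · push Not at hy
      rw [one_mul] at hy
      refine le_trans ?_ le_self_add
      rw [hg, ← ENNReal.ofReal_mul hD0.le]
      apply ENNReal.ofReal_le_ofReal
      have hone : ∀ i, ‖FB b T U (pp x + w i)‖ ^ β i ≤
          (E * wt T U x) ^ (β i / b) * ((4 * T) ^ β i * ‖riemannZeta (pp x + w i)‖ ^ β i) := by
        intro i
        set z := pp x + w i with hz
        have hzw : z - pp x = w i := by rw [hz]; ring
        have a0 : ‖z - pp x‖ ≤ A / Real.log T := by rw [hzw]; exact hw i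
        have a1 := (Complex.abs_re_le_norm _).trans a0
        have a2 := (Complex.abs_im_le_norm _).trans a0
        rw [Complex.sub_re, pp_re] at a1
        rw [Complex.sub_im, pp_im] at a2
        have hre : |z.re - 1 / 2| ≤ 1 / 4 := by linarith
        have hne : z ≠ 1 := by
          intro h0
          have := dist_one hre
          rw [h0, sub_self, norm_zero] at this
          norm_num at this
        have e1 : z = (z.re : ℂ) + z.im * Complex.I := (Complex.re_add_im _).symm
        have b1 := FB_pow (T := T) hb0 h.pos z.re z.im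
        rw [← e1] at b1
        have b2 : Real.exp ((z.re - 1 / 2) ^ 2 / U ^ 2) ≤ Real.exp 1 := by
          rw [Real.exp_le_exp, div_le_one (by positivity)]
          have : (z.re - 1 / 2) ^ 2 ≤ 1 := by
            rw [← sq_abs]
            nlinarith [abs_nonneg (z.re - 1 / 2)]
          nlinarith
        have b3 := wt_cmp' h.2.1 hL hA hy a2
        have b4 : ‖z - 1‖ ≤ 4 * T := by
          have hx := abs_le.mp (hy.trans hUL)
          have hi := abs_le.mp a2
          have hA4 : A / Real.log T ≤ 1 := by linarith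
          calc ‖z - 1‖ ≤ |(z - 1).re| + |(z - 1).im| := Complex.norm_le_abs_re_add_abs_im _
            _ ≤ 1 + (2 * T + 1) := by
                rw [Complex.sub_re, Complex.sub_im, Complex.one_re, Complex.one_im, sub_zero]
                have hr := abs_le.mp hre
                apply add_le_add
                · rw [abs_le]; constructor <;> linarith [hr.1, hr.2]
                · rw [abs_le]; constructor <;> linarith [hi.1, hi.2, hx.1, hx.2]
            _ ≤ _ := by linarith
        have hwz := wt_pos T U z.im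
        have b5 : ‖FB b T U z‖ ^ b ≤ E * wt T U x * (4 * T * ‖riemannZeta z‖) ^ b := by
          rw [b1, Z1_of_ne hne, norm_mul]
          calc Real.exp ((z.re - 1 / 2) ^ 2 / U ^ 2) *
                ((‖z - 1‖ * ‖riemannZeta z‖) ^ b * wt T U z.im)
              ≤ Real.exp 1 * ((4 * T * ‖riemannZeta z‖) ^ b * (Real.exp (2 * A) * wt T U x)) := by
                gcongr
            _ = _ := by rw [hE]; ring
        rw [hroot]
        calc (‖FB b T U z‖ ^ b) ^ (β i / b)
            ≤ (E * wt T U x * (4 * T * ‖riemannZeta z‖) ^ b) ^ (β i / b) :=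
              Real.rpow_le_rpow (by positivity) b5 (div_nonneg (hβ i).le hb0.le)
          _ = _ := by
              rw [Real.mul_rpow (by positivity) (by positivity), ← Real.rpow_mul (by positivity),
                show b * (β i / b) = β i by field_simp, Real.mul_rpow (by positivity)
                (norm_nonneg _)]
      calc ∏ i, ‖FB b T U (pp x + w i)‖ ^ β i
          ≤ ∏ i, ((E * wt T U x) ^ (β i / b) *
            ((4 * T) ^ β i * ‖riemannZeta (pp x + w i)‖ ^ β i)) :=
            Finset.prod_le_prod (fun i _ => by positivity) fun i _ => hone i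
        _ = _ := by
            rw [Finset.prod_mul_distrib, Finset.prod_mul_distrib,
              ← Real.rpow_sum_of_nonneg (by positivity) (fun i _ => div_nonneg (hβ i).le hb0.le),
              ← Real.rpow_sum_of_nonneg (by positivity) (fun i _ => (hβ i).le), hsum1,
              Real.rpow_one, hD]
            ring
  have h7 : ENNReal.ofReal (c * H) ≤ ENNReal.ofReal D * (∫⁻ x, g x) +
      ENNReal.ofReal (c / 2 * H) := by
    refine h6.trans ((lintegral_mono hpt).trans ?_)
    rw [lintegral_add_right _ htm, lintegral_const_mul' _ _ ENNReal.ofReal_ne_top,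
      ← ofReal_integral_eq_lintegral_ofReal (t1.const_mul 4) (Eventually.of_forall fun y => by
        simp only [Pi.zero_apply]
        linarith [htn y]), integral_const_mul]
    refine add_le_add le_rfl (ENNReal.ofReal_le_ofReal ?_)
    linarith
  have h10 : ENNReal.ofReal (c / 2 * H) ≤ ENNReal.ofReal D * ∫⁻ x, g x := by
    have e1 : ENNReal.ofReal (c * H) = ENNReal.ofReal (c / 2 * H) + ENNReal.ofReal (c / 2 * H) := by
      rw [← ENNReal.ofReal_add (by positivity) (by positivity)]
      congr 1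
      ring
    rw [e1] at h7
    exact (ENNReal.add_le_add_iff_right ENNReal.ofReal_ne_top).mp h7
  calc ENNReal.ofReal ((3 / 2 * (E * 4 ^ b))⁻¹ * (c / 2) * M)
      ≤ ENNReal.ofReal (D⁻¹ * (c / 2 * H)) := by
        apply ENNReal.ofReal_le_ofReal
        have e2 : D = E * (4 ^ b * T ^ b) := by
          rw [hD, Real.mul_rpow (by norm_num) hT0.le]
        rw [e2]
        calc (3 / 2 * (E * 4 ^ b))⁻¹ * (c / 2) * M
            = (E * (4 ^ b * T ^ b))⁻¹ * (c / 2 * (2 / 3 * (T ^ b * M))) := by
              field_simp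
          _ ≤ (E * (4 ^ b * T ^ b))⁻¹ * (c / 2 * H) := by
              gcongr
              linarith
    _ = ENNReal.ofReal D⁻¹ * ENNReal.ofReal (c / 2 * H) := ENNReal.ofReal_mul (by positivity)
    _ ≤ ENNReal.ofReal D⁻¹ * (ENNReal.ofReal D * ∫⁻ x, g x) := by gcongr
    _ = ∫⁻ x, g x := by
        rw [← mul_assoc, ← ENNReal.ofReal_mul (by positivity), inv_mul_cancel₀ hD0.ne',
          ENNReal.ofReal_one, one_mul]

end

end Q97.RD
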