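import Pool.Agent.Q97.RD.De2
import Pool.Agent.Q97.RD.Sj
import Pool.Agent.Q97.RD.Lq

set_option autoImplicit false

open Filter MeasureTheory Metric Set Topology
open scoped ENNReal

namespace Q97.RD

open Q97.RB Q97.MM

noncomputable section

/-- In an interval which matters, several derivatives at shifted points are large at the same time
on half of the interval. -/
theorem cell_der {n : ℕ} (hn : 0 < n) (J : Fin n → ℕ) {η a K : ℝ} (hη : 0 < η)
    (ha : ∀ i, 12 * CM (J i) ≤ a) (ha1 : 1 ≤ a) (hK : 192 * Real.exp 1 * n ≤ K) :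
    ∃ δ : ℝ, 0 < δ ∧ ∀ (f : ℂ → ℂ) (u L lam : ℝ) (w : Fin n → ℂ), 0 < L →
      DifferentiableOn ℂ f (ball (pp (u + a / L / 2)) (2 * K * (a / L))) →
      (∀ z ∈ closedBall (pp (u + a / L / 2)) ((K + 1) * (a / L)), ‖f z‖ ≤ lam) →
      (∀ x ∈ Icc u (u + a / L), L / 3 * ‖f (pp x)‖ ≤ ‖deriv f (pp x)‖) →
      (∀ i, ‖w i‖ ≤ a / L / 4) → (∃ x ∈ Icc u (u + a / L), η * lam < ‖f (pp x)‖) →
      ENNReal.ofReal (1 / 2 * (a / L)) ≤ volume {x ∈ Ico u (u + a / L) |
        ∀ i, δ * L ^ J i * lam < ‖iteratedDeriv (J i) f (pp x + w i)‖} := by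
  have he1 : 1 ≤ Real.exp 1 := Real.one_le_exp (by norm_num)
  have hn' : (1 : ℝ) ≤ n := by exact_mod_cast hn
  have hn0 : (0 : ℝ) < n := by linarith
  have : Nonempty (Fin n) := ⟨⟨0, hn⟩⟩
  have hγ1 : (1 : ℝ) / (2 * n) ≤ 1 := by
    rw [div_le_one (by positivity)]
    linarith
  have hK' : 96 * Real.exp 1 / (1 / (2 * n)) ≤ K := by
    refine le_trans (le_of_eq ?_) hK
    field_simp
    ring
  have hsm := fun i => small_set (J i) (γ := 1 / (2 * n)) (η := η) (a := a) (K := K)
    (by positivity) hγ1 hη (ha i) ha1 hK'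
  choose δ hδ0 hδ using hsm
  obtain ⟨i0, _, hi0⟩ := Finset.exists_min_image Finset.univ δ Finset.univ_nonempty
  refine ⟨δ i0, hδ0 i0, fun f u L lam w hL hf hlam hlow hw hex => ?_⟩
  set h := a / L with hh'
  have hh : 0 < h := by positivity
  have hlam0 : 0 ≤ lam := by
    have hK0 : 0 ≤ K := le_trans (by positivity) hK
    exact (norm_nonneg _).trans (hlam _ (mem_closedBall_self (by positivity)))
  set W := {x ∈ Ico u (u + h) | ∀ i, δ i0 * L ^ J i * lam < ‖iteratedDeriv (J i) f (pp x + w i)‖}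
    with hW
  set S : Fin n → Set ℝ := fun i =>
    {x ∈ Icc u (u + h) | ‖iteratedDeriv (J i) f (pp x + w i)‖ ≤ δ i * L ^ J i * lam} with hS
  have hSv : ∀ i, volume (S i) ≤ ENNReal.ofReal (1 / (2 * n) * h) := fun i =>
    (hδ i f u L lam (w i) hL hf hlam hlow (hw i) hex).le
  have hsub : Ico u (u + h) ⊆ W ∪ ⋃ i, S i := by
    intro x hx
    by_cases hall : ∀ i, δ i0 * L ^ J i * lam < ‖iteratedDeriv (J i) f (pp x + w i)‖
    · exact Or.inl ⟨hx, hall⟩
    · push Not at hall
      obtain ⟨i, hi⟩ := hall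
      refine Or.inr (mem_iUnion.mpr ⟨i, Ico_subset_Icc_self hx, hi.trans ?_⟩)
      have := hi0 i (Finset.mem_univ i)
      gcongr
  have h6 : ENNReal.ofReal (1 / 2 * h) + ENNReal.ofReal (1 / 2 * h) ≤
      volume W + ENNReal.ofReal (1 / 2 * h) := by
    rw [← ENNReal.ofReal_add (by positivity) (by positivity)]
    calc ENNReal.ofReal (1 / 2 * h + 1 / 2 * h) = volume (Ico u (u + h)) := by
          rw [Real.volume_Ico]
          congr 1
          ring
      _ ≤ volume W + volume (⋃ i, S i) := (measure_mono hsub).trans (measure_union_le _ _)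
      _ ≤ volume W + ∑ i : Fin n, ENNReal.ofReal (1 / (2 * n) * h) := by
          gcongr
          refine (measure_iUnion_fintype_le _ _).trans ?_
          exact Finset.sum_le_sum fun i _ => hSv i
      _ = _ := by
          rw [Finset.sum_const, Finset.card_univ, Fintype.card_fin, nsmul_eq_mul,
            ← ENNReal.ofReal_natCast, ← ENNReal.ofReal_mul (by positivity)]
          congr 2
          field_simp
  exact (ENNReal.add_le_add_iff_right ENNReal.ofReal_ne_top).mp h6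

/-- The maxima of `ζ` over a grid of discs. -/
theorem zeta_cells {β : ℝ} (hβ : 0 < β) {a K : ℝ} (ha : 0 < a) (hK : 0 ≤ K) :
    ∃ C : ℝ, 0 < C ∧ ∀ᶠ T : ℝ in atTop, ∀ U : ℝ, Adm T U → ∀ p : ℤ → ℂ,
      (∀ j : ℤ, ‖p j - pp ((j : ℝ) * (a / Real.log T) + a / Real.log T / 2)‖
        ≤ K * (a / Real.log T)) →
      ∑' j : ℤ, {j : ℤ | |(j : ℝ) * (a / Real.log T) + a / Real.log T / 2 - T| ≤
          1 / 8 * (U * Real.log T)}.indicator (fun j : ℤ => ENNReal.ofReal (a / Real.log T *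
          wt T U ((j : ℝ) * (a / Real.log T) + a / Real.log T / 2) *
          ‖riemannZeta (p j)‖ ^ β)) j ≤
        ENNReal.ofReal (C * MB β T U (1 / 2)) := by
  have hπ := Real.pi_pos
  set C₀ := (2 * (K + 1) + 1) * (2 * (K + 1)) * (Real.exp (β * ((K + 1) * a)) + 1) / Real.pi
    with hC₀
  have hC₀0 : 0 < C₀ := by positivity
  set R := K * a with hR
  have hR0 : 0 ≤ R := by positivity
  set E := Real.exp (2 * R + R ^ 2) with hE
  have hE0 : 0 < E := Real.exp_pos _
  obtain ⟨c, hc, hcM⟩ := HM_cmp hβ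
  refine ⟨E * 2 ^ β * C₀ * (4 / 3), by positivity, ?_⟩
  filter_upwards [grid_max hβ ha hK, hcM (1 / 8) (by norm_num) (by norm_num),
    (log_div_tendsto R).eventually (gt_mem_nhds (show (0 : ℝ) < 1 / 4 by norm_num)),
    eventually_ge_atTop 3] with T h1 h2 h3 hT U h p hp
  have hT0 : 0 < T := by linarith
  have hL := h.log
  have hL0 : 0 < Real.log T := by linarith
  rw [abs_of_nonneg (by positivity)] at h3
  have h4 := h1 U h p hp
  obtain ⟨g1, _⟩ := h2 U h
  set H := HB β T U (1 / 2) with hH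
  set M := MB β T U (1 / 2) with hM
  have hH0 : 0 ≤ H := HB_nonneg _ _ _ _
  set hh := a / Real.log T with hhd
  have hh0 : 0 < hh := by positivity
  have hRh : K * hh = R / Real.log T := by rw [hhd, hR]; ring
  have hUL : U * Real.log T ≤ T := by
    have := h.2.2
    rwa [le_div_iff₀ (by linarith)] at this
  have hTβ : 0 < T ^ β := by positivity
  have hpt : ∀ j : ℤ, {j : ℤ | |(j : ℝ) * hh + hh / 2 - T| ≤
        1 / 8 * (U * Real.log T)}.indicator (fun j : ℤ => ENNReal.ofReal (hh *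
        wt T U ((j : ℝ) * hh + hh / 2) * ‖riemannZeta (p j)‖ ^ β)) j ≤
      ENNReal.ofReal (E * ((T / 2) ^ β)⁻¹) * ENNReal.ofReal (hh * ‖FB β T U (p j)‖ ^ β) := by
    intro j
    by_cases hj : j ∈ {j : ℤ | |(j : ℝ) * hh + hh / 2 - T| ≤ 1 / 8 * (U * Real.log T)}
    · rw [indicator_of_mem hj, ← ENNReal.ofReal_mul (by positivity)]
      apply ENNReal.ofReal_le_ofReal
      have hj' : |(j : ℝ) * hh + hh / 2 - T| ≤ 1 / 8 * (U * Real.log T) := hj
      set cj := (j : ℝ) * hh + hh / 2 with hcj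
      have a0 := hp j
      rw [hRh] at a0
      have a1 := (Complex.abs_re_le_norm _).trans a0
      have a2 := (Complex.abs_im_le_norm _).trans a0
      rw [Complex.sub_re, pp_re] at a1
      rw [Complex.sub_im, pp_im] at a2
      have hre : |(p j).re - 1 / 2| ≤ 1 / 4 := by linarith
      have hUL0 : 0 ≤ U * Real.log T := mul_nonneg h.pos.le hL0.le
      have b1 := wt_cmp h.2.1 hL hR0 (hj'.trans (by linarith)) a2
      have b2 := zeta_le hβ (T := T) (U := U) h.pos hre (d := T / 2) (by positivity) (by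
        have h7 := Complex.abs_im_le_norm (p j - 1)
        rw [Complex.sub_im, Complex.one_im, sub_zero] at h7
        refine le_trans ?_ ((le_abs_self _).trans h7)
        have h8 := (abs_le.mp hj').1
        have h9 := (abs_le.mp a2).1
        linarith)
      calc hh * wt T U cj * ‖riemannZeta (p j)‖ ^ β
          ≤ hh * (E * wt T U (p j).im) * ‖riemannZeta (p j)‖ ^ β := by gcongr
        _ = hh * E * (‖riemannZeta (p j)‖ ^ β * wt T U (p j).im) := by ring
        _ ≤ hh * E * (((T / 2) ^ β)⁻¹ * ‖FB β T U (p j)‖ ^ β) := by gcongr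
        _ = _ := by ring
    · rw [indicator_of_notMem hj]
      exact zero_le
  calc _ ≤ ∑' j : ℤ, ENNReal.ofReal (E * ((T / 2) ^ β)⁻¹) *
        ENNReal.ofReal (hh * ‖FB β T U (p j)‖ ^ β) := ENNReal.tsum_le_tsum hpt
    _ = ENNReal.ofReal (E * ((T / 2) ^ β)⁻¹) * ∑' j : ℤ,
        ENNReal.ofReal (hh * ‖FB β T U (p j)‖ ^ β) := ENNReal.tsum_mul_left
    _ ≤ ENNReal.ofReal (E * ((T / 2) ^ β)⁻¹) * ENNReal.ofReal (C₀ * H) := by gcongr
    _ ≤ _ := by
        rw [← ENNReal.ofReal_mul (by positivity)]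
        apply ENNReal.ofReal_le_ofReal
        have k1 : H ≤ 4 / 3 * (T ^ β * M) := by linarith
        have k2 : (T / 2) ^ β = T ^ β * (2 ^ β)⁻¹ := by
          rw [Real.div_rpow hT0.le (by norm_num), div_eq_mul_inv]
        rw [k2]
        calc E * (T ^ β * (2 ^ β)⁻¹)⁻¹ * (C₀ * H)
            ≤ E * (T ^ β * (2 ^ β)⁻¹)⁻¹ * (C₀ * (4 / 3 * (T ^ β * M))) := by gcongr
          _ = _ := by field_simp

end

end Q97.RD
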