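import Pool.Agent.Q97.RD.De3

set_option autoImplicit false

open Filter MeasureTheory Metric Set Topology
open scoped ENNReal Nat

namespace Q97.RD

open Q97.RB Q97.MM

noncomputable section

/-- the density of a joint moment of derivatives -/
def jd {n : ℕ} (J : Fin n → ℕ) (β : Fin n → ℝ) (w : Fin n → ℂ) (T U t : ℝ) : ℝ :=
  (∏ i, ‖iteratedDeriv (J i) riemannZeta (pp t + w i)‖ ^ β i) * wt T U t

theorem jd_nonneg {n : ℕ} (J : Fin n → ℕ) (β : Fin n → ℝ) (w : Fin n → ℂ) (T U t : ℝ) :
    0 ≤ jd J β w T U t :=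
  mul_nonneg (Finset.prod_nonneg fun i _ => by positivity) (wt_pos _ _ _).le

theorem zeta_diff_ball {c : ℂ} {r : ℝ} (hc : c.re = 1 / 2) (hr : r ≤ 1 / 4) :
    DifferentiableOn ℂ riemannZeta (ball c r) := by
  intro z hz
  rw [mem_ball, dist_eq_norm] at hz
  refine (differentiableAt_riemannZeta ?_).differentiableWithinAt
  rintro rfl
  have h1 := Complex.abs_re_le_norm (1 - c)
  rw [Complex.sub_re, Complex.one_re, hc] at h1
  have h2 : (1 : ℝ) / 2 ≤ |(1 : ℝ) - 1 / 2| := by norm_num
  linarith

theorem idz_cont (j : ℕ) {w : ℂ} (hw : ‖w‖ < 1 / 4) :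
    Continuous (fun x : ℝ => iteratedDeriv j riemannZeta (pp x + w)) := by
  refine continuous_iff_continuousAt.mpr fun x => ?_
  have h1 : AnalyticOnNhd ℂ riemannZeta (ball (pp x) (1 / 4)) :=
    (zeta_diff_ball (pp_re x) le_rfl).analyticOnNhd isOpen_ball
  have h2 : ContinuousAt (iteratedDeriv j riemannZeta) (pp x + w) := by
    rw [iteratedDeriv_eq_iterate]
    refine ((h1.iterated_deriv j) (pp x + w) ?_).continuousAt
    rw [mem_ball, dist_eq_norm, add_sub_cancel_left]
    exact hw
  have h3 : ContinuousAt (fun x : ℝ => pp x + w) x := by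
    unfold pp
    fun_prop
  exact ContinuousAt.comp (f := fun x : ℝ => pp x + w) (g := iteratedDeriv j riemannZeta) h2 h3

theorem jd_cont {n : ℕ} (J : Fin n → ℕ) {β : Fin n → ℝ} (hβ : ∀ i, 0 < β i) {w : Fin n → ℂ}
    (hw : ∀ i, ‖w i‖ < 1 / 4) (T U : ℝ) : Continuous (jd J β w T U) := by
  unfold jd
  refine Continuous.mul (continuous_finsetProd _ fun i _ => ?_) (by unfold wt; fun_prop)
  exact (idz_cont (J i) (hw i)).norm.rpow_const fun _ => Or.inr (hβ i).le

/-- **Upper bound for joint moments of derivatives at shifted points.** -/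
theorem der_up {n : ℕ} (hn : 0 < n) (J : Fin n → ℕ) {β : Fin n → ℝ} (hβ : ∀ i, 0 < β i) {A : ℝ}
    (hA : 0 ≤ A) : ∃ C : ℝ, 0 < C ∧ ∀ᶠ T : ℝ in atTop, ∀ U : ℝ, Adm T U → ∀ w : Fin n → ℂ,
      (∀ i, ‖w i‖ ≤ A / Real.log T) →
      ∫⁻ x : ℝ, ENNReal.ofReal (jd J β w T U x) ≤
        ENNReal.ofReal (C * Real.log T ^ (∑ i, J i * β i) * MB (∑ i, β i) T U (1 / 2)) := by
  have : Nonempty (Fin n) := ⟨⟨0, hn⟩⟩
  set b := ∑ i, β i with hb
  have hb0 : 0 < b := Finset.sum_pos (fun i _ => hβ i) Finset.univ_nonempty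
  obtain ⟨C, hC, h⟩ := zeta_disc hb0 (R := A + 1) (by positivity)
  set P : ℝ := ∏ i, ((J i)! : ℝ) ^ β i with hP
  have hP0 : 0 < P := by
    refine Finset.prod_pos fun i _ => ?_
    have : (0 : ℝ) < (J i)! := by exact_mod_cast Nat.factorial_pos _
    positivity
  refine ⟨P * C, by positivity, ?_⟩
  filter_upwards [h, (log_div_tendsto (A + 1)).eventually
    (gt_mem_nhds (show (0 : ℝ) < 1 / 8 by norm_num))] with T h1 h2 U hAdm w hw
  have hL := hAdm.log
  have hL0 : 0 < Real.log T := by linarith
  rw [abs_of_nonneg (by positivity)] at h2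
  set L := Real.log T with hLd
  -- the point of maximum
  have hex : ∀ x : ℝ, ∃ p : ℂ, ‖p - pp x‖ ≤ (A + 1) / L ∧
      ∀ z ∈ closedBall (pp x) ((A + 1) / L), ‖riemannZeta z‖ ≤ ‖riemannZeta p‖ := by
    intro x
    have hcont : ContinuousOn (fun z => ‖riemannZeta z‖) (closedBall (pp x) ((A + 1) / L)) := by
      refine ((zeta_diff_ball (pp_re x) le_rfl).continuousOn.mono ?_).norm
      exact closedBall_subset_ball (by linarith)
    obtain ⟨p, hp, hmax⟩ := (isCompact_closedBall (pp x) ((A + 1) / L)).exists_isMaxOn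
      ⟨_, mem_closedBall_self (by positivity)⟩ hcont
    refine ⟨p, ?_, fun z hz => hmax hz⟩
    rwa [mem_closedBall, dist_eq_norm] at hp
  choose p hp hpm using hex
  have hone : ∀ (x : ℝ) (i : Fin n), ‖iteratedDeriv (J i) riemannZeta (pp x + w i)‖ ^ β i ≤
      ((J i)! : ℝ) ^ β i * L ^ (J i * β i) * ‖riemannZeta (p x)‖ ^ β i := by
    intro x i
    have hsub : closedBall (pp x + w i) (1 / L) ⊆ closedBall (pp x) ((A + 1) / L) := by
      apply closedBall_subset_closedBall'
      rw [dist_eq_norm, add_sub_cancel_left, add_div]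
      linarith [hw i]
    have hdc : DiffContOnCl ℂ riemannZeta (ball (pp x + w i) (1 / L)) :=
      (zeta_diff_ball (pp_re x) (le_refl (1 / 4))).diffContOnCl_ball
        (hsub.trans (closedBall_subset_ball (by linarith)))
    have h3 := Complex.norm_iteratedDeriv_le_of_forall_mem_sphere_norm_le (J i)
      (by positivity : 0 < 1 / L) hdc
      (fun z hz => hpm x z (hsub (sphere_subset_closedBall hz)))
    have h4 : (J i)! * ‖riemannZeta (p x)‖ / (1 / L) ^ J i =
        (J i)! * L ^ J i * ‖riemannZeta (p x)‖ := by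
      rw [one_div, inv_pow]
      field_simp
    rw [h4] at h3
    calc ‖iteratedDeriv (J i) riemannZeta (pp x + w i)‖ ^ β i
        ≤ ((J i)! * L ^ J i * ‖riemannZeta (p x)‖) ^ β i :=
          Real.rpow_le_rpow (norm_nonneg _) h3 (hβ i).le
      _ = _ := by
          rw [Real.mul_rpow (by positivity) (norm_nonneg _), Real.mul_rpow (by positivity)
            (by positivity), ← Real.rpow_natCast L (J i), ← Real.rpow_mul hL0.le]
  have hpt : ∀ x : ℝ, ENNReal.ofReal (jd J β w T U x) ≤ ENNReal.ofReal (P * L ^ (∑ i, J i * β i)) *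
      ENNReal.ofReal (‖riemannZeta (p x)‖ ^ b * wt T U x) := by
    intro x
    have hwt := wt_pos T U x
    rw [← ENNReal.ofReal_mul (by positivity)]
    apply ENNReal.ofReal_le_ofReal
    unfold jd
    calc (∏ i, ‖iteratedDeriv (J i) riemannZeta (pp x + w i)‖ ^ β i) * wt T U x
        ≤ (∏ i, (((J i)! : ℝ) ^ β i * L ^ (J i * β i) * ‖riemannZeta (p x)‖ ^ β i)) * wt T U x := by
          gcongr with i
          exact hone x i
      _ = _ := by
          rw [Finset.prod_mul_distrib, Finset.prod_mul_distrib, hb,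
            Real.rpow_sum_of_nonneg (norm_nonneg _) (fun i _ => (hβ i).le),
            Real.rpow_sum_of_nonneg hL0.le (fun i _ => by
              have := (hβ i).le
              positivity)]
          ring
  refine (lintegral_mono hpt).trans ?_
  rw [lintegral_const_mul' _ _ ENNReal.ofReal_ne_top]
  calc ENNReal.ofReal (P * L ^ (∑ i, J i * β i)) *
        ∫⁻ x : ℝ, ENNReal.ofReal (‖riemannZeta (p x)‖ ^ b * wt T U x)
      ≤ ENNReal.ofReal (P * L ^ (∑ i, J i * β i)) * ENNReal.ofReal (C * MB b T U (1 / 2)) := by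
        gcongr
        exact h1 U hAdm p hp
    _ = _ := by
        rw [← ENNReal.ofReal_mul (by positivity)]
        congr 1
        ring

/-- **Lower bound for joint moments of derivatives at shifted points.** -/
theorem der_low {n : ℕ} (hn : 0 < n) (J : Fin n → ℕ) {β : Fin n → ℝ} (hβ : ∀ i, 0 < β i) {A : ℝ}
    (hA : 0 ≤ A) : ∃ c : ℝ, 0 < c ∧ ∀ᶠ T : ℝ in atTop, ∀ U : ℝ, Adm T U → ∀ w : Fin n → ℂ,
      (∀ i, ‖w i‖ ≤ A / Real.log T) →
      ENNReal.ofReal (c * Real.log T ^ (∑ i, J i * β i) * MB (∑ i, β i) T U (1 / 2)) ≤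
        ∫⁻ x : ℝ, ENNReal.ofReal (jd J β w T U x) := by
  have hπ := Real.pi_pos
  have he1 : 1 ≤ Real.exp 1 := Real.one_le_exp (by norm_num)
  have hn' : (1 : ℝ) ≤ n := by exact_mod_cast hn
  have hn0 : (0 : ℝ) < n := by linarith
  have : Nonempty (Fin n) := ⟨⟨0, hn⟩⟩
  set b := ∑ i, β i with hb
  have hb0 : 0 < b := Finset.sum_pos (fun i _ => hβ i) Finset.univ_nonempty
  have hCM0 : 0 ≤ ∑ i, 12 * CM (J i) :=
    Finset.sum_nonneg fun i _ => mul_nonneg (by norm_num) (CM_nonneg _)
  set a := 1 + 4 * A + ∑ i, 12 * CM (J i) with ha'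
  have ha1 : 1 ≤ a := by linarith
  have ha : 0 < a := by linarith
  have haC : ∀ i, 12 * CM (J i) ≤ a := by
    intro i
    have := Finset.single_le_sum (f := fun i => 12 * CM (J i)) (s := Finset.univ)
      (fun i _ => mul_nonneg (by norm_num) (CM_nonneg _)) (Finset.mem_univ i)
    linarith
  set K := 192 * Real.exp 1 * n with hK
  have hK0 : 0 < K := by positivity
  obtain ⟨C₁, hC₁, hcells⟩ := zeta_cells hb0 ha (K := K + 1) (by positivity)
  set E := Real.exp (2 * a + a ^ 2) with hE
  have hE0 : 0 < E := Real.exp_pos _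
  set η := (4 * (E * C₁))⁻¹ ^ b⁻¹ with hη
  have hη0 : 0 < η := by positivity
  have hηb : η ^ b = (4 * (E * C₁))⁻¹ := by
    rw [hη, ← Real.rpow_mul (by positivity), inv_mul_cancel₀ hb0.ne', Real.rpow_one]
  obtain ⟨δ, hδ0, hder⟩ := cell_der hn J hη0 haC ha1 (K := K) le_rfl
  obtain ⟨c₀, hc₀, hcM⟩ := HM_cmp hb0
  have hsm : Tendsto (fun T : ℝ => Real.pi / T ^ 3) atTop (𝓝 0) :=
    (tendsto_pow_atTop (n := 3) (α := ℝ) (by norm_num)).const_div_atTop _
  refine ⟨(2 * E ^ 2 / δ ^ b)⁻¹ * (1 / 2), by positivity, ?_⟩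
  filter_upwards [hcells, hcM (1 / 8) (by norm_num) (by norm_num),
    hsm.eventually (gt_mem_nhds (show 0 < c₀ / 4 by positivity)), eventually_ge_atTop 3,
    Q97.BS.tail ⌈2 * b⌉₊ 3 (180 ^ b) (ϑ := 1 / 16) (by norm_num), ld_ge,
    Real.tendsto_log_atTop.eventually (eventually_ge_atTop (12 + 16 * a)),
    (log_div_tendsto (2 * K * a)).eventually (gt_mem_nhds (show (0 : ℝ) < 1 / 4 by norm_num)),
    (log_div_tendsto A).eventually (gt_mem_nhds (show (0 : ℝ) < 1 / 4 by norm_num))]
    with T h1 h2 h3 hT h4 h5 h6 h7 h8 U h w hw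
  have hT0 : 0 < T := by linarith
  have hL := h.log
  have hL0 : 0 < Real.log T := by linarith
  rw [abs_of_nonneg (by positivity)] at h7
  rw [abs_of_nonneg (by positivity)] at h8
  have hU := h.pos
  have hU1 := h.2.1
  obtain ⟨_, g5⟩ := h2 U h
  set L := Real.log T with hLd
  set M := MB b T U (1 / 2) with hM
  have hM0 : 0 < M := by linarith
  set hh := a / L with hhd
  have hh0 : 0 < hh := by positivity
  have hhs : hh ≤ 1 / 16 := by
    rw [hhd, div_le_iff₀ hL0]
    linarith
  have hUL : U * L ≤ T := by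
    have := h.2.2
    rwa [le_div_iff₀ (by linarith)] at this
  have hUL1 : 1 ≤ U * L := by nlinarith
  have hLUL : L ≤ U * L := by nlinarith
  set Lp := L ^ (∑ i, J i * β i) with hLp
  have hLp0 : 0 < Lp := by positivity
  have hhK : 2 * K * hh = 2 * K * a / L := by rw [hhd]; ring
  have hKK : (K + 1) * hh ≤ 2 * K * hh := by
    have : 1 ≤ K := by rw [hK]; nlinarith
    nlinarith
  -- the maxima
  have hex : ∀ j : ℤ, ∃ p : ℂ, ‖p - pp ((j : ℝ) * hh + hh / 2)‖ ≤ (K + 1) * hh ∧
      ∀ z ∈ closedBall (pp ((j : ℝ) * hh + hh / 2)) ((K + 1) * hh),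
        ‖riemannZeta z‖ ≤ ‖riemannZeta p‖ := by
    intro j
    have hcont : ContinuousOn (fun z => ‖riemannZeta z‖)
        (closedBall (pp ((j : ℝ) * hh + hh / 2)) ((K + 1) * hh)) := by
      refine ((zeta_diff_ball (pp_re ((j : ℝ) * hh + hh / 2)) (le_refl (1 / 4))).continuousOn.mono
        ?_).norm
      exact closedBall_subset_ball (by linarith)
    obtain ⟨p, hp, hmax⟩ := (isCompact_closedBall (pp ((j : ℝ) * hh + hh / 2))
      ((K + 1) * hh)).exists_isMaxOn ⟨_, mem_closedBall_self (by positivity)⟩ hcont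
    refine ⟨p, ?_, fun z hz => hmax hz⟩
    rwa [mem_closedBall, dist_eq_norm] at hp
  choose p hp hpm using hex
  have h9 := h1 U h p hp
  set near : Set ℤ := {j : ℤ | |(j : ℝ) * hh + hh / 2 - T| ≤ 1 / 8 * (U * L)} with hnear
  set s : ℤ → ℝ≥0∞ := near.indicator (fun j : ℤ => ENNReal.ofReal (hh *
    wt T U ((j : ℝ) * hh + hh / 2) * ‖riemannZeta (p j)‖ ^ b)) with hs
  set Ψ : ℝ → ℝ≥0∞ := fun x => ENNReal.ofReal (jd J β w T U x) with hΨ
  have hjc := jd_cont J hβ (w := w) (fun i => lt_of_le_of_lt (hw i) h8) T U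
  set tR : ℝ → ℝ≥0∞ := fun x => ENNReal.ofReal (Q97.BS.tR 3 T x) with htR
  obtain ⟨t1, t2⟩ := Q97.BS.tR_int 3 hT0
  have htn : ∀ y, 0 ≤ Q97.BS.tR 3 T y := fun y => by unfold Q97.BS.tR; positivity
  set Cg : ℝ := 2 * E ^ 2 / δ ^ b * Lp⁻¹ with hCg
  have hCg0 : 0 < Cg := by positivity
  have hcell : ∀ j : ℤ, ∫⁻ x in Ij hh j, ENNReal.ofReal (zd b T U x) ≤
      ENNReal.ofReal (E * η ^ b) * s j + ENNReal.ofReal Cg * (∫⁻ x in Ij hh j, Ψ x) +
        ∫⁻ x in Ij hh j, tR x := by
    intro j
    set u := (j : ℝ) * hh with hu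
    set cj := u + hh / 2 with hcj
    have hvol : volume (Ij hh j) = ENNReal.ofReal hh := by
      unfold Ij
      rw [Real.volume_Ico]
      congr 1
      ring
    have hxc : ∀ x ∈ Icc u (u + hh), |x - cj| ≤ hh / 2 := fun x hx =>
      abs_le.mpr ⟨by linarith [hx.1], by linarith [hx.2]⟩
    by_cases hj : j ∈ near
    · have hj' : |cj - T| ≤ 1 / 8 * (U * L) := hj
      have hsj : s j = ENNReal.ofReal (hh * wt T U cj * ‖riemannZeta (p j)‖ ^ b) := by
        rw [hs, indicator_of_mem hj]
      refine le_trans ?_ le_self_add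
      have hwc := wt_pos T U cj
      set lam := ‖riemannZeta (p j)‖ with hlam
      have hlam0 : 0 ≤ lam := norm_nonneg _
      have hw1 : ∀ x ∈ Icc u (u + hh), wt T U x ≤ E * wt T U cj := by
        intro x hx
        have k1 : |x - cj| ≤ a / L := (hxc x hx).trans (by linarith)
        have k2 := wt_cmp' hU1 hL ha.le (hj'.trans (by linarith)) k1
        refine k2.trans ?_
        gcongr
        rw [hE]
        apply Real.exp_le_exp.mpr
        nlinarith
      have hw2 : ∀ x ∈ Icc u (u + hh), wt T U cj ≤ E * wt T U x := by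
        intro x hx
        have k1 : |x - cj| ≤ a / L := (hxc x hx).trans (by linarith)
        exact wt_cmp hU1 hL ha.le (hj'.trans (by linarith)) k1
      have hxb : ∀ x ∈ Icc u (u + hh), ‖riemannZeta (pp x)‖ ≤ lam := by
        intro x hx
        apply hpm j
        rw [mem_closedBall, dist_eq_norm, pp_sub_norm]
        refine (hxc x hx).trans ?_
        nlinarith
      by_cases hex : ∃ x ∈ Icc u (u + hh), η * lam < ‖riemannZeta (pp x)‖
      · refine le_trans ?_ le_add_self
        have hWv := hder riemannZeta u L lam w hL0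
          ((zeta_diff_ball (pp_re (u + a / L / 2)) (le_refl (1 / 4))).mono (ball_subset_ball (by
            rw [← hhd]
            linarith)))
          (fun z hz => hpm j z hz)
          (fun x hx => by
            by_cases h0 : riemannZeta (pp x) = 0
            · rw [h0, norm_zero, mul_zero]
              exact norm_nonneg _
            have hz0 : 0 < ‖riemannZeta (pp x)‖ := norm_pos_iff.mpr h0
            have k1 : |x - T| ≤ 1 / 4 * T := by
              calc |x - T| = |(x - cj) + (cj - T)| := by ring_nf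
                _ ≤ hh / 2 + 1 / 8 * (U * L) := (abs_add_le _ _).trans (add_le_add (hxc x hx) hj')
                _ ≤ _ := by linarith
            have k2 := h5 x k1 h0
            rw [norm_div, le_div_iff₀ hz0] at k2
            refine le_trans (mul_le_mul_of_nonneg_right ?_ hz0.le) k2
            linarith)
          (fun i => by
            refine (hw i).trans ?_
            have k1 : A ≤ a / 4 := by linarith
            calc A / L ≤ a / 4 / L := by gcongr
              _ = a / L / 4 := by ring)
          hex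
        set W := {x ∈ Ico u (u + hh) |
          ∀ i, δ * L ^ J i * lam < ‖iteratedDeriv (J i) riemannZeta (pp x + w i)‖} with hW
        have hWm : MeasurableSet W := by
          have : W = Ico u (u + hh) ∩ ⋂ i, {x | δ * L ^ J i * lam <
              ‖iteratedDeriv (J i) riemannZeta (pp x + w i)‖} := by
            ext x
            simp [hW]
          rw [this]
          exact measurableSet_Ico.inter (MeasurableSet.iInter fun i =>
            measurableSet_lt measurable_const
              (idz_cont (J i) (lt_of_le_of_lt (hw i) h8)).norm.measurable)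
        have k3 : ENNReal.ofReal (δ ^ b * Lp * lam ^ b * (wt T U cj / E) * (1 / 2 * hh)) ≤
            ∫⁻ x in Ij hh j, Ψ x := by
          calc ENNReal.ofReal (δ ^ b * Lp * lam ^ b * (wt T U cj / E) * (1 / 2 * hh))
              = ENNReal.ofReal (δ ^ b * Lp * lam ^ b * (wt T U cj / E)) *
                ENNReal.ofReal (1 / 2 * hh) := ENNReal.ofReal_mul (by positivity)
            _ ≤ ENNReal.ofReal (δ ^ b * Lp * lam ^ b * (wt T U cj / E)) * volume W := by gcongr
            _ = ∫⁻ _ in W, ENNReal.ofReal (δ ^ b * Lp * lam ^ b * (wt T U cj / E)) :=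
                (setLIntegral_const _ _).symm
            _ ≤ ∫⁻ x in W, Ψ x := by
                refine setLIntegral_mono' hWm fun x hx => ENNReal.ofReal_le_ofReal ?_
                unfold jd
                have k4 : wt T U cj / E ≤ wt T U x := by
                  rw [div_le_iff₀ hE0, mul_comm]
                  exact hw2 x (Ico_subset_Icc_self hx.1)
                have k5 : δ ^ b * Lp * lam ^ b ≤
                    ∏ i, ‖iteratedDeriv (J i) riemannZeta (pp x + w i)‖ ^ β i := by
                  have e1 : δ ^ b * Lp * lam ^ b = ∏ i, (δ * L ^ J i * lam) ^ β i := by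
                    rw [hb, hLp, Real.rpow_sum_of_nonneg hδ0.le (fun i _ => (hβ i).le),
                      Real.rpow_sum_of_nonneg hlam0 (fun i _ => (hβ i).le),
                      Real.rpow_sum_of_nonneg hL0.le (fun i _ => by
                        have := (hβ i).le
                        positivity), ← Finset.prod_mul_distrib, ← Finset.prod_mul_distrib]
                    refine Finset.prod_congr rfl fun i _ => ?_
                    rw [Real.mul_rpow (by positivity) hlam0, Real.mul_rpow hδ0.le (by positivity),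
                      ← Real.rpow_natCast L (J i), ← Real.rpow_mul hL0.le]
                  rw [e1]
                  refine Finset.prod_le_prod (fun i _ => by positivity) fun i _ => ?_
                  exact Real.rpow_le_rpow (by positivity) (hx.2 i).le (hβ i).le
                gcongr
            _ ≤ _ := lintegral_mono_set fun x hx => hx.1
        calc ∫⁻ x in Ij hh j, ENNReal.ofReal (zd b T U x)
            ≤ ∫⁻ _ in Ij hh j, ENNReal.ofReal (lam ^ b * (E * wt T U cj)) := by
              refine setLIntegral_mono' (Ij_meas hh j) fun x hx => ENNReal.ofReal_le_ofReal ?_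
              have hx' := Ico_subset_Icc_self hx
              unfold zd
              have hwx := wt_pos T U x
              have k6 : ‖riemannZeta (pp x)‖ ^ b ≤ lam ^ b :=
                Real.rpow_le_rpow (norm_nonneg _) (hxb x hx') hb0.le
              have k7 := hw1 x hx'
              gcongr
          _ = ENNReal.ofReal Cg *
                ENNReal.ofReal (δ ^ b * Lp * lam ^ b * (wt T U cj / E) * (1 / 2 * hh)) := by
              rw [setLIntegral_const, hvol, ← ENNReal.ofReal_mul (by positivity),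
                ← ENNReal.ofReal_mul (by positivity)]
              congr 1
              have : 0 < δ ^ b := by positivity
              rw [hCg]
              field_simp
          _ ≤ _ := by gcongr
      · push Not at hex
        refine le_trans ?_ le_self_add
        rw [hsj, ← ENNReal.ofReal_mul (by positivity)]
        calc ∫⁻ x in Ij hh j, ENNReal.ofReal (zd b T U x)
            ≤ ∫⁻ _ in Ij hh j, ENNReal.ofReal ((η * lam) ^ b * (E * wt T U cj)) := by
              refine setLIntegral_mono' (Ij_meas hh j) fun x hx => ENNReal.ofReal_le_ofReal ?_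
              have hx' := Ico_subset_Icc_self hx
              unfold zd
              have hwx := wt_pos T U x
              have k6 : ‖riemannZeta (pp x)‖ ^ b ≤ (η * lam) ^ b :=
                Real.rpow_le_rpow (norm_nonneg _) (hex x hx') hb0.le
              have k7 := hw1 x hx'
              gcongr
          _ = _ := by
              rw [setLIntegral_const, hvol, ← ENNReal.ofReal_mul (by positivity),
                Real.mul_rpow hη0.le hlam0]
              congr 1
              ring
    · refine le_trans ?_ le_add_self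
      have hj' : 1 / 8 * (U * L) < |cj - T| := by
        rw [hnear, mem_ofPred_eq, not_le] at hj
        exact hj
      refine setLIntegral_mono' (Ij_meas hh j) fun x hx => ENNReal.ofReal_le_ofReal ?_
      have hx' := Ico_subset_Icc_self hx
      have k1 : 1 / 16 * (U * L) < |x - T| := by
        have k2 : |cj - T| ≤ |x - T| + hh / 2 := by
          calc |cj - T| = |(x - T) - (x - cj)| := by ring_nf
            _ ≤ _ := (abs_sub _ _).trans (add_le_add le_rfl (hxc x hx'))
        have k3 : hh / 2 ≤ 1 / 16 * (U * L) := by linarith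
        linarith
      refine le_trans ?_ (h4 U h x k1)
      have := zeta_rpow_bd hb0 (x := 1 / 2) (by norm_num) (by norm_num) x
      have hwx := wt_pos T U x
      unfold zd pp
      gcongr
  -- the sum over the intervals
  have hsum : ENNReal.ofReal M ≤ ENNReal.ofReal (E * η ^ b) * (∑' j : ℤ, s j) +
      ENNReal.ofReal Cg * (∫⁻ x, Ψ x) + ∫⁻ x, tR x := by
    rw [← zd_lint hb0 h]
    calc ∫⁻ x, ENNReal.ofReal (zd b T U x)
        = ∑' j : ℤ, ∫⁻ x in Ij hh j, ENNReal.ofReal (zd b T U x) := lint_grid hh0 _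
      _ ≤ ∑' j : ℤ, (ENNReal.ofReal (E * η ^ b) * s j + ENNReal.ofReal Cg *
          (∫⁻ x in Ij hh j, Ψ x) + ∫⁻ x in Ij hh j, tR x) := ENNReal.tsum_le_tsum hcell
      _ = _ := by
          rw [ENNReal.tsum_add, ENNReal.tsum_add, ENNReal.tsum_mul_left, ENNReal.tsum_mul_left,
            ← lint_grid hh0, ← lint_grid hh0]
  have htR' : ∫⁻ x, tR x ≤ ENNReal.ofReal (M / 4) := by
    rw [htR, ← ofReal_integral_eq_lintegral_ofReal t1 (Eventually.of_forall htn)]
    apply ENNReal.ofReal_le_ofReal
    linarith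
  have hsj' : ENNReal.ofReal (E * η ^ b) * (∑' j : ℤ, s j) ≤ ENNReal.ofReal (M / 4) := by
    calc ENNReal.ofReal (E * η ^ b) * (∑' j : ℤ, s j)
        ≤ ENNReal.ofReal (E * η ^ b) * ENNReal.ofReal (C₁ * M) := by gcongr
      _ = ENNReal.ofReal (M / 4) := by
          rw [← ENNReal.ofReal_mul (by positivity), hηb]
          congr 1
          field_simp
  have h10 : ENNReal.ofReal (M / 2) ≤ ENNReal.ofReal Cg * ∫⁻ x, Ψ x := by
    have e1 : ENNReal.ofReal M = ENNReal.ofReal (M / 2) + ENNReal.ofReal (M / 2) := by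
      rw [← ENNReal.ofReal_add (by positivity) (by positivity)]
      congr 1
      ring
    have e2 : ENNReal.ofReal (M / 2) + ENNReal.ofReal (M / 2) ≤
        ENNReal.ofReal Cg * (∫⁻ x, Ψ x) + ENNReal.ofReal (M / 2) := by
      rw [← e1]
      calc ENNReal.ofReal M ≤ ENNReal.ofReal (E * η ^ b) * (∑' j : ℤ, s j) +
            ENNReal.ofReal Cg * (∫⁻ x, Ψ x) + ∫⁻ x, tR x := hsum
        _ ≤ ENNReal.ofReal (M / 4) + ENNReal.ofReal Cg * (∫⁻ x, Ψ x) + ENNReal.ofReal (M / 4) := by
            gcongr
        _ = _ := by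
            have e3 : ENNReal.ofReal (M / 2) = ENNReal.ofReal (M / 4) + ENNReal.ofReal (M / 4) := by
              rw [← ENNReal.ofReal_add (by positivity) (by positivity)]
              congr 1
              ring
            rw [e3]
            ring
    exact (ENNReal.add_le_add_iff_right ENNReal.ofReal_ne_top).mp e2
  calc ENNReal.ofReal ((2 * E ^ 2 / δ ^ b)⁻¹ * (1 / 2) * Lp * M)
      = ENNReal.ofReal Cg⁻¹ * ENNReal.ofReal (M / 2) := by
        rw [← ENNReal.ofReal_mul (by positivity)]
        congr 1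
        rw [hCg]
        field_simp
    _ ≤ ENNReal.ofReal Cg⁻¹ * (ENNReal.ofReal Cg * ∫⁻ x, Ψ x) := by gcongr
    _ = ∫⁻ x, Ψ x := by
        rw [← mul_assoc, ← ENNReal.ofReal_mul (by positivity), inv_mul_cancel₀ hCg0.ne',
          ENNReal.ofReal_one, one_mul]

end

end Q97.RD
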