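import Pool.Agent.Q97.RD.Rq
import Pool.Agent.H370R2.Local

set_option autoImplicit false

open Filter MeasureTheory Metric Set Topology Complex
open scoped ENNReal

namespace Q97.RD

open Q97.RB Q97.MM

noncomputable section

/-- The logarithmic derivative at the centre of a disc. -/
theorem landau_c {F : ℂ → ℂ} (hF : Differentiable ℂ F) {c : ℂ} (hc : F c ≠ 0) {ρ : ℝ} (hρ : 0 < ρ)
    {M : ℝ} (hM : ∀ z ∈ closedBall c (2 * ρ), ‖F z‖ ≤ M) {δ : ℝ} (hδ : 0 < δ)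
    (hz : ∀ u ∈ closedBall c ρ, F u = 0 → δ ≤ ‖c - u‖) :
    ‖deriv F c / F c‖ ≤ Real.log (M / ‖F c‖) / (Real.log 2 * δ) +
      8 * (Real.log (M / ‖F c‖) + 1) / ρ := by
  have hFc : 0 < ‖F c‖ := norm_pos_iff.mpr hc
  set κ : ℂ := ((‖F c‖⁻¹ : ℝ) : ℂ) with hκ
  have hκn : ‖κ‖ = ‖F c‖⁻¹ := by
    rw [hκ, Complex.norm_real, Real.norm_eq_abs, abs_of_pos (by positivity)]
  have hκ0 : κ ≠ 0 := by
    rw [← norm_pos_iff, hκn]
    positivity
  have hFM : ‖F c‖ ≤ M := hM c (mem_closedBall_self (by positivity))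
  have hM1 : 1 ≤ M / ‖F c‖ := by
    rw [le_div_iff₀ hFc]
    linarith
  have hn1 : ‖κ * F c‖ = 1 := by
    rw [norm_mul, hκn, inv_mul_cancel₀ hFc.ne']
  have hd : deriv (fun z => κ * F z) c = κ * deriv F c := deriv_const_mul _ (hF c)
  have h := H370.Loc.landau (f := fun z => κ * F z) (c := c) (r := ρ) (r1 := ρ / 2) (r2 := ρ / 4)
    (R := 2 * ρ) (M := M / ‖F c‖) (by positivity) (by linarith) (by linarith) (by linarith) le_rfl
    hM1 (by simp only [hn1]; exact hM1)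
    (fun z _ => (Complex.analyticOnNhd_univ_iff_differentiable.mpr
      (hF.const_mul κ)) z (mem_univ z))
    (mul_ne_zero hκ0 hc) (fun z hz => by
      simp only [norm_mul, hκn]
      rw [inv_mul_le_iff₀ hFc, mul_div_cancel₀ _ hFc.ne']
      exact hM z hz) c (mem_closedBall_self (by positivity)) δ hδ (fun u hu h0 => by
      apply hz u hu
      exact (mul_eq_zero.mp h0).resolve_left hκ0)
  have h2 := h.2
  simp only [hn1, div_one, hd] at h2
  have e1 : κ * deriv F c / (κ * F c) = deriv F c / F c := by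
    field_simp
  have e2 : 2 * ρ / ρ = 2 := by field_simp
  have e3 : ρ / (2 * ρ - ρ) = 1 := by
    rw [show 2 * ρ - ρ = ρ by ring, div_self hρ.ne']
  rw [e1, e2, e3, Real.log_one, mul_zero, add_zero] at h2
  refine h2.trans (le_of_eq ?_)
  have h3 : ρ - ρ / 2 ≠ 0 := by
    have : 0 < ρ - ρ / 2 := by linarith
    exact this.ne'
  have h4 : ρ / 2 - ρ / 4 ≠ 0 := by
    have : 0 < ρ / 2 - ρ / 4 := by linarith
    exact this.ne'
  have hl := Real.log_pos (show (1 : ℝ) < 2 by norm_num)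
  rw [show ρ - ρ / 2 = ρ / 2 by ring, show ρ / 2 - ρ / 4 = ρ / 4 by ring]
  field_simp
  ring

theorem pow_exp {q η : ℝ} (hq : 0 < q) (hη : 0 < η) : ∃ C : ℝ, 0 < C ∧ ∀ x : ℝ, 0 ≤ x →
    (x + 1) ^ q ≤ C * Real.exp (η * x) := by
  set a := η / q with ha
  have ha0 : 0 < a := by positivity
  refine ⟨(max 1 a⁻¹) ^ q, by positivity, fun x hx => ?_⟩
  have h1 : x + 1 ≤ max 1 a⁻¹ * Real.exp (a * x) := by
    have h2 : a * x + 1 ≤ Real.exp (a * x) := Real.add_one_le_exp _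
    rcases le_total 1 a⁻¹ with h3 | h3
    · rw [max_eq_right h3]
      calc x + 1 ≤ x + a⁻¹ := by linarith
        _ = a⁻¹ * (a * x + 1) := by field_simp
        _ ≤ _ := by gcongr
    · rw [max_eq_left h3, one_mul]
      have h4 : 1 ≤ a := by
        rw [← inv_inv a]
        exact (one_le_inv₀ (by positivity)).mpr h3
      nlinarith
  have hm : 0 ≤ max 1 a⁻¹ := le_max_of_le_left zero_le_one
  calc (x + 1) ^ q ≤ (max 1 a⁻¹ * Real.exp (a * x)) ^ q :=
        Real.rpow_le_rpow (by linarith) h1 hq.le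
    _ = (max 1 a⁻¹) ^ q * Real.exp (η * x) := by
        rw [Real.mul_rpow hm (Real.exp_pos _).le, ← Real.exp_mul]
        congr 2
        rw [ha]
        field_simp

/-- the pointwise bound: no zeros at distance less than `δ ≤ ρ` -/
theorem ld_point {β q η : ℝ} (hβ : 0 < β) (hq : 0 < q) (hη : 0 < η) (hηβ : η < β) :
    ∃ C : ℝ, 0 < C ∧ ∀ (F : ℂ → ℂ) (c : ℂ) (ρ M δ x : ℝ), Differentiable ℂ F → 0 < ρ → 0 < δ →
      δ ≤ ρ → (∀ z ∈ closedBall c (2 * ρ), ‖F z‖ ≤ M) →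
      (∀ u ∈ closedBall c ρ, F u = 0 → δ ≤ ‖c - u‖) → 0 < x → x ≤ 1 →
      ‖F c‖ ≤ x * M →
      ‖deriv F c / F c‖ ^ q * ‖F c‖ ^ β ≤ C * δ⁻¹ ^ q * x ^ (β - η) * M ^ β := by
  obtain ⟨C, hC, h⟩ := pow_exp hq hη
  refine ⟨11 ^ q * C, by positivity, fun F c ρ M δ x hF hρ hδ hδρ hM hz hx hx1 hxM => ?_⟩
  by_cases hc : F c = 0
  · rw [hc, norm_zero, Real.zero_rpow hβ.ne', mul_zero]
    have hM0 : 0 ≤ M := (norm_nonneg _).trans (hM c (mem_closedBall_self (by positivity)))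
    positivity
  have hFc : 0 < ‖F c‖ := norm_pos_iff.mpr hc
  have hFM : ‖F c‖ ≤ M := hM c (mem_closedBall_self (by positivity))
  have hM0 : 0 < M := hFc.trans_le hFM
  set Λ := Real.log (M / ‖F c‖) with hΛ
  have hM1 : 1 ≤ M / ‖F c‖ := by
    rw [le_div_iff₀ hFc]
    linarith
  have hΛ0 : 0 ≤ Λ := Real.log_nonneg hM1
  have h1 := landau_c hF hc hρ hM hδ hz
  rw [← hΛ] at h1
  have hl2 : (2 : ℝ) / 3 ≤ Real.log 2 := by
    have := Real.log_two_gt_d9
    linarith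
  have h2 : ‖deriv F c / F c‖ ≤ 11 * δ⁻¹ * (Λ + 1) := by
    have h3 : Λ / (Real.log 2 * δ) ≤ 3 / 2 * δ⁻¹ * (Λ + 1) := by
      rw [div_le_iff₀ (by positivity)]
      have : 3 / 2 * δ⁻¹ * (Λ + 1) * (Real.log 2 * δ) = 3 / 2 * (Λ + 1) * Real.log 2 := by
        field_simp
      rw [this]
      nlinarith
    have h4 : 8 * (Λ + 1) / ρ ≤ 8 * δ⁻¹ * (Λ + 1) := by
      have : 1 / ρ ≤ 1 / δ := one_div_le_one_div_of_le hδ hδρ
      rw [one_div, one_div] at this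
      calc 8 * (Λ + 1) / ρ = 8 * (Λ + 1) * ρ⁻¹ := by rw [div_eq_mul_inv]
        _ ≤ 8 * (Λ + 1) * δ⁻¹ := by gcongr
        _ = _ := by ring
    have h5 : 0 ≤ δ⁻¹ * (Λ + 1) := by positivity
    nlinarith
  have h6 : ‖F c‖ = M * Real.exp (-Λ) := by
    rw [hΛ, Real.exp_neg, Real.exp_log (by positivity)]
    field_simp
  have h7 : Real.exp (-Λ) ≤ x := by
    rw [h6] at hxM
    rw [mul_comm x M] at hxM
    exact le_of_mul_le_mul_left hxM hM0
  have h8 : Real.exp (-(β * Λ)) = Real.exp (-(η * Λ)) * Real.exp (-Λ) ^ (β - η) := by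
    rw [← Real.exp_mul, ← Real.exp_add]
    congr 1
    ring
  have h9 : ‖F c‖ ^ β = M ^ β * Real.exp (-(β * Λ)) := by
    rw [h6, Real.mul_rpow hM0.le (Real.exp_pos _).le, ← Real.exp_mul]
    congr 2
    ring
  calc ‖deriv F c / F c‖ ^ q * ‖F c‖ ^ β
      ≤ (11 * δ⁻¹ * (Λ + 1)) ^ q * (M ^ β * (Real.exp (-(η * Λ)) * Real.exp (-Λ) ^ (β - η))) := by
        rw [h9, h8]
        gcongr
    _ = 11 ^ q * δ⁻¹ ^ q * ((Λ + 1) ^ q * Real.exp (-(η * Λ))) * Real.exp (-Λ) ^ (β - η) *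
          M ^ β := by
        rw [Real.mul_rpow (by positivity) (by positivity), Real.mul_rpow (by positivity)
          (by positivity)]
        ring
    _ ≤ 11 ^ q * δ⁻¹ ^ q * C * x ^ (β - η) * M ^ β := by
        have h10 : (Λ + 1) ^ q * Real.exp (-(η * Λ)) ≤ C := by
          rw [Real.exp_neg, ← div_eq_mul_inv, div_le_iff₀ (Real.exp_pos _)]
          exact h Λ hΛ0
        have h11 : Real.exp (-Λ) ^ (β - η) ≤ x ^ (β - η) :=
          Real.rpow_le_rpow (Real.exp_pos _).le h7 (by linarith)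
        gcongr
    _ = _ := by ring

end

end Q97.RD
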