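import Pool.Agent.Q97.RD.Ld

set_option autoImplicit false

open Filter MeasureTheory Metric Set Topology Complex
open scoped ENNReal

namespace Q97.RD

open Q97.RB Q97.MM

noncomputable section

/-- The entire function far from `T`. -/
theorem far_disc {β : ℝ} (hβ : 0 < β) (D : ℕ) {e : ℝ} (he : 0 < e) : ∀ᶠ T : ℝ in atTop,
    ∀ U : ℝ, Adm T U → ∀ (y : ℝ) (z : ℂ), ‖z - pp y‖ ≤ 1 / 8 →
      e * (U * Real.log T) < |y - T| → ‖FB β T U z‖ ^ β ≤ 4 * Q97.BS.tR D T y := by
  have he2 : 0 < e / 2 := by positivity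
  filter_upwards [Q97.BS.tail ⌈2 * β⌉₊ D (Real.exp 1 * 45 ^ β) he2,
    Real.tendsto_log_atTop.eventually (eventually_ge_atTop (1 / (4 * e))), eventually_ge_atTop 3]
    with T h1 h2 hT U h y z hz hy
  have hT0 : 0 < T := by linarith
  have hU1 := h.2.1
  have hU : 0 < U := by linarith
  have e1 : z = (z.re : ℂ) + z.im * I := (Complex.re_add_im z).symm
  have h5 := (Complex.abs_re_le_norm (z - pp y)).trans hz
  have h6 := (Complex.abs_im_le_norm (z - pp y)).trans hz
  rw [Complex.sub_re, pp_re] at h5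
  rw [Complex.sub_im, pp_im] at h6
  have a0' := abs_le.mp h5
  have a1 : |y - T| ≤ |z.im - T| + 1 / 8 := by
    calc |y - T| = |(z.im - T) - (z.im - y)| := by ring_nf
      _ ≤ |z.im - T| + |z.im - y| := abs_sub _ _
      _ ≤ _ := by linarith
  have a2 : 1 / 8 ≤ e / 2 * (U * Real.log T) := by
    have h3 : 1 / (4 * e) ≤ U * Real.log T := by
      have := h.log
      nlinarith
    calc (1 : ℝ) / 8 = e / 2 * (1 / (4 * e)) := by field_simp; norm_num
      _ ≤ _ := by gcongr
  have a3 : e / 2 * (U * Real.log T) < |z.im - T| := by linarith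
  have h7 := h1 U h z.im a3
  have h8 := Z1_rpow_bd hβ (x := z.re) (by linarith [a0'.1]) (by linarith [a0'.2]) z.im
  have hw := wt_pos T U z.im
  have h9 : (z.re - 1 / 2) ^ 2 / U ^ 2 ≤ 1 := by
    rw [div_le_one (by positivity)]
    have : (z.re - 1 / 2) ^ 2 ≤ 1 := by
      rw [← sq_abs]
      nlinarith [abs_nonneg (z.re - 1 / 2)]
    nlinarith
  have h10 : ‖FB β T U z‖ ^ β ≤ Q97.BS.tR D T z.im := by
    rw [e1, FB_pow hβ hU]
    rw [e1] at h8
    simp only [Complex.add_re, Complex.ofReal_re, Complex.mul_re, Complex.I_re, mul_zero,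
      Complex.ofReal_im, Complex.I_im, mul_one, sub_self, add_zero, Complex.add_im,
      Complex.mul_im, zero_add] at h8 ⊢
    refine le_trans ?_ h7
    calc Real.exp ((z.re - 1 / 2) ^ 2 / U ^ 2) * (‖Z1 (z.re + z.im * I)‖ ^ β * wt T U z.im)
        ≤ Real.exp 1 * (45 ^ β * (1 + |z.im|) ^ ⌈2 * β⌉₊ * wt T U z.im) := by gcongr
      _ = _ := by ring
  refine h10.trans ?_
  have hy0 := abs_nonneg (z.im - T)
  have hy1 := abs_nonneg (y - T)
  unfold Q97.BS.tR
  rw [mul_one_div, div_le_div_iff₀ (by positivity) (by positivity)]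
  have a4 : 1 + |y - T| ≤ 2 * (1 + |z.im - T|) := by linarith
  calc 1 * (T ^ D * (1 + |y - T|) ^ 2) ≤ 1 * (T ^ D * (2 * (1 + |z.im - T|)) ^ 2) := by gcongr
    _ = _ := by ring

/-- The maximal function with the factor which compares `ζ` with the entire function. -/
theorem maxDt {β : ℝ} (hβ : 0 < β) {R : ℝ} (hR : 0 ≤ R) {e : ℝ} (he0 : 0 < e) (he : e < 1 / 4) :
    ∃ C : ℝ, 0 < C ∧ ∀ᶠ T : ℝ in atTop, ∀ U : ℝ, Adm T U → ∀ P : ℝ → ℂ,
      (∀ t, ‖P t - pp t‖ ≤ R / Real.log T) →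
      ∫⁻ t : ℝ, ENNReal.ofReal (Dt β T e t * ‖FB β T U (P t)‖ ^ β) ≤
        ENNReal.ofReal (C * MB β T U (1 / 2)) := by
  obtain ⟨c, hc, hcM⟩ := HM_cmp hβ
  set K : ℝ := (1 + R / 1) ^ 2 * Real.exp (β * (R + 1)) + 1 with hK
  have hK0 : 0 < K := by positivity
  have c2 : 0 < (1 - e) ^ β := Real.rpow_pos_of_pos (by linarith) _
  have c3 : 0 < 1 - 2 * e := by linarith
  have hsm : Tendsto (fun T : ℝ => Real.pi / T ^ 3) atTop (𝓝 0) :=
    (tendsto_pow_atTop (n := 3) (α := ℝ) (by norm_num)).const_div_atTop _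
  refine ⟨K / ((1 - e) ^ β * (1 - 2 * e)) + 4 ^ β * 4, by positivity, ?_⟩
  filter_upwards [maximal_FB hβ hR one_pos one_pos, hcM e he0 he,
    far_disc hβ 3 (e := 3 * e / 4) (by positivity), hsm.eventually (gt_mem_nhds hc),
    (log_div_tendsto R).eventually (gt_mem_nhds (show (0 : ℝ) < 1 / 8 by norm_num)),
    eventually_ge_atTop 3] with T h1 h2 h3 h4 h5 hT U h P hP
  have hT0 : 0 < T := by linarith
  have hL := h.log
  have hL0 : 0 < Real.log T := by linarith
  rw [abs_of_nonneg (by positivity)] at h5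
  obtain ⟨g1, g5⟩ := h2 U h
  have h6 := h1 U h P hP
  set H := HB β T U (1 / 2) with hH
  set M := MB β T U (1 / 2) with hM
  have hH0 : 0 ≤ H := HB_nonneg _ _ _ _
  have hM0 : 0 < M := by linarith
  have hUL : U * Real.log T ≤ T := by
    have := h.2.2
    rwa [le_div_iff₀ (by linarith)] at this
  set D : ℝ := ((1 - e) * T) ^ β with hD
  have hD0 : 0 < D := by
    have : 0 < (1 - e) * T := mul_pos (by linarith) hT0
    positivity
  obtain ⟨t1, t2⟩ := Q97.BS.tR_int 3 hT0
  have htm : Measurable (fun y => ENNReal.ofReal (4 ^ β * 4) * ENNReal.ofReal (Q97.BS.tR 3 T y)) := by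
    unfold Q97.BS.tR
    fun_prop
  have htn : ∀ y, 0 ≤ Q97.BS.tR 3 T y := fun y => by unfold Q97.BS.tR; positivity
  have hpt : ∀ t : ℝ, ENNReal.ofReal (Dt β T e t * ‖FB β T U (P t)‖ ^ β) ≤
      ENNReal.ofReal D⁻¹ * ENNReal.ofReal (‖FB β T U (P t)‖ ^ β) +
        ENNReal.ofReal (4 ^ β * 4) * ENNReal.ofReal (Q97.BS.tR 3 T t) := by
    intro t
    unfold Dt
    split_ifs with hy
    · refine le_trans (le_of_eq ?_) le_self_add
      rw [ENNReal.ofReal_mul (by positivity)]
    · push Not at hy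
      refine le_trans ?_ le_add_self
      rw [← ENNReal.ofReal_mul (by positivity)]
      apply ENNReal.ofReal_le_ofReal
      have hy2 : 3 * e / 4 * (U * Real.log T) < |t - T| := by
        refine lt_of_le_of_lt ?_ hy
        gcongr
      have := h3 U h t (P t) ((hP t).trans h5.le) hy2
      calc 4 ^ β * ‖FB β T U (P t)‖ ^ β ≤ 4 ^ β * (4 * Q97.BS.tR 3 T t) := by gcongr
        _ = _ := by ring
  refine (lintegral_mono hpt).trans ?_
  rw [lintegral_add_right _ htm, lintegral_const_mul' _ _ ENNReal.ofReal_ne_top,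
    lintegral_const_mul' _ _ ENNReal.ofReal_ne_top,
    ← ofReal_integral_eq_lintegral_ofReal t1 (Eventually.of_forall htn)]
  calc ENNReal.ofReal D⁻¹ * (∫⁻ t : ℝ, ENNReal.ofReal (‖FB β T U (P t)‖ ^ β)) +
        ENNReal.ofReal (4 ^ β * 4) * ENNReal.ofReal (∫ t : ℝ, Q97.BS.tR 3 T t)
      ≤ ENNReal.ofReal D⁻¹ * ENNReal.ofReal (K * H) + ENNReal.ofReal (4 ^ β * 4) *
        ENNReal.ofReal M := by
        gcongr
        exact t2.trans (h4.le.trans g5)
    _ ≤ ENNReal.ofReal (K / ((1 - e) ^ β * (1 - 2 * e)) * M) +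
        ENNReal.ofReal (4 ^ β * 4 * M) := by
        rw [← ENNReal.ofReal_mul (by positivity), ← ENNReal.ofReal_mul (by positivity)]
        refine add_le_add (ENNReal.ofReal_le_ofReal ?_) le_rfl
        have c1 : (1 - e) ^ β * T ^ β = D := by
          rw [hD, Real.mul_rpow (by linarith) hT0.le]
        rw [← c1, inv_mul_le_iff₀ (by positivity)]
        have c5 : (1 - e) ^ β * T ^ β * (K / ((1 - e) ^ β * (1 - 2 * e)) * M) =
            K / (1 - 2 * e) * (T ^ β * M) := by
          field_simp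
        rw [c5]
        calc K * H = K / (1 - 2 * e) * (H * (1 - 2 * e)) := by
              rw [div_mul_eq_mul_div, eq_div_iff c3.ne']
              ring
          _ ≤ _ := by gcongr
    _ = _ := by
        rw [← ENNReal.ofReal_add (by positivity) (by positivity)]
        congr 1
        ring

/-- measurability of the maximal function -/
theorem max_meas {F : ℂ → ℂ} (hF : Differentiable ℂ F) {r : ℝ} {P : ℝ → ℂ}
    (h1 : ∀ t, ‖P t - pp t‖ ≤ r) (h2 : ∀ t, ∀ z ∈ closedBall (pp t) r, ‖F z‖ ≤ ‖F (P t)‖) :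
    Measurable (fun t => ‖F (P t)‖) := by
  apply measurable_of_Ioi
  intro a
  have hset : (fun t => ‖F (P t)‖) ⁻¹' Ioi a =
      ⋃ u ∈ closedBall (0 : ℂ) r, {t : ℝ | a < ‖F (pp t + u)‖} := by
    ext t
    simp only [mem_preimage, mem_Ioi, mem_iUnion, mem_ofPred_eq, exists_prop]
    constructor
    · intro h
      refine ⟨P t - pp t, ?_, ?_⟩
      · rw [mem_closedBall, dist_zero_right]
        exact h1 t
      · rwa [add_sub_cancel]
    · rintro ⟨u, hu, h⟩
      refine lt_of_lt_of_le h (h2 t _ ?_)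
      rw [mem_closedBall, dist_zero_right] at hu
      rw [mem_closedBall, dist_eq_norm, add_sub_cancel_left]
      exact hu
  rw [hset]
  apply IsOpen.measurableSet
  refine isOpen_biUnion fun u _ => ?_
  have hc : Continuous (fun t : ℝ => pp t + u) := by
    unfold pp
    fun_prop
  exact isOpen_lt continuous_const (hF.continuous.comp hc).norm

theorem near_meas (c : ℝ) : MeasurableSet {t : ℝ | ∃ ρ, riemannZeta ρ = 0 ∧ ‖ρ - pp t‖ ≤ c} := by
  have hset : {t : ℝ | ∃ ρ, riemannZeta ρ = 0 ∧ ‖ρ - pp t‖ ≤ c} =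
      ⋃ ρ ∈ {ρ : ℂ | riemannZeta ρ = 0}, {t : ℝ | ‖ρ - pp t‖ ≤ c} := by
    ext t
    simp
  rw [hset]
  refine MeasurableSet.biUnion zeros_countable fun ρ _ => ?_
  apply IsClosed.measurableSet
  have hc : Continuous (fun t : ℝ => ρ - pp t) := by
    unfold pp
    fun_prop
  exact isClosed_le hc.norm continuous_const

end

end Q97.RD
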