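import Pool.Agent.Q97.RD.Lm

set_option autoImplicit false

open Filter MeasureTheory Metric Set Topology Complex
open scoped ENNReal

namespace Q97.RD

open Q97.RB Q97.MM

noncomputable section

theorem geo_sum {a b : ℝ} (ha : 0 ≤ a) (hb : 0 ≤ b) (hb1 : b < 1) :
    ∑' j : ℕ, ENNReal.ofReal (a * b ^ j) = ENNReal.ofReal (a / (1 - b)) := by
  have hs : Summable (fun j : ℕ => a * b ^ j) :=
    (summable_geometric_of_lt_one hb hb1).mul_left a
  rw [← ENNReal.ofReal_tsum_of_nonneg (fun j => by positivity) hs, tsum_mul_left,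
    tsum_geometric_of_lt_one hb hb1, div_eq_mul_inv]

/-- the set of the points near the zeros -/
def NS (c : ℝ) : Set ℝ := {t : ℝ | ∃ ρ, riemannZeta ρ = 0 ∧ ‖ρ - pp t‖ ≤ c}

theorem FB_zero_iff (β T U : ℝ) {u : ℂ} : FB β T U u = 0 ↔ riemannZeta u = 0 := by
  constructor
  · intro h
    by_contra hcon
    have h1 : mult u = 0 := mult_eq_zero hcon
    have h2 := ord_FB β T U u
    rw [h1] at h2
    have han : AnalyticAt ℂ (FB β T U) u :=
      (Complex.analyticOnNhd_univ_iff_differentiable.mpr (FB_diff β T U)) u (mem_univ u)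
    have h3 : analyticOrderAt (FB β T U) u = 0 ∨ analyticOrderAt (FB β T U) u = ⊤ := by
      rcases eq_or_ne (analyticOrderAt (FB β T U) u) ⊤ with h4 | h4
      · exact Or.inr h4
      · left
        have := Nat.cast_analyticOrderNatAt h4
        rw [h2] at this
        simpa using this.symm
    rcases h3 with h3 | h3
    · exact (han.analyticOrderAt_eq_zero.mp h3) h
    · have h4 : analyticOrderAt (FB β T U) 1 = ⊤ := by
        by_contra h5
        exact ((Complex.analyticOnNhd_univ_iff_differentiable.mpr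
          (FB_diff β T U)).analyticOrderAt_ne_top_of_isPreconnected isPreconnected_univ (mem_univ 1)
          (mem_univ u) h5) h3
      have h5 : AnalyticAt ℂ (FB β T U) 1 :=
        (Complex.analyticOnNhd_univ_iff_differentiable.mpr (FB_diff β T U)) 1 (mem_univ 1)
      have h6 := h5.analyticOrderAt_eq_zero.mpr (FB_ne β T U)
      rw [h6] at h4
      exact absurd h4 (by simp)
  · exact FB_zero β T U

/-- The moments of the logarithmic derivative of the entire function. -/
theorem ldF {β q : ℝ} (hβ : 0 < β) (hq : 0 < q) (hqβ : q < 1 + β) : ∃ e C : ℝ, 0 < e ∧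
    e < 1 / 4 ∧ 0 < C ∧ ∀ᶠ T : ℝ in atTop, ∀ U : ℝ, Adm T U →
      ∫⁻ t : ℝ, ENNReal.ofReal (Dt β T e t *
        (‖deriv (FB β T U) (pp t) / FB β T U (pp t)‖ ^ q * ‖FB β T U (pp t)‖ ^ β)) ≤
      ENNReal.ofReal (C * Real.log T ^ q * MB β T U (1 / 2)) := by
  obtain ⟨e, he0, he2, hnear⟩ := near_mass hβ (c₀ := 1) (R := 2) (R' := 1) one_pos two_pos one_pos
    one_pos
  obtain ⟨C₂, hC₂, hmax⟩ := maxDt hβ (R := 2) (by norm_num) he0 he2
  set η : ℝ := min β (1 + β - q) / 2 with hη
  have hm : 0 < min β (1 + β - q) := lt_min hβ (by linarith)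
  have hη0 : 0 < η := by positivity
  have hηβ : η < β := by
    have := min_le_left β (1 + β - q)
    rw [hη]
    linarith
  have hηq : η ≤ (1 + β - q) / 2 := by
    have := min_le_right β (1 + β - q)
    rw [hη]
    linarith
  obtain ⟨C₁, hC₁, hpoint⟩ := ld_point hβ hq hη0 hηβ
  set K : ℝ := KZ β 1 (2 + 1) 1 + 1 with hK
  have hK0 : 0 < K := by
    have : 0 ≤ KZ β 1 (2 + 1) 1 := by
      unfold KZ
      have hπ := Real.pi_pos
      positivity
    positivity
  -- the exponent
  set κ : ℝ := q - β + η with hκ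
  have hκ1 : κ < 1 := by rw [hκ]; linarith
  set b : ℝ := (1 / 2) ^ (1 - κ) with hb
  have hb0 : 0 < b := by positivity
  have hb1 : b < 1 := Real.rpow_lt_one (by norm_num) (by norm_num) (by linarith)
  refine ⟨e, C₁ * C₂ + C₁ * (2 : ℝ) ^ κ * 2 * K / (1 - b), he0, he2, by
    have : 0 < 1 - b := by linarith
    positivity, ?_⟩
  filter_upwards [hnear, hmax, eventually_ge_atTop 3] with T h1 h2 hT U h
  have hT0 : 0 < T := by linarith
  have hL := h.log
  have hL0 : 0 < Real.log T := by linarith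
  set L := Real.log T with hLd
  set F := FB β T U with hF
  have hFd : Differentiable ℂ F := FB_diff β T U
  choose P hP hPm using fun t : ℝ => max_ball hFd (by positivity : 0 ≤ 2 / L) (pp t)
  have hPM : Measurable (fun t => ‖F (P t)‖) := max_meas hFd hP hPm
  set G : ℝ → ℝ≥0∞ := fun t => ENNReal.ofReal (Dt β T e t * ‖F (P t)‖ ^ β) with hG
  have hGm : Measurable G :=
    ((Dt_meas β T e).mul (hPM.pow_const β)).ennreal_ofReal
  set M := MB β T U (1 / 2) with hM
  have hM0 : 0 ≤ M := MB_nonneg _ _ _ _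
  have hnj : ∀ j : ℕ, ∫⁻ t : ℝ, (NS ((1 / 2) ^ j / L)).indicator G t ≤
      ENNReal.ofReal (2 * (1 / 2) ^ j * K * M) := by
    intro j
    exact h1 U h P hP ((1 / 2) ^ j) (by positivity) (pow_le_one₀ (by norm_num) (by norm_num))
  set cj : ℕ → ℝ := fun j => C₁ * L ^ q * (2 : ℝ) ^ (κ * (j + 1)) with hcj
  have hcj0 : ∀ j, 0 ≤ cj j := fun j => by positivity
  -- the pointwise bound
  have hpt : ∀ t : ℝ, ENNReal.ofReal (Dt β T e t * (‖deriv F (pp t) / F (pp t)‖ ^ q * ‖F (pp t)‖ ^ β)) ≤
      ENNReal.ofReal (C₁ * L ^ q) * G t +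
        ∑' j : ℕ, ENNReal.ofReal (cj j) * (NS ((1 / 2) ^ j / L)).indicator G t := by
    intro t
    have hD := Dt_nonneg (β := β) (e := e) (by linarith) hT0 t
    by_cases hFt : F (pp t) = 0
    · rw [hFt, norm_zero, Real.zero_rpow hβ.ne', mul_zero, mul_zero, ENNReal.ofReal_zero]
      exact zero_le
    -- the number of dyadic scales
    have hex : ∃ n : ℕ, t ∉ NS ((1 / 2) ^ n / L) := by
      have hz : riemannZeta (pp t) ≠ 0 := fun h0 => hFt (FB_zero β T U h0)
      have hopen : IsOpen {z : ℂ | F z ≠ 0} := isOpen_ne_fun hFd.continuous continuous_const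
      obtain ⟨r, hr, hball⟩ := Metric.isOpen_iff.mp hopen (pp t) hFt
      obtain ⟨n, hn⟩ := exists_pow_lt_of_lt_one (show 0 < r * L by positivity)
        (show (1 / 2 : ℝ) < 1 by norm_num)
      refine ⟨n, ?_⟩
      rintro ⟨ρ, hρ0, hρ⟩
      have : ρ ∈ ball (pp t) r := by
        rw [mem_ball, dist_eq_norm]
        refine lt_of_le_of_lt hρ ?_
        rwa [div_lt_iff₀ hL0]
      exact hball this (FB_zero β T U hρ0)
    classical
    set n := Nat.find hex with hn
    have hn1 : t ∉ NS ((1 / 2) ^ n / L) := Nat.find_spec hex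
    have hzf : ∀ u ∈ closedBall (pp t) (1 / L), F u = 0 → (1 / 2) ^ n / L ≤ ‖pp t - u‖ := by
      intro u _ hu
      by_contra hcon
      push Not at hcon
      apply hn1
      refine ⟨u, (FB_zero_iff β T U).mp hu, ?_⟩
      rw [norm_sub_rev]
      exact hcon.le
    have hmaxb : ∀ z ∈ closedBall (pp t) (2 * (1 / L)), ‖F z‖ ≤ ‖F (P t)‖ := by
      intro z hz
      apply hPm
      rwa [show 2 * (1 / L) = 2 / L by ring] at hz
    rcases Nat.eq_zero_or_pos n with h0 | h0
    · -- no zeros nearby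
      rw [h0, pow_zero] at hzf
      refine le_trans ?_ le_self_add
      rw [hG, ← ENNReal.ofReal_mul (by positivity)]
      apply ENNReal.ofReal_le_ofReal
      have h3 := hpoint F (pp t) (1 / L) ‖F (P t)‖ (1 / L) 1 hFd (by positivity) (by positivity)
        le_rfl hmaxb hzf one_pos le_rfl (by
          rw [one_mul]
          exact hPm t _ (mem_closedBall_self (by positivity)))
      rw [one_div, inv_inv, Real.one_rpow, mul_one] at h3
      calc Dt β T e t * (‖deriv F (pp t) / F (pp t)‖ ^ q * ‖F (pp t)‖ ^ β)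
          ≤ Dt β T e t * (C₁ * L ^ q * ‖F (P t)‖ ^ β) := by gcongr
        _ = _ := by ring
    · obtain ⟨j, hj⟩ : ∃ j, n = j + 1 := ⟨n - 1, by omega⟩
      have hmem : t ∈ NS ((1 / 2) ^ j / L) := by
        have := Nat.find_min hex (show j < Nat.find hex by omega)
        push Not at this
        exact this
      refine le_trans ?_ le_add_self
      refine le_trans ?_ (ENNReal.le_tsum j)
      rw [indicator_of_mem hmem, hG, ← ENNReal.ofReal_mul (hcj0 j)]
      apply ENNReal.ofReal_le_ofReal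
      rw [hj] at hzf
      -- the function is small
      obtain ⟨ρ, hρ0, hρ⟩ := hmem
      have hcnt : 1 ≤ count (pp t) ((1 / 2) ^ j / L) := by
        by_contra hcon
        have hc0 : count (pp t) ((1 / 2) ^ j / L) = 0 := by omega
        rw [count_eq (pp t) le_rfl] at hc0
        have hm0 : mult ρ ≠ 0 := mult_ne_zero hρ0
        have hρb : ρ ∈ closedBall (pp t) ((1 / 2) ^ j / L) := by
          rw [mem_closedBall, dist_eq_norm]
          exact hρ
        have hmem' : ρ ∈ (fin_supp (pp t) ((1 / 2) ^ j / L)).toFinset := by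
          rw [Set.Finite.mem_toFinset]
          exact ⟨hρb, hm0⟩
        have := Finset.sum_eq_zero_iff.mp hc0 ρ hmem'
        rw [indicator_of_mem hρb] at this
        exact hm0 this
      have hsm := small_near hFd one_pos (ord_FB β T U) (fun u hu => FB_zero β T U hu)
        (c := pp t) (r := (1 / 2) ^ j / L) (R := 2 / L) (by positivity) (by
          gcongr
          have : ((1 : ℝ) / 2) ^ j ≤ 1 := pow_le_one₀ (by norm_num) (by norm_num)
          linarith) hcnt (Λ := ‖F (P t)‖) (hPm t)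
      have e1 : (1 / 2 : ℝ) ^ j / L / (2 / L) = (1 / 2) ^ (j + 1) := by
        rw [pow_succ]
        field_simp
      rw [e1] at hsm
      simp only [Nat.cast_one, mul_one, Real.rpow_one] at hsm
      have h3 := hpoint F (pp t) (1 / L) ‖F (P t)‖ ((1 / 2) ^ (j + 1) / L) ((1 / 2) ^ (j + 1)) hFd
        (by positivity) (by positivity) (by
          gcongr
          exact pow_le_one₀ (by norm_num) (by norm_num)) hmaxb hzf (by positivity)
        (pow_le_one₀ (by norm_num) (by norm_num)) hsm
      have e2 : ((1 / 2 : ℝ) ^ (j + 1) / L)⁻¹ ^ q * ((1 / 2 : ℝ) ^ (j + 1)) ^ (β - η) =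
          L ^ q * (2 : ℝ) ^ (κ * (j + 1)) := by
        have e3 : ((1 / 2 : ℝ) ^ (j + 1) / L)⁻¹ = L * 2 ^ (j + 1) := by
          rw [inv_div, div_eq_mul_inv, ← inv_pow]
          norm_num
        have e4 : ((1 / 2 : ℝ) ^ (j + 1)) = ((2 : ℝ) ^ (j + 1))⁻¹ := by
          rw [← inv_pow]
          norm_num
        rw [e3, e4, Real.mul_rpow hL0.le (by positivity), Real.inv_rpow (by positivity), mul_assoc]
        congr 1
        rw [← Real.rpow_natCast, ← Real.rpow_mul (by norm_num), ← Real.rpow_mul (by norm_num),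
          ← Real.rpow_neg (by norm_num), ← Real.rpow_add (by norm_num)]
        congr 1
        rw [hκ]
        push_cast
        ring
      calc Dt β T e t * (‖deriv F (pp t) / F (pp t)‖ ^ q * ‖F (pp t)‖ ^ β)
          ≤ Dt β T e t * (C₁ * ((1 / 2) ^ (j + 1) / L)⁻¹ ^ q * ((1 / 2) ^ (j + 1)) ^ (β - η) *
            ‖F (P t)‖ ^ β) := by gcongr
        _ = Dt β T e t * (C₁ * (((1 / 2) ^ (j + 1) / L)⁻¹ ^ q * ((1 / 2) ^ (j + 1)) ^ (β - η)) *
            ‖F (P t)‖ ^ β) := by ring
        _ = _ := by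
            rw [e2, hcj]
            ring
  refine (lintegral_mono hpt).trans ?_
  have hnm : ∀ j : ℕ, MeasurableSet (NS ((1 / 2) ^ j / L)) := fun j => near_meas _
  rw [lintegral_add_left (hGm.const_mul _), lintegral_const_mul _ hGm,
    lintegral_tsum fun j => ((hGm.indicator (hnm j)).const_mul _).aemeasurable]
  have h3 : ∑' j : ℕ, ∫⁻ t : ℝ, ENNReal.ofReal (cj j) * (NS ((1 / 2) ^ j / L)).indicator G t ≤
      ENNReal.ofReal (C₁ * L ^ q * (2 : ℝ) ^ κ * 2 * K * M / (1 - b)) := by
    rw [← geo_sum (by positivity) hb0.le hb1]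
    refine ENNReal.tsum_le_tsum fun j => ?_
    rw [lintegral_const_mul _ (hGm.indicator (hnm j))]
    refine (mul_le_mul_right (hnj j) _).trans (le_of_eq ?_)
    rw [← ENNReal.ofReal_mul (hcj0 j)]
    congr 1
    have e5 : (2 : ℝ) ^ (κ * (j + 1)) * (1 / 2) ^ j = (2 : ℝ) ^ κ * b ^ j := by
      rw [hb, ← Real.rpow_natCast, ← Real.rpow_natCast (((1 : ℝ) / 2) ^ (1 - κ)),
        ← Real.rpow_mul (by norm_num), show ((1 : ℝ) / 2) = 2⁻¹ by norm_num,
        Real.inv_rpow (by norm_num), Real.inv_rpow (by norm_num), ← Real.rpow_neg (by norm_num),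
        ← Real.rpow_neg (by norm_num), ← Real.rpow_add (by norm_num),
        ← Real.rpow_add (by norm_num)]
      congr 1
      ring
    calc cj j * (2 * (1 / 2) ^ j * K * M) = C₁ * L ^ q * 2 * K * M *
          ((2 : ℝ) ^ (κ * (j + 1)) * (1 / 2) ^ j) := by
          rw [hcj]
          ring
      _ = _ := by
          rw [e5]
          ring
  calc ENNReal.ofReal (C₁ * L ^ q) * (∫⁻ t : ℝ, G t) +
        ∑' j : ℕ, ∫⁻ t : ℝ, ENNReal.ofReal (cj j) * (NS ((1 / 2) ^ j / L)).indicator G t
      ≤ ENNReal.ofReal (C₁ * L ^ q) * ENNReal.ofReal (C₂ * M) +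
        ENNReal.ofReal (C₁ * L ^ q * (2 : ℝ) ^ κ * 2 * K * M / (1 - b)) := by
        gcongr
        exact h2 U h P hP
    _ = _ := by
        have : 0 < 1 - b := by linarith
        rw [← ENNReal.ofReal_mul (by positivity), ← ENNReal.ofReal_add (by positivity)
          (by positivity)]
        congr 1
        field_simp

end

end Q97.RD
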