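import Pool.Agent.Q97.RD.Ln
import Pool.Agent.Q97.BS.Fqe

set_option autoImplicit false

open Filter MeasureTheory Metric Set Topology Complex
open scoped ENNReal

namespace Q97.RD

open Q97.RB Q97.MM

noncomputable section

theorem pp_eq_pt (t : ℝ) : pp t = Q97.BS.pt t := rfl

theorem pp_ne (t : ℝ) : pp t ≠ 1 := Q97.BS.pt_ne t

/-- the logarithmic derivative of the entire function on the critical line -/
theorem ld_eq {β T U : ℝ} (hβ : 0 < β) (hU : 0 < U) (t : ℝ) (h0 : riemannZeta (pp t) ≠ 0) :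
    deriv riemannZeta (pp t) / riemannZeta (pp t) =
      deriv (FB β T U) (pp t) / FB β T U (pp t) - 1 / (pp t - 1) -
        ((2 * (t - T) / (β * U ^ 2) : ℝ) : ℂ) * I := by
  have hne := pp_ne t
  set s := pp t with hs
  set V : ℝ := U * √(β / 2) with hV
  set E : ℂ → ℂ := fun s => cexp ((s - 1 / 2 - T * I) ^ 2 / (2 * (V : ℂ) ^ 2)) with hE
  have hV2 : 2 * V ^ 2 = β * U ^ 2 := by
    rw [hV, mul_pow, Real.sq_sqrt (by positivity)]
    ring
  have hV2c : 2 * (V : ℂ) ^ 2 = (β : ℂ) * (U : ℂ) ^ 2 := by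
    have := congrArg (fun x : ℝ => (x : ℂ)) hV2
    push_cast at this
    exact this
  have hβ0 : (β : ℂ) ≠ 0 := by exact_mod_cast hβ.ne'
  have hU0 : (U : ℂ) ≠ 0 := by exact_mod_cast hU.ne'
  have e : FB β T U = fun s => Z1 s * E s := by
    funext s
    simp only [FB, FF, pow_one, hE]
    rfl
  have hs1 : s - 1 ≠ 0 := sub_ne_zero.mpr hne
  have hZ : Z1 s = (s - 1) * riemannZeta s := Z1_of_ne hne
  have hZd : deriv Z1 s = riemannZeta s + (s - 1) * deriv riemannZeta s := by
    have h1 : Z1 =ᶠ[𝓝 s] fun s => (s - 1) * riemannZeta s := by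
      filter_upwards [isOpen_ne.mem_nhds hne] with z hz
      exact Z1_of_ne hz
    rw [h1.deriv_eq]
    have h2 : HasDerivAt (fun s : ℂ => (s - 1) * riemannZeta s)
        (1 * riemannZeta s + (s - 1) * deriv riemannZeta s) s :=
      ((hasDerivAt_id s).sub_const 1).mul (differentiableAt_riemannZeta hne).hasDerivAt
    rw [h2.deriv]
    ring
  have hEd : HasDerivAt E (E s * (2 * (s - 1 / 2 - T * I) / (2 * (V : ℂ) ^ 2))) s := by
    have h1 : HasDerivAt (fun s : ℂ => (s - 1 / 2 - T * I) ^ 2 / (2 * (V : ℂ) ^ 2))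
        (2 * (s - 1 / 2 - T * I) / (2 * (V : ℂ) ^ 2)) s := by
      have h2 : HasDerivAt (fun s : ℂ => s - 1 / 2 - T * I) 1 s :=
        ((hasDerivAt_id s).sub_const _).sub_const _
      have h3 := (h2.pow 2).div_const (2 * (V : ℂ) ^ 2)
      refine h3.congr_deriv ?_
      norm_num
    exact h1.cexp
  have hE0 : E s ≠ 0 := Complex.exp_ne_zero _
  have hd : deriv (FB β T U) s = deriv Z1 s * E s +
      Z1 s * (E s * (2 * (s - 1 / 2 - T * I) / (2 * (V : ℂ) ^ 2))) := by
    rw [e]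
    exact ((Z1_differentiable s).hasDerivAt.mul hEd).deriv
  have hFs : FB β T U s = Z1 s * E s := by rw [e]
  have hsv : s - 1 / 2 - T * I = ((t - T : ℝ) : ℂ) * I := by
    rw [hs, pp]
    push_cast
    ring
  rw [hd, hFs, hZd, hZ, hsv, hV2c]
  push_cast
  field_simp
  ring

theorem three_pow {x y z q : ℝ} (hx : 0 ≤ x) (hy : 0 ≤ y) (hz : 0 ≤ z) (hq : 0 < q) :
    (x + y + z) ^ q ≤ 3 ^ q * (x ^ q + y ^ q + z ^ q) := by
  set m := max x (max y z) with hm
  have hm0 : 0 ≤ m := le_max_of_le_left hx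
  have h1 : x + y + z ≤ 3 * m := by
    have a1 : x ≤ m := le_max_left _ _
    have a2 : y ≤ m := (le_max_left _ _).trans (le_max_right _ _)
    have a3 : z ≤ m := (le_max_right _ _).trans (le_max_right _ _)
    linarith
  have h2 : m ^ q ≤ x ^ q + y ^ q + z ^ q := by
    have b1 : 0 ≤ x ^ q := by positivity
    have b2 : 0 ≤ y ^ q := by positivity
    have b3 : 0 ≤ z ^ q := by positivity
    rcases max_choice x (max y z) with h | h
    · rw [hm, h]; linarith
    · rcases max_choice y z with h' | h'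
      · rw [hm, h, h']; linarith
      · rw [hm, h, h']; linarith
  calc (x + y + z) ^ q ≤ (3 * m) ^ q := Real.rpow_le_rpow (by positivity) h1 hq.le
    _ = 3 ^ q * m ^ q := Real.mul_rpow (by norm_num) hm0
    _ ≤ _ := by gcongr

/-- the density of the moment -/
def zd (β T U t : ℝ) : ℝ := ‖riemannZeta (pp t)‖ ^ β * wt T U t

theorem zd_nonneg (β T U t : ℝ) : 0 ≤ zd β T U t := mul_nonneg (by positivity) (wt_pos _ _ _).le

theorem zd_meas {β : ℝ} (hβ : 0 < β) (T U : ℝ) : Measurable (zd β T U) := by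
  unfold zd wt
  have h1 : Continuous (fun t : ℝ => ‖riemannZeta (pp t)‖ ^ β) :=
    (zeta_line_cont (by norm_num)).norm.rpow_const fun y => Or.inr hβ.le
  exact h1.measurable.mul (by fun_prop)

theorem zd_int {β : ℝ} (hβ : 0 < β) {T U : ℝ} (h : Adm T U) : Integrable (zd β T U) ∧
    ∫ t, zd β T U t = MB β T U (1 / 2) := by
  have hT0 : 0 < T := by linarith [h.1]
  refine ⟨MB_integrable hβ (T := T) (U := U) (x := 1 / 2) h.pos hT0.le
    (h.2.2.trans (div_le_self hT0.le h.log)) (by norm_num) (by norm_num), rfl⟩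

theorem zd_lint {β : ℝ} (hβ : 0 < β) {T U : ℝ} (h : Adm T U) :
    ∫⁻ t, ENNReal.ofReal (zd β T U t) = ENNReal.ofReal (MB β T U (1 / 2)) := by
  obtain ⟨h1, h2⟩ := zd_int hβ h
  rw [← h2, ofReal_integral_eq_lintegral_ofReal h1 (Eventually.of_forall (zd_nonneg β T U))]

theorem add_abs_le {T t : ℝ} (hT : 1 ≤ T) : |t - T| ≤ T * (1 + |t|) := by
  calc |t - T| ≤ |t| + |T| := abs_sub _ _
    _ = |t| + T := by rw [abs_of_nonneg (show (0 : ℝ) ≤ T by linarith)]
    _ ≤ _ := by nlinarith [abs_nonneg t]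

/-- **Upper bound for the moments of the logarithmic derivative.** -/
theorem ld_upper {β q : ℝ} (hβ : 0 < β) (hq : 0 < q) (hqβ : q < 1 + β) : ∃ C : ℝ, 0 < C ∧
    ∀ᶠ T : ℝ in atTop, ∀ U : ℝ, Adm T U →
      ∫⁻ t : ℝ, ENNReal.ofReal (‖deriv riemannZeta (pp t) / riemannZeta (pp t)‖ ^ q *
        zd β T U t) ≤ ENNReal.ofReal (C * Real.log T ^ q * MB β T U (1 / 2)) := by
  obtain ⟨e, C₁, he0, he2, hC₁, h1⟩ := ldF hβ hq hqβ
  obtain ⟨c, hc, hcM⟩ := HM_cmp hβ
  have hsm : Tendsto (fun T : ℝ => Real.pi / T ^ 3) atTop (𝓝 0) :=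
    (tendsto_pow_atTop (n := 3) (α := ℝ) (by norm_num)).const_div_atTop _
  refine ⟨3 ^ q * (C₁ + 2 ^ q + (2 / β) ^ q + 1), by positivity, ?_⟩
  filter_upwards [h1, hcM e he0 he2, hsm.eventually (gt_mem_nhds hc), eventually_ge_atTop 3,
    Q97.BS.tail (⌈2 * β⌉₊ + ⌈q⌉₊) (3 + ⌈q⌉₊) ((2 / β) ^ q * 180 ^ β) (ϑ := 1) one_pos]
    with T h1 h2 h3 hT h4 U h
  have hT0 : 0 < T := by linarith
  have hL := h.log
  have hL0 : 0 < Real.log T := by linarith
  have hU := h.pos
  have hU1 := h.2.1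
  obtain ⟨_, g5⟩ := h2 U h
  have h5 := h1 U h
  set L := Real.log T with hLd
  set M := MB β T U (1 / 2) with hM
  have hM0 : 0 < M := by linarith
  have hLq : 1 ≤ L ^ q := Real.one_le_rpow hL hq.le
  obtain ⟨t1, t2⟩ := Q97.BS.tR_int 3 hT0
  have htn : ∀ y, 0 ≤ Q97.BS.tR 3 T y := fun y => by unfold Q97.BS.tR; positivity
  set Φ : ℝ → ℝ≥0∞ := fun t => ENNReal.ofReal (Dt β T e t *
    (‖deriv (FB β T U) (pp t) / FB β T U (pp t)‖ ^ q * ‖FB β T U (pp t)‖ ^ β)) with hΦ
  set W : ℝ → ℝ≥0∞ := fun t => ENNReal.ofReal ((2 ^ q + (2 / β * L) ^ q) * zd β T U t +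
    Q97.BS.tR 3 T t) with hW
  have hWm : Measurable W := by
    have := zd_meas hβ T U
    apply Measurable.ennreal_ofReal
    unfold Q97.BS.tR
    fun_prop
  have hpt : ∀ t : ℝ, ENNReal.ofReal (‖deriv riemannZeta (pp t) / riemannZeta (pp t)‖ ^ q *
      zd β T U t) ≤ ENNReal.ofReal (3 ^ q) * (Φ t + W t) := by
    intro t
    have hD := Dt_nonneg (β := β) (e := e) (by linarith) hT0 t
    have hz0 := zd_nonneg β T U t
    by_cases h0 : riemannZeta (pp t) = 0
    · have : zd β T U t = 0 := by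
        unfold zd
        rw [h0, norm_zero, Real.zero_rpow hβ.ne', zero_mul]
      rw [this, mul_zero, ENNReal.ofReal_zero]
      exact zero_le
    rw [hΦ, hW, ← ENNReal.ofReal_add (by positivity) (by
      have := htn t
      positivity), ← ENNReal.ofReal_mul (by positivity)]
    apply ENNReal.ofReal_le_ofReal
    set a := ‖deriv (FB β T U) (pp t) / FB β T U (pp t)‖ with ha
    set y := 2 * |t - T| / (β * U ^ 2) with hy
    have hy0 : 0 ≤ y := by positivity
    have k1 : ‖deriv riemannZeta (pp t) / riemannZeta (pp t)‖ ≤ a + 2 + y := by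
      rw [ld_eq (T := T) hβ hU t h0]
      refine (norm_sub_le _ _).trans (add_le_add ((norm_sub_le _ _).trans (add_le_add le_rfl ?_)) ?_)
      · rw [norm_div, norm_one, div_le_iff₀ (norm_pos_iff.mpr (sub_ne_zero.mpr (pp_ne t)))]
        have := Q97.BS.pt_half t
        rw [← pp_eq_pt] at this
        linarith
      · rw [norm_mul, Complex.norm_I, mul_one, Complex.norm_real, Real.norm_eq_abs, abs_div, abs_mul,
          abs_of_pos (by positivity : (0 : ℝ) < β * U ^ 2), abs_of_pos (by norm_num : (0 : ℝ) < 2)]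
    have k2 : ‖deriv riemannZeta (pp t) / riemannZeta (pp t)‖ ^ q ≤
        3 ^ q * (a ^ q + 2 ^ q + y ^ q) :=
      (Real.rpow_le_rpow (norm_nonneg _) k1 hq.le).trans
        (three_pow (norm_nonneg _) (by norm_num) hy0 hq)
    have k3 : zd β T U t ≤ Dt β T e t * ‖FB β T U (pp t)‖ ^ β := zeta_Dt hβ he0 he2 hT0 hU t
    have k4 : y ^ q * zd β T U t ≤ (2 / β * L) ^ q * zd β T U t + Q97.BS.tR 3 T t := by
      by_cases hyt : 1 * (U * L) < |t - T|
      · refine le_trans ?_ (le_add_of_nonneg_left (by positivity))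
        have k5 := h4 U h t hyt
        have k6 : y ≤ 2 / β * (T * (1 + |t|)) := by
          have k7 : |t - T| ≤ T * (1 + |t|) := add_abs_le (by linarith)
          rw [hy]
          calc 2 * |t - T| / (β * U ^ 2) ≤ 2 * |t - T| / (β * 1) := by
                gcongr
                nlinarith
            _ = 2 / β * |t - T| := by rw [mul_one]; ring
            _ ≤ _ := by gcongr
        have k8 : y ^ q ≤ (2 / β) ^ q * (T ^ ⌈q⌉₊ * (1 + |t|) ^ ⌈q⌉₊) := by
          have hat : 1 ≤ 1 + |t| := by linarith [abs_nonneg t]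
          calc y ^ q ≤ (2 / β * (T * (1 + |t|))) ^ q := Real.rpow_le_rpow hy0 k6 hq.le
            _ = (2 / β) ^ q * (T ^ q * (1 + |t|) ^ q) := by
                rw [Real.mul_rpow (by positivity) (by positivity), Real.mul_rpow hT0.le
                  (by positivity)]
            _ ≤ _ := by
                gcongr
                · rw [← Real.rpow_natCast]
                  exact Real.rpow_le_rpow_of_exponent_le (by linarith) (Nat.le_ceil q)
                · rw [← Real.rpow_natCast]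
                  exact Real.rpow_le_rpow_of_exponent_le hat (Nat.le_ceil q)
        have k9 : zd β T U t ≤ 180 ^ β * (1 + |t|) ^ ⌈2 * β⌉₊ * wt T U t := by
          have := zeta_rpow_bd hβ (x := 1 / 2) (by norm_num) (by norm_num) t
          have hw := wt_pos T U t
          unfold zd pp
          gcongr
        have k10 : T ^ ⌈q⌉₊ * Q97.BS.tR (3 + ⌈q⌉₊) T t = Q97.BS.tR 3 T t := by
          unfold Q97.BS.tR
          rw [pow_add]
          field_simp
        calc y ^ q * zd β T U t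
            ≤ ((2 / β) ^ q * (T ^ ⌈q⌉₊ * (1 + |t|) ^ ⌈q⌉₊)) *
              (180 ^ β * (1 + |t|) ^ ⌈2 * β⌉₊ * wt T U t) := by gcongr
          _ = T ^ ⌈q⌉₊ * ((2 / β) ^ q * 180 ^ β * (1 + |t|) ^ (⌈2 * β⌉₊ + ⌈q⌉₊) * wt T U t) := by
              rw [pow_add]
              ring
          _ ≤ T ^ ⌈q⌉₊ * Q97.BS.tR (3 + ⌈q⌉₊) T t := by gcongr
          _ = _ := k10
      · push Not at hyt
        refine le_trans ?_ (le_add_of_nonneg_right (htn t))
        rw [one_mul] at hyt
        have k6 : y ≤ 2 / β * L := by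
          rw [hy, div_le_iff₀ (by positivity)]
          calc 2 * |t - T| ≤ 2 * (U * L) := by gcongr
            _ ≤ 2 * (U ^ 2 * L) := by
                gcongr
                nlinarith
            _ = 2 / β * L * (β * U ^ 2) := by field_simp
        gcongr
    calc ‖deriv riemannZeta (pp t) / riemannZeta (pp t)‖ ^ q * zd β T U t
        ≤ 3 ^ q * (a ^ q + 2 ^ q + y ^ q) * zd β T U t := by gcongr
      _ = 3 ^ q * (a ^ q * zd β T U t + 2 ^ q * zd β T U t + y ^ q * zd β T U t) := by ring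
      _ ≤ 3 ^ q * (a ^ q * (Dt β T e t * ‖FB β T U (pp t)‖ ^ β) + 2 ^ q * zd β T U t +
          ((2 / β * L) ^ q * zd β T U t + Q97.BS.tR 3 T t)) := by gcongr
      _ = _ := by ring
  refine (lintegral_mono hpt).trans ?_
  rw [lintegral_const_mul' _ _ ENNReal.ofReal_ne_top, lintegral_add_right _ hWm]
  have h6 : ∫⁻ t, W t ≤ ENNReal.ofReal ((2 ^ q + (2 / β * L) ^ q + 1) * M) := by
    have hWi : Integrable (fun t => (2 ^ q + (2 / β * L) ^ q) * zd β T U t + Q97.BS.tR 3 T t) :=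
      (((zd_int hβ h).1).const_mul _).add t1
    have hW0 : ∀ t, 0 ≤ (2 ^ q + (2 / β * L) ^ q) * zd β T U t + Q97.BS.tR 3 T t := fun t =>
      add_nonneg (mul_nonneg (by positivity) (zd_nonneg β T U t)) (htn t)
    rw [hW, ← ofReal_integral_eq_lintegral_ofReal hWi (Eventually.of_forall hW0)]
    apply ENNReal.ofReal_le_ofReal
    rw [integral_add (((zd_int hβ h).1).const_mul _) t1, integral_const_mul, (zd_int hβ h).2]
    linarith
  calc ENNReal.ofReal (3 ^ q) * ((∫⁻ t, Φ t) + ∫⁻ t, W t)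
      ≤ ENNReal.ofReal (3 ^ q) * (ENNReal.ofReal (C₁ * L ^ q * M) +
        ENNReal.ofReal ((2 ^ q + (2 / β * L) ^ q + 1) * M)) := by gcongr
    _ ≤ _ := by
        rw [← ENNReal.ofReal_add (by positivity) (by positivity), ← ENNReal.ofReal_mul (by positivity)]
        apply ENNReal.ofReal_le_ofReal
        rw [Real.mul_rpow (by positivity) hL0.le]
        have k11 : (2 : ℝ) ^ q ≤ 2 ^ q * L ^ q := le_mul_of_one_le_right (by positivity) hLq
        have k12 : (2 : ℝ) ^ q + (2 / β) ^ q * L ^ q + 1 ≤ (2 ^ q + (2 / β) ^ q + 1) * L ^ q := by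
          linarith
        calc 3 ^ q * (C₁ * L ^ q * M + (2 ^ q + (2 / β) ^ q * L ^ q + 1) * M)
            ≤ 3 ^ q * (C₁ * L ^ q * M + ((2 ^ q + (2 / β) ^ q + 1) * L ^ q) * M) := by gcongr
          _ = _ := by ring

end

end Q97.RD
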