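import Pool.Agent.Q97.RD.Mx

set_option autoImplicit false

open Filter MeasureTheory Metric Set Topology Complex
open scoped ENNReal

namespace Q97.RD

open Q97.RB Q97.MM

noncomputable section

/-- The maximal function over discs. -/
theorem maximal {F : ℂ → ℂ} {α α' β : ℝ} (hF : Differentiable ℂ F)
    (hβ : 0 < β) (hG : Gd F α α') (p : ℝ → ℂ) {δ r : ℝ} (hδ : 0 < δ) (hr : 0 < r)
    (h : ∀ t : ℝ, ‖p t - (((1 / 2 : ℝ) : ℂ) + t * I)‖ + δ ≤ r)
    (h1 : α ≤ 1 / 2 - r) (h2 : 1 / 2 + r ≤ α') {S : ℝ} (hS0 : 0 ≤ S)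
    (hS : ∀ x : ℝ, |x - 1 / 2| ≤ r → LI F β x ≤ S) :
    ∫⁻ t : ℝ, ENNReal.ofReal (‖F (p t)‖ ^ β) ≤ ENNReal.ofReal ((r / δ) ^ 2 * S) := by
  have hπ := Real.pi_pos
  have hgm : Measurable (fun z => ENNReal.ofReal (‖F z‖ ^ β)) :=
    (pw_cont hF hβ).measurable.ennreal_ofReal
  have h3 : ∀ t : ℝ, ENNReal.ofReal (Real.pi * δ ^ 2) * ENNReal.ofReal (‖F (p t)‖ ^ β) ≤
      ∫⁻ u in closedBall (0 : ℂ) r, ENNReal.ofReal (‖F ((((1 / 2 : ℝ) : ℂ) + t * I) + u)‖ ^ β) := by
    intro t
    rw [← ENNReal.ofReal_mul (by positivity)]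
    refine (area hF hβ (p t) hδ).trans ?_
    have h4 : closedBall (p t) δ ⊆ closedBall (((1 / 2 : ℝ) : ℂ) + t * I) r := by
      apply closedBall_subset_closedBall'
      rw [dist_eq_norm]
      linarith [h t]
    refine (lintegral_mono_set h4).trans (le_of_eq ?_)
    rw [← lintegral_indicator measurableSet_closedBall, ← lintegral_indicator measurableSet_closedBall,
      ← lintegral_add_left_eq_self _ (((1 / 2 : ℝ) : ℂ) + t * I)]
    refine lintegral_congr fun u => ?_
    by_cases hu : u ∈ closedBall (0 : ℂ) r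
    · rw [indicator_of_mem hu, indicator_of_mem]
      rw [mem_closedBall, dist_zero_right] at hu
      rw [mem_closedBall, dist_eq_norm, add_sub_cancel_left]
      exact hu
    · rw [indicator_of_notMem hu, indicator_of_notMem]
      rw [mem_closedBall, dist_zero_right] at hu
      rw [mem_closedBall, dist_eq_norm, add_sub_cancel_left]
      exact hu
  have h5 : ∫⁻ t : ℝ, ∫⁻ u in closedBall (0 : ℂ) r,
        ENNReal.ofReal (‖F ((((1 / 2 : ℝ) : ℂ) + t * I) + u)‖ ^ β) ≤
      ENNReal.ofReal (Real.pi * r ^ 2 * S) := by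
    have hm : Measurable (fun q : ℝ × ℂ =>
        ENNReal.ofReal (‖F ((((1 / 2 : ℝ) : ℂ) + (q.1 : ℂ) * I) + q.2)‖ ^ β)) := by
      have hc : Continuous (fun q : ℝ × ℂ => (((1 / 2 : ℝ) : ℂ) + (q.1 : ℂ) * I) + q.2) := by fun_prop
      exact ((pw_cont hF hβ).comp hc).measurable.ennreal_ofReal
    rw [lintegral_lintegral_swap hm.aemeasurable]
    calc ∫⁻ u in closedBall (0 : ℂ) r, ∫⁻ t : ℝ,
          ENNReal.ofReal (‖F ((((1 / 2 : ℝ) : ℂ) + t * I) + u)‖ ^ β)
        ≤ ∫⁻ _ in closedBall (0 : ℂ) r, ENNReal.ofReal S := by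
          refine setLIntegral_mono' measurableSet_closedBall fun u hu => ?_
          rw [mem_closedBall, dist_zero_right] at hu
          have h6 := (Complex.abs_re_le_norm u).trans hu
          have h7 := abs_le.mp h6
          have e1 : ∀ t : ℝ, (((1 / 2 : ℝ) : ℂ) + t * I) + u =
              ((1 / 2 + u.re : ℝ) : ℂ) + ((t + u.im : ℝ) : ℂ) * I := by
            intro t
            conv_lhs => rw [← Complex.re_add_im u]
            push_cast
            ring
          simp only [e1]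
          rw [lintegral_add_right_eq_self (fun t : ℝ =>
            ENNReal.ofReal (‖F (((1 / 2 + u.re : ℝ) : ℂ) + (t : ℂ) * I)‖ ^ β)) u.im,
            LI_lint hF hβ hG (by linarith [h7.1]) (by linarith [h7.2])]
          apply ENNReal.ofReal_le_ofReal
          apply hS
          rw [add_sub_cancel_left]
          exact h6
      _ = ENNReal.ofReal (Real.pi * r ^ 2 * S) := by
          rw [setLIntegral_const, Complex.volume_closedBall]
          have e2 : (NNReal.pi : ℝ≥0∞) = ENNReal.ofReal Real.pi := by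
            rw [ENNReal.ofReal, ← NNReal.coe_real_pi, Real.toNNReal_coe]
          rw [e2, ← ENNReal.ofReal_pow hr.le, ← ENNReal.ofReal_mul (by positivity),
            ← ENNReal.ofReal_mul hS0]
          congr 1
          ring
  have h8 : ENNReal.ofReal (Real.pi * δ ^ 2) * ∫⁻ t : ℝ, ENNReal.ofReal (‖F (p t)‖ ^ β) ≤
      ENNReal.ofReal (Real.pi * r ^ 2 * S) := by
    rw [← lintegral_const_mul' _ _ ENNReal.ofReal_ne_top]
    exact (lintegral_mono h3).trans h5
  refine (enn_div (by positivity) h8).trans (le_of_eq ?_)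
  congr 1
  field_simp

/-- The maximal function at the scale `1 / log T`. -/
theorem maximal_FB {β : ℝ} (hβ : 0 < β) {R d : ℝ} (hR : 0 ≤ R) (hd : 0 < d) {ε : ℝ} (hε : 0 < ε) :
    ∀ᶠ T : ℝ in atTop, ∀ U : ℝ, Adm T U → ∀ p : ℝ → ℂ,
      (∀ t : ℝ, ‖p t - (((1 / 2 : ℝ) : ℂ) + t * I)‖ ≤ R / Real.log T) →
      ∫⁻ t : ℝ, ENNReal.ofReal (‖FB β T U (p t)‖ ^ β) ≤
        ENNReal.ofReal (((1 + R / d) ^ 2 * Real.exp (β * (R + d)) + ε) * HB β T U (1 / 2)) := by
  have hA0 : 0 < R + d := by positivity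
  have hk0 : 0 < (1 + R / d) ^ 2 := by positivity
  filter_upwards [HB_unif hβ hA0 (ε := ((1 + R / d) ^ 2)⁻¹ * ε) (by positivity),
    (log_div_tendsto (R + d)).eventually (gt_mem_nhds (show (0 : ℝ) < 1 / 4 by norm_num))]
    with T h1 h3 U h p hp
  have hL := h.log
  have hL0 : 0 < Real.log T := by linarith
  rw [abs_of_pos (by positivity)] at h3
  set H := HB β T U (1 / 2) with hH
  have hH0 : 0 ≤ H := HB_nonneg _ _ _ _
  have hm := maximal (FB_diff β T U) hβ (FB_gd hβ T h.pos) p (δ := d / Real.log T)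
    (r := (R + d) / Real.log T) (by positivity) (by positivity)
    (fun t => by
      have := hp t
      rw [add_div]
      linarith) (by linarith) (by linarith)
    (S := (Real.exp (β * (R + d)) + ((1 + R / d) ^ 2)⁻¹ * ε) * H) (by positivity)
    (fun x hx => h1 U h x hx)
  refine hm.trans (le_of_eq ?_)
  congr 1
  have e1 : (R + d) / Real.log T / (d / Real.log T) = 1 + R / d := by
    field_simp
    ring
  rw [e1]
  field_simp

end

end Q97.RD
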