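import Pool.Agent.Q97.RD.Zc

set_option autoImplicit false

open Filter MeasureTheory Metric Set Topology Complex
open scoped ENNReal

namespace Q97.RD

open Q97.RB Q97.MM

noncomputable section

/-- The integral over a strip. -/
theorem strip_int {F : ℂ → ℂ} {α α' β : ℝ} (hF : Differentiable ℂ F) (hβ : 0 < β) (hG : Gd F α α')
    {b : ℝ} (h1 : α ≤ 1 / 2 - b) (h2 : 1 / 2 + b ≤ α') {S : ℝ} (hS0 : 0 ≤ S)
    (hS : ∀ x : ℝ, |x - 1 / 2| ≤ b → LI F β x ≤ S) :
    ∫⁻ w in Sp b, ENNReal.ofReal (‖F w‖ ^ β) ≤ ENNReal.ofReal (2 * b * S) := by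
  rw [strip_fub ((pw_cont hF hβ).measurable.ennreal_ofReal)]
  calc ∫⁻ x in Icc (1 / 2 - b) (1 / 2 + b), ∫⁻ y : ℝ, ENNReal.ofReal (‖F (x + y * I)‖ ^ β)
      ≤ ∫⁻ _ in Icc (1 / 2 - b) (1 / 2 + b), ENNReal.ofReal S := by
        refine setLIntegral_mono' measurableSet_Icc fun x hx => ?_
        rw [LI_lint hF hβ hG (by linarith [hx.1]) (by linarith [hx.2])]
        apply ENNReal.ofReal_le_ofReal
        exact hS x (abs_le.mpr ⟨by linarith [hx.1], by linarith [hx.2]⟩)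
    _ = ENNReal.ofReal (2 * b * S) := by
        rw [setLIntegral_const, Real.volume_Icc, ← ENNReal.ofReal_mul hS0]
        congr 1
        ring

/-- **Sampling**: sums over points of which at most `n` lie in each disc of radius `δ`. -/
theorem sampling {ι : Type*} [Countable ι] {F : ℂ → ℂ} {α α' β : ℝ} (hF : Differentiable ℂ F)
    (hβ : 0 < β) (hG : Gd F α α') (p c : ι → ℂ) {δ r b n : ℝ} (hδ : 0 < δ)
    (h : ∀ i, ‖p i - c i‖ + δ ≤ r) (hb : ∀ i, closedBall (c i) r ⊆ Sp b)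
    (hn : ∀ w : ℂ, ∑' i, (closedBall (c i) r).indicator (fun _ => (1 : ℝ≥0∞)) w ≤ ENNReal.ofReal n)
    (h1 : α ≤ 1 / 2 - b) (h2 : 1 / 2 + b ≤ α') {S : ℝ} (hS0 : 0 ≤ S) (hn0 : 0 ≤ n)
    (hS : ∀ x : ℝ, |x - 1 / 2| ≤ b → LI F β x ≤ S) :
    ∑' i, ENNReal.ofReal (‖F (p i)‖ ^ β) ≤
      ENNReal.ofReal ((Real.pi * δ ^ 2)⁻¹ * (n * (2 * b * S))) := by
  have hπ := Real.pi_pos
  have h3 := sum_area hF hβ p c (fun _ => 1) hδ h
  simp only [one_mul] at h3
  have h4 : ∫⁻ w : ℂ, ENNReal.ofReal (‖F w‖ ^ β) *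
        ∑' i, (closedBall (c i) r).indicator (fun _ => (1 : ℝ≥0∞)) w ≤
      ENNReal.ofReal (n * (2 * b * S)) := by
    calc ∫⁻ w : ℂ, ENNReal.ofReal (‖F w‖ ^ β) *
          ∑' i, (closedBall (c i) r).indicator (fun _ => (1 : ℝ≥0∞)) w
        ≤ ∫⁻ w : ℂ, (Sp b).indicator (fun w => ENNReal.ofReal n * ENNReal.ofReal (‖F w‖ ^ β)) w := by
          refine lintegral_mono fun w => ?_
          by_cases hw : w ∈ Sp b
          · rw [indicator_of_mem hw, mul_comm]
            gcongr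
            exact hn w
          · have h0 : ∑' i, (closedBall (c i) r).indicator (fun _ => (1 : ℝ≥0∞)) w = 0 := by
              rw [ENNReal.tsum_eq_zero]
              intro i
              exact indicator_of_notMem (fun h1 => hw (hb i h1)) _
            rw [h0, mul_zero]
            exact zero_le
      _ = ENNReal.ofReal n * ∫⁻ w in Sp b, ENNReal.ofReal (‖F w‖ ^ β) := by
          rw [lintegral_indicator (Sp_meas b), lintegral_const_mul' _ _ ENNReal.ofReal_ne_top]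
      _ ≤ ENNReal.ofReal n * ENNReal.ofReal (2 * b * S) := by
          gcongr
          exact strip_int hF hβ hG h1 h2 hS0 hS
      _ = _ := by rw [← ENNReal.ofReal_mul hn0]
  have e1 : ∀ i, ENNReal.ofReal (Real.pi * δ ^ 2 * ‖F (p i)‖ ^ β) =
      ENNReal.ofReal (Real.pi * δ ^ 2) * ENNReal.ofReal (‖F (p i)‖ ^ β) :=
    fun i => ENNReal.ofReal_mul (by positivity)
  simp only [e1] at h3
  rw [ENNReal.tsum_mul_left] at h3
  exact enn_div (by positivity) (h3.trans h4)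

/-- The number of grid points near a given point. -/
theorem grid_count {h r : ℝ} (hh : 0 < h) (hr : 0 ≤ r) (w : ℂ) :
    ∑' j : ℤ, (closedBall (((1 / 2 : ℝ) : ℂ) + (((j : ℝ) * h + h / 2 : ℝ) : ℂ) * I) r).indicator
      (fun _ => (1 : ℝ≥0∞)) w ≤ ENNReal.ofReal (2 * r / h + 1) := by
  set lo : ℝ := (w.im - r) / h - 1 / 2 with hlo
  set hi : ℝ := (w.im + r) / h - 1 / 2 with hhi
  have hmem : ∀ j : ℤ, w ∈ closedBall (((1 / 2 : ℝ) : ℂ) + (((j : ℝ) * h + h / 2 : ℝ) : ℂ) * I) r →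
      j ∈ Finset.Icc ⌈lo⌉ ⌊hi⌋ := by
    intro j hj
    rw [mem_closedBall, dist_eq_norm] at hj
    have h1 := (Complex.abs_im_le_norm _).trans hj
    have e1 : (w - (((1 / 2 : ℝ) : ℂ) + (((j : ℝ) * h + h / 2 : ℝ) : ℂ) * I)).im =
        w.im - (j * h + h / 2) := by simp
    rw [e1, abs_le] at h1
    rw [Finset.mem_Icc, Int.ceil_le, Int.le_floor, hlo, hhi]
    constructor
    · rw [sub_le_iff_le_add, div_le_iff₀ hh]
      linarith [h1.2]
    · rw [le_sub_iff_add_le, le_div_iff₀ hh]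
      linarith [h1.1]
  rw [tsum_eq_sum (s := Finset.Icc ⌈lo⌉ ⌊hi⌋) fun j hj =>
    indicator_of_notMem (fun h1 => hj (hmem j h1)) _]
  calc ∑ j ∈ Finset.Icc ⌈lo⌉ ⌊hi⌋,
        (closedBall (((1 / 2 : ℝ) : ℂ) + (((j : ℝ) * h + h / 2 : ℝ) : ℂ) * I) r).indicator
        (fun _ => (1 : ℝ≥0∞)) w
      ≤ ∑ _j ∈ Finset.Icc ⌈lo⌉ ⌊hi⌋, (1 : ℝ≥0∞) :=
        Finset.sum_le_sum fun j _ => indicator_le_self' (fun _ _ => zero_le_one) w
    _ = ((Finset.Icc ⌈lo⌉ ⌊hi⌋).card : ℝ≥0∞) := by simp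
    _ ≤ ENNReal.ofReal (2 * r / h + 1) := by
        rw [← ENNReal.ofReal_natCast]
        apply ENNReal.ofReal_le_ofReal
        rw [Int.card_Icc]
        have h3 : 0 ≤ 2 * r / h + 1 := by positivity
        rcases le_or_gt (⌊hi⌋ + 1 - ⌈lo⌉) 0 with h4 | h4
        · rw [Int.toNat_of_nonpos h4]
          simpa using h3
        · have h5 : (((⌊hi⌋ + 1 - ⌈lo⌉).toNat : ℕ) : ℝ) = ((⌊hi⌋ + 1 - ⌈lo⌉ : ℤ) : ℝ) := by
            have := Int.toNat_of_nonneg h4.le
            exact_mod_cast this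
          rw [h5]
          push_cast
          have h6 := Int.floor_le hi
          have h7 := Int.le_ceil lo
          have h8 : hi - lo = 2 * r / h := by
            rw [hhi, hlo]
            field_simp
            ring
          linarith

/-- The maxima over a grid of discs of radius `K a / log T`. -/
theorem grid_max {β : ℝ} (hβ : 0 < β) {a K : ℝ} (ha : 0 < a) (hK : 0 ≤ K) :
    ∀ᶠ T : ℝ in atTop, ∀ U : ℝ, Adm T U → ∀ p : ℤ → ℂ,
      (∀ j : ℤ, ‖p j - (((1 / 2 : ℝ) : ℂ) + (((j : ℝ) * (a / Real.log T) + a / Real.log T / 2 : ℝ) : ℂ) * I)‖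
        ≤ K * (a / Real.log T)) →
      ∑' j : ℤ, ENNReal.ofReal (a / Real.log T * ‖FB β T U (p j)‖ ^ β) ≤
        ENNReal.ofReal ((2 * (K + 1) + 1) * (2 * (K + 1)) *
          (Real.exp (β * ((K + 1) * a)) + 1) / Real.pi * HB β T U (1 / 2)) := by
  have hπ := Real.pi_pos
  have hA0 : 0 < (K + 1) * a := by positivity
  filter_upwards [HB_unif hβ hA0 one_pos,
    (log_div_tendsto ((K + 1) * a)).eventually (gt_mem_nhds (show (0 : ℝ) < 1 / 4 by norm_num))]
    with T h1 h3 U h p hp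
  have hL := h.log
  have hL0 : 0 < Real.log T := by linarith
  rw [abs_of_pos (by positivity)] at h3
  set H := HB β T U (1 / 2) with hH
  have hH0 : 0 ≤ H := HB_nonneg _ _ _ _
  set η := a / Real.log T with hη
  have hη0 : 0 < η := by positivity
  have hr : (K + 1) * a / Real.log T = (K + 1) * η := by rw [hη]; ring
  have hs := sampling (FB_diff β T U) hβ (FB_gd hβ T h.pos) p
    (fun j : ℤ => ((1 / 2 : ℝ) : ℂ) + (((j : ℝ) * η + η / 2 : ℝ) : ℂ) * I) (δ := η)
    (r := (K + 1) * η) (b := (K + 1) * η) (n := 2 * ((K + 1) * η) / η + 1) hη0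
    (fun j => by
      have := hp j
      linarith)
    (fun j => ball_strip (b := 0) (by simp) (by linarith))
    (fun w => grid_count hη0 (by positivity) w) (by linarith) (by linarith)
    (S := (Real.exp (β * ((K + 1) * a)) + 1) * H) (by positivity) (by positivity)
    (fun x hx => h1 U h x (by rw [hr]; exact hx))
  have e1 : ∀ j : ℤ, ENNReal.ofReal (η * ‖FB β T U (p j)‖ ^ β) =
      ENNReal.ofReal η * ENNReal.ofReal (‖FB β T U (p j)‖ ^ β) :=
    fun j => ENNReal.ofReal_mul hη0.le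
  simp only [e1]
  rw [ENNReal.tsum_mul_left]
  refine (mul_le_mul_right hs _).trans (le_of_eq ?_)
  rw [← ENNReal.ofReal_mul hη0.le]
  congr 1
  field_simp

end

end Q97.RD
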