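import Pool.Agent.Q97.RD.Rp
import Pool.Agent.Q97.RD.Mf

set_option autoImplicit false

open Filter MeasureTheory Metric Set Topology Complex
open scoped ENNReal

namespace Q97.RD

open Q97.RB Q97.MM

noncomputable section

/-- the point `1/2 + it` -/
def pp (t : ℝ) : ℂ := ((1 / 2 : ℝ) : ℂ) + t * I

theorem pp_re (t : ℝ) : (pp t).re = 1 / 2 := by simp [pp]

theorem pp_im (t : ℝ) : (pp t).im = t := by simp [pp]

open Classical in
/-- the factor which compares `ζ` and the entire function -/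
def Dt (β T e t : ℝ) : ℝ := if |t - T| ≤ 3 * e / 4 * T then (((1 - e) * T) ^ β)⁻¹ else 4 ^ β

theorem Dt_nonneg {β T e : ℝ} (he : e < 1) (hT : 0 < T) (t : ℝ) : 0 ≤ Dt β T e t := by
  unfold Dt
  have : 0 < (1 - e) * T := mul_pos (by linarith) hT
  split_ifs <;> positivity

theorem Dt_meas (β T e : ℝ) : Measurable (Dt β T e) := by
  unfold Dt
  refine Measurable.ite ?_ measurable_const measurable_const
  exact measurableSet_le (by fun_prop) measurable_const

/-- The comparison on the critical line. -/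
theorem zeta_Dt {β : ℝ} (hβ : 0 < β) {e T U : ℝ} (he0 : 0 < e) (he : e < 1 / 4) (hT : 0 < T)
    (hU : 0 < U) (t : ℝ) : ‖riemannZeta (pp t)‖ ^ β * wt T U t ≤
      Dt β T e t * ‖FB β T U (pp t)‖ ^ β := by
  have hre : |(pp t).re - 1 / 2| ≤ 1 / 4 := by rw [pp_re]; norm_num
  unfold Dt
  split_ifs with hy
  · have hd0 : 0 < (1 - e) * T := mul_pos (by linarith) hT
    have b3 := zeta_le hβ (T := T) hU hre hd0 (by
      have h7 := Complex.abs_im_le_norm (pp t - 1)
      rw [Complex.sub_im, Complex.one_im, sub_zero, pp_im] at h7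
      refine le_trans ?_ ((le_abs_self _).trans h7)
      have h8 := (abs_le.mp hy).1
      nlinarith)
    rwa [pp_im] at b3
  · have b3 := zeta_le hβ (T := T) hU hre (d := 1 / 4) (by norm_num) (dist_one hre)
    have b4 : ((1 / 4 : ℝ) ^ β)⁻¹ = 4 ^ β := by
      rw [← Real.inv_rpow (by norm_num)]
      norm_num
    rwa [b4, pp_im] at b3

/-- **The mass near the zeros.** -/
theorem near_mass {β : ℝ} (hβ : 0 < β) {c₀ R R' : ℝ} (hc₀ : 0 < c₀) (hR : 0 < R) (hR' : 0 < R')
    {ε : ℝ} (hε : 0 < ε) : ∃ e : ℝ, 0 < e ∧ e < 1 / 4 ∧ ∀ᶠ T : ℝ in atTop, ∀ U : ℝ, Adm T U →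
      ∀ P : ℝ → ℂ, (∀ t, ‖P t - pp t‖ ≤ R / Real.log T) → ∀ c : ℝ, 0 < c → c ≤ c₀ →
      ∫⁻ t : ℝ, {t : ℝ | ∃ ρ, riemannZeta ρ = 0 ∧ ‖ρ - pp t‖ ≤ c / Real.log T}.indicator
        (fun t => ENNReal.ofReal (Dt β T e t * ‖FB β T U (P t)‖ ^ β)) t ≤
      ENNReal.ofReal (2 * c * (KZ β c₀ (R + c₀) R' + ε) * MB β T U (1 / 2)) := by
  obtain ⟨e, he0, he2, hcomb⟩ := comb hβ hc₀.le (by positivity : 0 ≤ R + c₀) hR' hε
  refine ⟨e, he0, he2, ?_⟩
  filter_upwards [hcomb, (log_div_tendsto (R + c₀)).eventually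
    (gt_mem_nhds (show (0 : ℝ) < 1 / 4 by norm_num)), eventually_ge_atTop 3,
    eventually_ge_atTop (1 / e)]
    with T h1 h2 hT hTe U h P hP c hc hcc
  have hT0 : 0 < T := by linarith
  have hL := h.log
  have hL0 : 0 < Real.log T := by linarith
  rw [abs_of_nonneg (by positivity)] at h2
  have hd0 : 0 < (1 - e) * T := mul_pos (by linarith) hT0
  set L := Real.log T with hLd
  have hr0 : 0 < c / L := by positivity
  have hcc' : c / L ≤ c₀ / L := by gcongr
  choose p hp hpm using max_ball (FB_diff β T U) (by positivity : 0 ≤ (R + c₀) / L)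
  set D : ℝ := (((1 - e) * T) ^ β)⁻¹ with hD
  have hD0 : 0 < D := by positivity
  set κ : ℝ := 2 * (c / L) with hκ
  have hκ0 : 0 < κ := by positivity
  classical
  set v : ℂ → ℝ := fun ρ => if |ρ.im - T| ≤ e / 2 * T then κ * D * ‖FB β T U (p ρ)‖ ^ β
    else κ * 4 ^ β * ‖FB β T U (p ρ)‖ ^ β with hv
  have hDle : D ≤ 4 ^ β := by
    rw [hD, ← Real.inv_rpow hd0.le]
    apply Real.rpow_le_rpow (by positivity) _ hβ.le
    rw [inv_le_comm₀ hd0 (by norm_num)]
    nlinarith
  have hsum := h1 U h p (fun ρ _ => hp ρ) κ v hκ0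
    (fun ρ _ => by
      simp only [hv]
      split_ifs
      · gcongr
      · exact le_rfl)
    (fun ρ _ hy => by
      simp only [hv]
      rw [if_pos hy])
  have hcount : Countable (ZS (c₀ / L)) := (ZS_countable _).to_subtype
  have hpt : ∀ t : ℝ, {t : ℝ | ∃ ρ, riemannZeta ρ = 0 ∧ ‖ρ - pp t‖ ≤ c / L}.indicator
      (fun t => ENNReal.ofReal (Dt β T e t * ‖FB β T U (P t)‖ ^ β)) t ≤
      ∑' ρ : ZS (c₀ / L), (Icc ((ρ : ℂ).im - c / L) ((ρ : ℂ).im + c / L)).indicator
        (fun _ => ENNReal.ofReal (κ⁻¹ * v ρ)) t := by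
    intro t
    by_cases ht : t ∈ {t : ℝ | ∃ ρ, riemannZeta ρ = 0 ∧ ‖ρ - pp t‖ ≤ c / L}
    · rw [indicator_of_mem ht]
      obtain ⟨ρ, hρ0, hρ⟩ := ht
      have a1 := (Complex.abs_re_le_norm _).trans hρ
      have a2 := (Complex.abs_im_le_norm _).trans hρ
      rw [Complex.sub_re, pp_re] at a1
      rw [Complex.sub_im, pp_im] at a2
      have a2' := abs_le.mp a2
      refine le_trans ?_ (ENNReal.le_tsum (⟨ρ, hρ0, a1.trans hcc'⟩ : ZS (c₀ / L)))
      rw [indicator_of_mem (show t ∈ Icc (ρ.im - c / L) (ρ.im + c / L) from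
        ⟨by linarith [a2'.2], by linarith [a2'.1]⟩)]
      apply ENNReal.ofReal_le_ofReal
      have b1 : ‖FB β T U (P t)‖ ^ β ≤ ‖FB β T U (p ρ)‖ ^ β := by
        apply Real.rpow_le_rpow (norm_nonneg _) _ hβ.le
        apply hpm
        rw [mem_closedBall, dist_eq_norm]
        calc ‖P t - ρ‖ = ‖(P t - pp t) - (ρ - pp t)‖ := by congr 1; ring
          _ ≤ R / L + c / L := (norm_sub_le _ _).trans (add_le_add (hP t) hρ)
          _ ≤ R / L + c₀ / L := by gcongr
          _ = (R + c₀) / L := by ring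
      have hκκ : κ⁻¹ * κ = 1 := inv_mul_cancel₀ hκ0.ne'
      simp only [hv]
      unfold Dt
      by_cases hy : |ρ.im - T| ≤ e / 2 * T
      · have hy2 : |t - T| ≤ 3 * e / 4 * T := by
          have h10 : 1 ≤ e * T := by
            rw [div_le_iff₀ he0] at hTe
            linarith
          have h11 : c / L ≤ 1 / 4 := by
            have : c / L ≤ (R + c₀) / L := by
              gcongr
              linarith
            linarith
          calc |t - T| = |(ρ.im - T) - (ρ.im - t)| := by ring_nf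
            _ ≤ e / 2 * T + c / L := (abs_sub _ _).trans (add_le_add hy a2)
            _ ≤ _ := by nlinarith
        rw [if_pos hy, if_pos hy2]
        calc D * ‖FB β T U (P t)‖ ^ β ≤ D * ‖FB β T U (p ρ)‖ ^ β := by gcongr
          _ = κ⁻¹ * κ * D * ‖FB β T U (p ρ)‖ ^ β := by rw [hκκ]; ring
          _ = _ := by ring
      · rw [if_neg hy]
        have h12 : (if |t - T| ≤ 3 * e / 4 * T then D else 4 ^ β) ≤ 4 ^ β := by
          split_ifs
          · exact hDle
          · exact le_rfl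
        calc (if |t - T| ≤ 3 * e / 4 * T then D else 4 ^ β) * ‖FB β T U (P t)‖ ^ β
            ≤ 4 ^ β * ‖FB β T U (p ρ)‖ ^ β := by gcongr
          _ = κ⁻¹ * κ * 4 ^ β * ‖FB β T U (p ρ)‖ ^ β := by rw [hκκ]; ring
          _ = _ := by ring
    · rw [indicator_of_notMem ht]
      exact zero_le
  refine (lintegral_mono hpt).trans ?_
  rw [lintegral_tsum fun ρ => (measurable_const.indicator measurableSet_Icc).aemeasurable]
  calc ∑' ρ : ZS (c₀ / L), ∫⁻ t : ℝ, (Icc ((ρ : ℂ).im - c / L) ((ρ : ℂ).im + c / L)).indicator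
        (fun _ => ENNReal.ofReal (κ⁻¹ * v ρ)) t
      = ∑' ρ : ZS (c₀ / L), ENNReal.ofReal (v ρ) := by
        refine tsum_congr fun ρ => ?_
        rw [lintegral_indicator measurableSet_Icc, setLIntegral_const, Real.volume_Icc, mul_comm,
          ← ENNReal.ofReal_mul (by linarith)]
        congr 1
        rw [hκ]
        field_simp
        ring
    _ ≤ ∑' ρ : ZS (c₀ / L), (mult (ρ : ℂ) : ℝ≥0∞) * ENNReal.ofReal (v ρ) := by
        refine ENNReal.tsum_le_tsum fun ρ => ?_
        have : 1 ≤ mult (ρ : ℂ) := Nat.one_le_iff_ne_zero.mpr (mult_ne_zero ρ.2.1)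
        have h9 : (1 : ℝ≥0∞) ≤ (mult (ρ : ℂ) : ℝ≥0∞) := by exact_mod_cast this
        calc ENNReal.ofReal (v ρ) = 1 * ENNReal.ofReal (v ρ) := (one_mul _).symm
          _ ≤ _ := by gcongr
    _ ≤ _ := hsum
    _ = _ := by
        congr 1
        rw [hκ]
        field_simp

end

end Q97.RD
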