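import Pool.Agent.Q97.RD.Rz

set_option autoImplicit false

open Filter MeasureTheory Metric Set Topology Polynomial
open scoped ENNReal Nat

namespace Q97.RD

noncomputable section

/-- Taylor polynomials with a geometric error. -/
theorem taylor_poly {F : ℂ → ℂ} (hF : Differentiable ℂ F) (c : ℂ) {R Λ : ℝ} (hR : 0 < R)
    (hΛ : ∀ z ∈ sphere c R, ‖F z‖ ≤ Λ) (N : ℕ) {q : ℝ} (hq0 : 0 ≤ q) (hq : q ≤ 1 / 2) :
    ∃ P : ℂ[X], P.degree < (N : ℕ) ∧ ∀ z : ℂ, ‖z - c‖ ≤ q * R → ‖F z - P.eval z‖ ≤ 2 * Λ * q ^ N := by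
  refine ⟨∑ n ∈ Finset.range N, C ((n ! : ℂ)⁻¹ * iteratedDeriv n F c) * (X - C c) ^ n, ?_, ?_⟩
  · rw [Polynomial.degree_lt_iff_coeff_zero]
    intro m hm
    rw [finsetSum_coeff]
    refine Finset.sum_eq_zero fun n hn => ?_
    rw [Finset.mem_range] at hn
    rw [coeff_C_mul]
    have h1 : ((X - C c) ^ n).coeff m = 0 := by
      apply coeff_eq_zero_of_natDegree_lt
      rw [natDegree_pow, natDegree_X_sub_C]
      omega
    rw [h1, mul_zero]
  · intro z hz
    have hs := Complex.hasSum_taylorSeries_of_entire hF c z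
    have hb : ∀ n : ℕ, ‖(n ! : ℂ)⁻¹ • (z - c) ^ n • iteratedDeriv n F c‖ ≤ Λ * q ^ n := by
      intro n
      have h1 := Complex.norm_iteratedDeriv_le_of_forall_mem_sphere_norm_le n hR
        hF.diffContOnCl hΛ
      rw [norm_smul, norm_smul, norm_inv, norm_pow, Complex.norm_natCast]
      have h2 : ‖z - c‖ ^ n ≤ q ^ n * R ^ n := by
        rw [← mul_pow]
        gcongr
      have h3 : 0 < (n ! : ℝ) := by exact_mod_cast Nat.factorial_pos n
      calc (n ! : ℝ)⁻¹ * (‖z - c‖ ^ n * ‖iteratedDeriv n F c‖)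
          ≤ (n ! : ℝ)⁻¹ * ((q ^ n * R ^ n) * (n ! * Λ / R ^ n)) := by gcongr
        _ = Λ * q ^ n := by field_simp
    have h4 := norm_sub_le_of_geometric_bound_of_hasSum (by linarith : q < 1) hb hs N
    have h5 : (∑ n ∈ Finset.range N, C ((n ! : ℂ)⁻¹ * iteratedDeriv n F c) * (X - C c) ^ n).eval z =
        ∑ n ∈ Finset.range N, (n ! : ℂ)⁻¹ • (z - c) ^ n • iteratedDeriv n F c := by
      rw [eval_finsetSum]
      refine Finset.sum_congr rfl fun n _ => ?_
      rw [eval_mul, eval_C, eval_pow, eval_sub, eval_X, eval_C, smul_eq_mul, smul_eq_mul]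
      ring
    rw [h5, norm_sub_rev]
    refine h4.trans ?_
    have hΛ0 : 0 ≤ Λ := by
      obtain ⟨w, hw⟩ := (NormedSpace.sphere_nonempty (x := c)).mpr hR.le
      exact (norm_nonneg _).trans (hΛ w hw)
    rw [div_le_iff₀ (by linarith)]
    have : 0 ≤ Λ * q ^ N := by positivity
    nlinarith

/-- **An inequality of Remez type.** -/
theorem remez {F : ℂ → ℂ} (hF : Differentiable ℂ F) {u h γ Λ B K : ℝ} (hh : 0 < h) (hγ : 0 < γ)
    (hγ1 : γ ≤ 1) (hK : 8 * Real.exp 1 / γ ≤ K)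
    (hΛ : ∀ z ∈ sphere (((1 / 2 : ℝ) : ℂ) + ((u + h / 2 : ℝ) : ℂ) * Complex.I) (K * h), ‖F z‖ ≤ Λ)
    {S : Set ℝ} (hS : S ⊆ Icc u (u + h)) (hSv : ENNReal.ofReal (γ * h) ≤ volume S)
    (hB : ∀ x ∈ S, ‖F (((1 / 2 : ℝ) : ℂ) + (x : ℂ) * Complex.I)‖ ≤ B) {N : ℕ} (hN : 0 < N) {y : ℝ}
    (hy : y ∈ Icc u (u + h)) :
    ‖F (((1 / 2 : ℝ) : ℂ) + (y : ℂ) * Complex.I)‖ ≤ (8 * Real.exp 1 / γ) ^ N * B + 4 / 2 ^ N * Λ := by
  set Q := 8 * Real.exp 1 / γ with hQ
  have he1 : 1 ≤ Real.exp 1 := Real.one_le_exp (by norm_num)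
  have hQ0 : 8 ≤ Q := by
    rw [hQ, le_div_iff₀ hγ]
    nlinarith
  have hK0 : 0 < K := by linarith
  have hKh : 0 < K * h := by positivity
  set c : ℂ := ((1 / 2 : ℝ) : ℂ) + ((u + h / 2 : ℝ) : ℂ) * Complex.I with hc
  have hq0 : 0 ≤ 1 / (2 * Q) := by positivity
  have hq1 : 1 / (2 * Q) ≤ 1 / 2 := by
    rw [div_le_div_iff₀ (by positivity) (by norm_num)]
    linarith
  obtain ⟨P, hPd, hP⟩ := taylor_poly hF c hKh hΛ N hq0 hq1
  have hΛ0 : 0 ≤ Λ := by
    obtain ⟨w, hw⟩ := (NormedSpace.sphere_nonempty (x := c)).mpr hKh.le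
    exact (norm_nonneg _).trans (hΛ w hw)
  have hdist : ∀ x ∈ Icc u (u + h), ‖((1 / 2 : ℝ) : ℂ) + (x : ℂ) * Complex.I - c‖ ≤
      1 / (2 * Q) * (K * h) := by
    intro x hx
    have e1 : ((1 / 2 : ℝ) : ℂ) + (x : ℂ) * Complex.I - c = ((x - (u + h / 2) : ℝ) : ℂ) * Complex.I := by
      rw [hc]
      push_cast
      ring
    rw [e1, norm_mul, Complex.norm_I, mul_one, Complex.norm_real, Real.norm_eq_abs]
    have h1 : |x - (u + h / 2)| ≤ h / 2 := abs_le.mpr ⟨by linarith [hx.1], by linarith [hx.2]⟩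
    refine h1.trans ?_
    rw [div_mul_eq_mul_div, one_mul, div_le_div_iff₀ (by norm_num) (by positivity)]
    nlinarith
  set err := 2 * Λ * (1 / (2 * Q)) ^ N with herr
  have herr0 : 0 ≤ err := by positivity
  -- the points
  set d := γ * h / (2 * N) with hd
  have hN' : (0 : ℝ) < N := by exact_mod_cast hN
  have hd0 : 0 < d := by positivity
  obtain ⟨x, hx, hx'⟩ := greedy hd0 N S (bddBelow_Icc.mono hS) (by
    have : 2 * (N : ℝ) * d = γ * h := by
      rw [hd]
      field_simp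
    rw [this]
    exact hSv)
  set v : ℕ → ℂ := fun i => ((1 / 2 : ℝ) : ℂ) + (x i : ℂ) * Complex.I with hv
  have hvd : ∀ i j, ‖v i - v j‖ = |x i - x j| := by
    intro i j
    have e1 : v i - v j = ((x i - x j : ℝ) : ℂ) * Complex.I := by
      simp only [hv]
      push_cast
      ring
    rw [e1, norm_mul, Complex.norm_I, mul_one, Complex.norm_real, Real.norm_eq_abs]
  have hL := lagrange_bd hN P hPd v (h := h) hd0 (fun i hi j hj => by
      rw [hvd]
      rcases lt_trichotomy i j with hij | hij | hij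
      · have h1 := hx' i j hij hj
        have h2 : |(i : ℝ) - j| = (j : ℝ) - i := by
          rw [abs_sub_comm, abs_of_nonneg]
          have : (i : ℝ) < j := by exact_mod_cast hij
          linarith
        rw [h2, abs_sub_comm]
        exact h1.trans (le_abs_self _)
      · rw [hij]
        simp
      · have h1 := hx' j i hij hi
        have h2 : |(i : ℝ) - j| = (i : ℝ) - j := by
          rw [abs_of_nonneg]
          have : (j : ℝ) < i := by exact_mod_cast hij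
          linarith
        rw [h2]
        exact h1.trans (le_abs_self _))
    (y := ((1 / 2 : ℝ) : ℂ) + (y : ℂ) * Complex.I) (fun i hi => by
      have e1 : ((1 / 2 : ℝ) : ℂ) + (y : ℂ) * Complex.I - v i = ((y - x i : ℝ) : ℂ) * Complex.I := by
        simp only [hv]
        push_cast
        ring
      rw [e1, norm_mul, Complex.norm_I, mul_one, Complex.norm_real, Real.norm_eq_abs]
      have h1 := hS (hx i hi)
      exact abs_le.mpr ⟨by linarith [h1.2, hy.1], by linarith [h1.1, hy.2]⟩) (B := B + err)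
    (fun i hi => by
      have h1 := hP (v i) (hdist _ (hS (hx i hi)))
      have h2 := hB _ (hx i hi)
      calc ‖P.eval (v i)‖ = ‖F (v i) - (F (v i) - P.eval (v i))‖ := by congr 1; ring
        _ ≤ ‖F (v i)‖ + ‖F (v i) - P.eval (v i)‖ := norm_sub_le _ _
        _ ≤ B + err := add_le_add h2 h1)
  -- the constant
  have hW : (N : ℝ) * ((2 * h / d) ^ (N - 1) / (N - 1).factorial) ≤ Q ^ N := by
    have e1 : 2 * h / d = 4 * N / γ := by
      rw [hd]
      field_simp
      ring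
    rw [e1]
    obtain ⟨m, rfl⟩ : ∃ m, N = m + 1 := ⟨N - 1, by omega⟩
    rw [Nat.add_sub_cancel]
    have h1 := Real.pow_div_factorial_le_exp (x := ((m + 1 : ℕ) : ℝ)) (by positivity) (m + 1)
    have h2 : Real.exp ((m + 1 : ℕ) : ℝ) = Real.exp 1 ^ (m + 1) := by
      rw [← Real.exp_nat_mul, mul_one]
    rw [h2, Nat.factorial_succ, pow_succ] at h1
    have h3 : 0 < (m.factorial : ℝ) := by exact_mod_cast Nat.factorial_pos m
    have h4 : ((m + 1 : ℕ) : ℝ) ^ m / m.factorial ≤ Real.exp 1 ^ (m + 1) := by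
      refine le_trans (le_of_eq ?_) h1
      push_cast
      field_simp
    have h5 : ((m + 1 : ℕ) : ℝ) ≤ 2 ^ (m + 1) := by
      exact_mod_cast (Nat.lt_two_pow_self (n := m + 1)).le
    have h6 : (4 / γ) ^ m ≤ (4 / γ) ^ (m + 1) := by
      apply pow_le_pow_right₀ _ (Nat.le_succ m)
      rw [le_div_iff₀ hγ]
      linarith
    calc ((m + 1 : ℕ) : ℝ) * ((4 * ((m + 1 : ℕ) : ℝ) / γ) ^ m / m.factorial)
        = ((m + 1 : ℕ) : ℝ) * ((4 / γ) ^ m * (((m + 1 : ℕ) : ℝ) ^ m / m.factorial)) := by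
          rw [show 4 * ((m + 1 : ℕ) : ℝ) / γ = 4 / γ * ((m + 1 : ℕ) : ℝ) by ring, mul_pow]
          ring
      _ ≤ 2 ^ (m + 1) * ((4 / γ) ^ (m + 1) * Real.exp 1 ^ (m + 1)) := by gcongr
      _ = Q ^ (m + 1) := by
          rw [hQ, ← mul_pow, ← mul_pow]
          congr 1
          ring
  have hB0 : 0 ≤ B := (norm_nonneg _).trans (hB _ (hx 0 hN))
  have h9 := hP _ (hdist y hy)
  have hQN : 1 ≤ Q ^ N := one_le_pow₀ (by linarith)
  calc ‖F (((1 / 2 : ℝ) : ℂ) + (y : ℂ) * Complex.I)‖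
      = ‖(F (((1 / 2 : ℝ) : ℂ) + (y : ℂ) * Complex.I) -
          P.eval (((1 / 2 : ℝ) : ℂ) + (y : ℂ) * Complex.I)) +
          P.eval (((1 / 2 : ℝ) : ℂ) + (y : ℂ) * Complex.I)‖ := by congr 1; ring
    _ ≤ err + Q ^ N * (B + err) := by
        refine (norm_add_le _ _).trans (add_le_add h9 (hL.trans ?_))
        gcongr
    _ ≤ Q ^ N * B + 2 * (Q ^ N * err) := by nlinarith
    _ = Q ^ N * B + 4 / 2 ^ N * Λ := by
        have e2 : Q * (1 / (2 * Q)) = 1 / 2 := by field_simp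
        have e3 : Q ^ N * err = 2 * Λ * (1 / 2) ^ N := by
          calc Q ^ N * err = 2 * Λ * (Q * (1 / (2 * Q))) ^ N := by
                rw [herr, mul_pow]
                ring
            _ = _ := by rw [e2]
        rw [e3, one_div_pow]
        ring

end

end Q97.RD
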