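import Pool.Agent.Q97.RD.Zd

set_option autoImplicit false

open Filter MeasureTheory Metric Set Topology Complex
open scoped ENNReal

namespace Q97.RD

open Q97.RB Q97.MM

noncomputable section

theorem count_pos_mem {c : ℂ} {r : ℝ} (h : 0 < count c r) :
    ∃ ρ ∈ closedBall c r, riemannZeta ρ = 0 := by
  by_contra hcon
  push Not at hcon
  have h0 : count c r = 0 := by
    unfold count
    rw [finsum_mem_def]
    refine finsum_eq_zero_of_forall_eq_zero fun ρ => ?_
    by_cases hρ : ρ ∈ closedBall c r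
    · rw [indicator_of_mem hρ, mult_eq_zero (hcon ρ hρ)]
    · exact indicator_of_notMem hρ _
  omega

/-- the maximum over a disc -/
theorem max_ball {F : ℂ → ℂ} (hF : Differentiable ℂ F) {r : ℝ} (hr : 0 ≤ r) (ρ : ℂ) :
    ∃ p : ℂ, ‖p - ρ‖ ≤ r ∧ ∀ z ∈ closedBall ρ r, ‖F z‖ ≤ ‖F p‖ := by
  obtain ⟨p, hp, hmax⟩ := (isCompact_closedBall ρ r).exists_isMaxOn
    ⟨_, mem_closedBall_self hr⟩ (f := fun z => ‖F z‖) hF.continuous.norm.continuousOn
  refine ⟨p, ?_, fun z hz => hmax hz⟩
  rwa [mem_closedBall, dist_eq_norm] at hp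

/-- Near `m` zeros the function is small compared with its maximum over a larger disc. -/
theorem small_near {F : ℂ → ℂ} (hF : Differentiable ℂ F) {β : ℝ} (hβ : 0 < β)
    (hm : ∀ u, analyticOrderNatAt F u = mult u) (hz : ∀ u, riemannZeta u = 0 → F u = 0) {c : ℂ}
    {r R : ℝ} (hr : 0 < r) (hrR : r ≤ R) {m : ℕ} (hcm : m ≤ count c r) {Λ : ℝ}
    (hΛ : ∀ z ∈ closedBall c R, ‖F z‖ ≤ Λ) :
    ‖F c‖ ^ β ≤ (r / R) ^ (β * m) * Λ ^ β := by
  have hR : 0 < R := lt_of_lt_of_le hr hrR
  have hΛ0 : 0 ≤ Λ := (norm_nonneg _).trans (hΛ _ (mem_closedBall_self hR.le))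
  by_cases h0 : riemannZeta c = 0
  · rw [hz c h0, norm_zero, Real.zero_rpow hβ.ne']
    positivity
  have hq : 0 ≤ Real.log (R / r) := Real.log_nonneg (by rw [le_div_iff₀ hr]; linarith)
  have h1 := count_le h0 hr hq
  have e1 : r * Real.exp (Real.log (R / r)) = R := by
    rw [Real.exp_log (by positivity)]
    field_simp
  rw [e1] at h1
  have h2 := jensen_ineq hF (c := c) hR hβ
  rw [NN_eq hF hm c hR] at h2
  have hci : CircleIntegrable (fun z => ‖F z‖ ^ β) c R :=
    ((pw_cont hF hβ).comp (continuous_circleMap c R)).intervalIntegrable _ _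
  have h3 : Real.circleAverage (fun z => ‖F z‖ ^ β) c R ≤ Λ ^ β := by
    apply Real.circleAverage_mono_on_of_le_circle hci
    intro z hz
    rw [abs_of_pos hR] at hz
    exact Real.rpow_le_rpow (norm_nonneg _) (hΛ z (sphere_subset_closedBall hz)) hβ.le
  have h4 : β * m * Real.log (R / r) ≤ β * logcount c R := by
    have h5 : (m : ℝ) ≤ count c r := by exact_mod_cast hcm
    have h6 : Real.log (R / r) * m ≤ logcount c R := (mul_le_mul_of_nonneg_left h5 hq).trans h1
    calc β * m * Real.log (R / r) = β * (Real.log (R / r) * m) := by ring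
      _ ≤ _ := by gcongr
  have h7 : ‖F c‖ ^ β * Real.exp (β * m * Real.log (R / r)) ≤ Λ ^ β := by
    refine le_trans ?_ (h2.trans h3)
    gcongr
  have e2 : Real.exp (β * m * Real.log (R / r)) = ((r / R) ^ (β * m))⁻¹ := by
    rw [← Real.inv_rpow (by positivity), inv_div, Real.rpow_def_of_pos (by positivity)]
    congr 1
    ring
  rw [e2, ← div_eq_mul_inv, div_le_iff₀ (by positivity)] at h7
  linarith

/-- **Repulsion of the zeros under the moment measure.** -/
theorem repulsion {β : ℝ} (hβ : 0 < β) {c R R' : ℝ} (hc : 0 < c) (hcR : c ≤ R) (hR' : 0 < R')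
    {m : ℕ} (hm : 0 < m) {ε : ℝ} (hε : 0 < ε) : ∀ᶠ T : ℝ in atTop, ∀ U : ℝ, Adm T U →
      ∫⁻ t : ℝ, {t : ℝ | m ≤ count (((1 / 2 : ℝ) : ℂ) + t * I) (c / Real.log T)}.indicator
        (fun t => ENNReal.ofReal (‖riemannZeta (((1 / 2 : ℝ) : ℂ) + t * I)‖ ^ β * wt T U t)) t ≤
      ENNReal.ofReal (2 * c * (c / R) ^ (β * m) * (KZ β c (R + c) R' + ε) * MB β T U (1 / 2)) := by
  have hR : 0 < R := lt_of_lt_of_le hc hcR
  obtain ⟨e, he0, he2, hcomb⟩ := comb hβ hc.le (by positivity : 0 ≤ R + c) hR' hε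
  filter_upwards [hcomb, (log_div_tendsto (R + c)).eventually
    (gt_mem_nhds (show (0 : ℝ) < 1 / 4 by norm_num)), eventually_ge_atTop 3,
    eventually_ge_atTop (1 / e)]
    with T h1 h2 hT hTe U h
  have hT0 : 0 < T := by linarith
  have hL := h.log
  have hL0 : 0 < Real.log T := by linarith
  rw [abs_of_nonneg (by positivity)] at h2
  have hd0 : 0 < (1 - e) * T := mul_pos (by linarith) hT0
  set L := Real.log T with hLd
  have hr0 : 0 < c / L := by positivity
  have hrR : c / L ≤ R / L := by gcongr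
  have hrr : (c / L) / (R / L) = c / R := by field_simp
  choose p hp hpm using max_ball (FB_diff β T U) (by positivity : 0 ≤ (R + c) / L)
  set D : ℝ := (((1 - e) * T) ^ β)⁻¹ with hD
  have hD0 : 0 < D := by positivity
  set κ : ℝ := 2 * (c / L) * (c / R) ^ (β * m) with hκ
  have hκ0 : 0 < κ := by positivity
  classical
  set v : ℂ → ℝ := fun ρ => if |ρ.im - T| ≤ e / 2 * T then κ * D * ‖FB β T U (p ρ)‖ ^ β
    else κ * 4 ^ β * ‖FB β T U (p ρ)‖ ^ β with hv
  -- the sum of `v`
  have hDle : D ≤ 4 ^ β := by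
    rw [hD, ← Real.inv_rpow hd0.le]
    apply Real.rpow_le_rpow (by positivity) _ hβ.le
    rw [inv_le_comm₀ hd0 (by norm_num)]
    nlinarith
  have hsum := h1 U h p (fun ρ _ => hp ρ) κ v hκ0
    (fun ρ _ => by
      simp only [hv]
      split_ifs
      · gcongr
      · exact le_rfl)
    (fun ρ _ hy => by
      simp only [hv]
      rw [if_pos hy])
  -- the pointwise bound
  have hcount : Countable (ZS (c / L)) := (ZS_countable _).to_subtype
  have hpt : ∀ t : ℝ, {t : ℝ | m ≤ count (((1 / 2 : ℝ) : ℂ) + t * I) (c / L)}.indicator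
      (fun t => ENNReal.ofReal (‖riemannZeta (((1 / 2 : ℝ) : ℂ) + t * I)‖ ^ β * wt T U t)) t ≤
      ∑' ρ : ZS (c / L), (Icc ((ρ : ℂ).im - c / L) ((ρ : ℂ).im + c / L)).indicator
        (fun _ => ENNReal.ofReal ((2 * (c / L))⁻¹ * v ρ)) t := by
    intro t
    by_cases ht : t ∈ {t : ℝ | m ≤ count (((1 / 2 : ℝ) : ℂ) + t * I) (c / L)}
    · rw [indicator_of_mem ht]
      have ht' : m ≤ count (((1 / 2 : ℝ) : ℂ) + t * I) (c / L) := ht
      obtain ⟨ρ, hρ, hρ0⟩ := count_pos_mem (c := ((1 / 2 : ℝ) : ℂ) + t * I) (r := c / L) (by omega)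
      rw [mem_closedBall, dist_eq_norm] at hρ
      have a1 := (Complex.abs_re_le_norm _).trans hρ
      have a2 := (Complex.abs_im_le_norm _).trans hρ
      have e1 : (ρ - (((1 / 2 : ℝ) : ℂ) + t * I)).re = ρ.re - 1 / 2 := by simp
      have e2 : (ρ - (((1 / 2 : ℝ) : ℂ) + t * I)).im = ρ.im - t := by simp
      rw [e1] at a1
      rw [e2] at a2
      have a2' := abs_le.mp a2
      refine le_trans ?_ (ENNReal.le_tsum (⟨ρ, hρ0, a1⟩ : ZS (c / L)))
      rw [indicator_of_mem (show t ∈ Icc (ρ.im - c / L) (ρ.im + c / L) from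
        ⟨by linarith [a2'.2], by linarith [a2'.1]⟩)]
      apply ENNReal.ofReal_le_ofReal
      -- the value at `t`
      have b1 : ‖FB β T U (((1 / 2 : ℝ) : ℂ) + t * I)‖ ^ β ≤
          (c / R) ^ (β * m) * ‖FB β T U (p ρ)‖ ^ β := by
        have := small_near (FB_diff β T U) hβ (ord_FB β T U) (fun u hu => FB_zero β T U hu)
          (c := ((1 / 2 : ℝ) : ℂ) + t * I) hr0 hrR ht' (Λ := ‖FB β T U (p ρ)‖) (fun z hz => by
            apply hpm
            rw [mem_closedBall, dist_eq_norm] at hz ⊢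
            calc ‖z - ρ‖ = ‖(z - (((1 / 2 : ℝ) : ℂ) + t * I)) -
                  (ρ - (((1 / 2 : ℝ) : ℂ) + t * I))‖ := by congr 1; ring
              _ ≤ R / L + c / L := (norm_sub_le _ _).trans (add_le_add hz hρ)
              _ = (R + c) / L := by ring)
        rwa [hrr] at this
      have b2 : (2 * (c / L))⁻¹ * κ = (c / R) ^ (β * m) := by
        rw [hκ]
        field_simp
      have hre : |((((1 / 2 : ℝ) : ℂ) + t * I) : ℂ).re - 1 / 2| ≤ 1 / 4 := by simp
      have him : ((((1 / 2 : ℝ) : ℂ) + t * I) : ℂ).im = t := by simp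
      simp only [hv]
      split_ifs with hy
      · have b3 := zeta_le hβ (T := T) h.pos hre hd0 (by
          have h7 := Complex.abs_im_le_norm ((((1 / 2 : ℝ) : ℂ) + t * I) - 1)
          rw [Complex.sub_im, Complex.one_im, sub_zero, him] at h7
          refine le_trans ?_ ((le_abs_self _).trans h7)
          have h8 := (abs_le.mp hy).1
          have h10 : 1 ≤ e * T := by
            rw [div_le_iff₀ he0] at hTe
            linarith
          have h11 : c / L ≤ 1 / 4 := by
            have : c / L ≤ (R + c) / L := by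
              gcongr
              linarith
            linarith
          nlinarith [a2'.1, a2'.2])
        rw [him] at b3
        calc ‖riemannZeta (((1 / 2 : ℝ) : ℂ) + t * I)‖ ^ β * wt T U t
            ≤ D * ‖FB β T U (((1 / 2 : ℝ) : ℂ) + t * I)‖ ^ β := b3
          _ ≤ D * ((c / R) ^ (β * m) * ‖FB β T U (p ρ)‖ ^ β) := by gcongr
          _ = _ := by
              rw [← b2]
              ring
      · have b3 := zeta_le hβ (T := T) h.pos hre (d := 1 / 4) (by norm_num) (dist_one hre)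
        rw [him] at b3
        have b4 : ((1 / 4 : ℝ) ^ β)⁻¹ = 4 ^ β := by
          rw [← Real.inv_rpow (by norm_num)]
          norm_num
        rw [b4] at b3
        calc ‖riemannZeta (((1 / 2 : ℝ) : ℂ) + t * I)‖ ^ β * wt T U t
            ≤ 4 ^ β * ‖FB β T U (((1 / 2 : ℝ) : ℂ) + t * I)‖ ^ β := b3
          _ ≤ 4 ^ β * ((c / R) ^ (β * m) * ‖FB β T U (p ρ)‖ ^ β) := by gcongr
          _ = _ := by
              rw [← b2]
              ring
    · rw [indicator_of_notMem ht]
      exact zero_le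
  refine (lintegral_mono hpt).trans ?_
  rw [lintegral_tsum fun ρ => (measurable_const.indicator measurableSet_Icc).aemeasurable]
  calc ∑' ρ : ZS (c / L), ∫⁻ t : ℝ, (Icc ((ρ : ℂ).im - c / L) ((ρ : ℂ).im + c / L)).indicator
        (fun _ => ENNReal.ofReal ((2 * (c / L))⁻¹ * v ρ)) t
      = ∑' ρ : ZS (c / L), ENNReal.ofReal (v ρ) := by
        refine tsum_congr fun ρ => ?_
        rw [lintegral_indicator measurableSet_Icc, setLIntegral_const, Real.volume_Icc, mul_comm,
          ← ENNReal.ofReal_mul (by linarith)]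
        congr 1
        field_simp
        ring
    _ ≤ ∑' ρ : ZS (c / L), (mult (ρ : ℂ) : ℝ≥0∞) * ENNReal.ofReal (v ρ) := by
        refine ENNReal.tsum_le_tsum fun ρ => ?_
        have : 1 ≤ mult (ρ : ℂ) := Nat.one_le_iff_ne_zero.mpr (mult_ne_zero ρ.2.1)
        have h9 : (1 : ℝ≥0∞) ≤ (mult (ρ : ℂ) : ℝ≥0∞) := by exact_mod_cast this
        calc ENNReal.ofReal (v ρ) = 1 * ENNReal.ofReal (v ρ) := (one_mul _).symm
          _ ≤ _ := by gcongr
    _ ≤ _ := hsum
    _ = _ := by
        congr 1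
        rw [hκ]
        field_simp

end

end Q97.RD
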