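import Pool.Agent.Q97.RD.Nm

set_option autoImplicit false

open Filter MeasureTheory Metric Set Topology Complex
open scoped ENNReal

namespace Q97.RD

open Q97.RB Q97.MM

noncomputable section

/-- **Repulsion, uniformly in the distance and in the number of zeros.** -/
theorem repulsion_unif {β : ℝ} (hβ : 0 < β) {R R' : ℝ} (hR : 0 < R) (hR' : 0 < R')
    {ε : ℝ} (hε : 0 < ε) : ∀ᶠ T : ℝ in atTop, ∀ U : ℝ, Adm T U → ∀ c : ℝ, 0 < c → c ≤ R →
      ∀ m : ℕ, 0 < m →
      ∫⁻ t : ℝ, {t : ℝ | m ≤ count (pp t) (c / Real.log T)}.indicator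
        (fun t => ENNReal.ofReal (‖riemannZeta (pp t)‖ ^ β * wt T U t)) t ≤
      ENNReal.ofReal ((c / R) ^ (β * m) * (2 * c * (KZ β R (R + R) R' + ε) *
        MB β T U (1 / 2))) := by
  obtain ⟨e, he0, he2, hnear⟩ := near_mass hβ hR hR hR' hε
  filter_upwards [hnear, eventually_ge_atTop 3] with T h1 hT U h c hc hcR m hm
  have hT0 : 0 < T := by linarith
  have hL := h.log
  have hL0 : 0 < Real.log T := by linarith
  set L := Real.log T with hLd
  have hr0 : 0 < c / L := by positivity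
  have hrR : c / L ≤ R / L := by gcongr
  have hrr : (c / L) / (R / L) = c / R := by field_simp
  choose p hp hpm using fun t : ℝ => max_ball (FB_diff β T U) (by positivity : 0 ≤ R / L) (pp t)
  have h2 := h1 U h p hp c hc hcR
  have hq : 0 ≤ (c / R) ^ (β * m) := by positivity
  rw [ENNReal.ofReal_mul hq]
  refine le_trans ?_ (mul_le_mul_right h2 _)
  rw [← lintegral_const_mul' _ _ ENNReal.ofReal_ne_top]
  refine lintegral_mono fun t => ?_
  by_cases ht : t ∈ {t : ℝ | m ≤ count (pp t) (c / L)}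
  · have ht' : m ≤ count (pp t) (c / L) := ht
    obtain ⟨ρ, hρ, hρ0⟩ := count_pos_mem (c := pp t) (r := c / L) (by omega)
    rw [mem_closedBall, dist_eq_norm] at hρ
    have ht2 : t ∈ {t : ℝ | ∃ ρ, riemannZeta ρ = 0 ∧ ‖ρ - pp t‖ ≤ c / L} := ⟨ρ, hρ0, hρ⟩
    rw [indicator_of_mem ht, indicator_of_mem ht2, ← ENNReal.ofReal_mul hq]
    apply ENNReal.ofReal_le_ofReal
    have b1 := small_near (FB_diff β T U) hβ (ord_FB β T U) (fun u hu => FB_zero β T U hu)
      (c := pp t) hr0 hrR ht' (Λ := ‖FB β T U (p t)‖) (hpm t)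
    rw [hrr] at b1
    have hD := Dt_nonneg (β := β) (e := e) (by linarith) hT0 t
    calc ‖riemannZeta (pp t)‖ ^ β * wt T U t ≤ Dt β T e t * ‖FB β T U (pp t)‖ ^ β :=
          zeta_Dt hβ he0 he2 hT0 h.pos t
      _ ≤ Dt β T e t * ((c / R) ^ (β * m) * ‖FB β T U (p t)‖ ^ β) := by gcongr
      _ = _ := by ring
  · rw [indicator_of_notMem ht]
    exact zero_le

/-- the values of `ζ` near the points near the zeros -/
theorem near_zeta {β : ℝ} (hβ : 0 < β) {R : ℝ} (hR : 0 < R) : ∃ C : ℝ, 0 < C ∧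
    ∀ᶠ T : ℝ in atTop, ∀ U : ℝ, Adm T U → ∀ c : ℝ, 0 < c → c ≤ R →
      ∀ z : ℝ → ℂ, (∀ t, ‖z t - pp t‖ ≤ R / Real.log T) →
      ∫⁻ t : ℝ, {t : ℝ | ∃ ρ, riemannZeta ρ = 0 ∧ ‖ρ - pp t‖ ≤ c / Real.log T}.indicator
        (fun t => ENNReal.ofReal (‖riemannZeta (z t)‖ ^ β * wt T U (z t).im)) t ≤
      ENNReal.ofReal (C * c * MB β T U (1 / 2)) := by
  obtain ⟨e, he0, he2, hnear⟩ := near_mass hβ hR hR one_pos one_pos
  set K := 2 * (KZ β R (R + R) 1 + 1) with hK
  have hK0 : 0 < K := by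
    have : 0 ≤ KZ β R (R + R) 1 := by
      unfold KZ
      have hπ := Real.pi_pos
      positivity
    positivity
  refine ⟨K, hK0, ?_⟩
  filter_upwards [hnear, eventually_ge_atTop 3, (log_div_tendsto R).eventually
    (gt_mem_nhds (show (0 : ℝ) < 1 / 4 by norm_num)), eventually_ge_atTop (1 / e)]
    with T h1 hT h3 hTe U h c hc hcR z hz
  have hT0 : 0 < T := by linarith
  have hL := h.log
  have hL0 : 0 < Real.log T := by linarith
  set L := Real.log T with hLd
  have h2 := h1 U h z hz c hc hcR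
  rw [abs_of_nonneg (by positivity)] at h3
  refine le_trans (lintegral_mono fun t => ?_) (h2.trans (le_of_eq (by rw [hK]; congr 1; ring)))
  by_cases ht : t ∈ {t : ℝ | ∃ ρ, riemannZeta ρ = 0 ∧ ‖ρ - pp t‖ ≤ c / L}
  · rw [indicator_of_mem ht, indicator_of_mem ht]
    apply ENNReal.ofReal_le_ofReal
    have a1 := (Complex.abs_re_le_norm _).trans (hz t)
    have a2 := (Complex.abs_im_le_norm _).trans (hz t)
    rw [Complex.sub_re, pp_re] at a1
    rw [Complex.sub_im, pp_im] at a2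
    have hre : |(z t).re - 1 / 2| ≤ 1 / 4 := by linarith
    have h10 : 1 ≤ e * T := by
      rw [div_le_iff₀ he0] at hTe
      linarith
    unfold Dt
    split_ifs with hy
    · have hd0 : 0 < (1 - e) * T := mul_pos (by linarith) hT0
      exact zeta_le hβ (T := T) h.pos hre hd0 (by
        have h7 := Complex.abs_im_le_norm (z t - 1)
        rw [Complex.sub_im, Complex.one_im, sub_zero] at h7
        refine le_trans ?_ ((le_abs_self _).trans h7)
        have h8 := (abs_le.mp hy).1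
        have h9 := (abs_le.mp a2).1
        nlinarith)
    · have b3 := zeta_le hβ (T := T) h.pos hre (d := 1 / 4) (by norm_num) (dist_one hre)
      have b4 : ((1 / 4 : ℝ) ^ β)⁻¹ = 4 ^ β := by
        rw [← Real.inv_rpow (by norm_num)]
        norm_num
      rwa [b4] at b3
  · rw [indicator_of_notMem ht]
    exact zero_le

end

end Q97.RD
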