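import Mathlib

set_option autoImplicit false

open Filter MeasureTheory Metric Set Topology Polynomial
open scoped ENNReal

namespace Q97.RD

noncomputable section

/-- The product of the distances of `i` to the other indices. -/
theorem prod_dist (N i : ℕ) (hi : i < N) :
    ∏ j ∈ (Finset.range N).erase i, |(i : ℝ) - j| = (i.factorial : ℝ) * ((N - 1 - i).factorial : ℝ) := by
  obtain ⟨m, rfl⟩ : ∃ m, N = i + 1 + m := ⟨N - (i + 1), by omega⟩
  have h1 : i + 1 + m - 1 - i = m := by omega
  rw [h1]
  clear h1 hi
  induction m with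
  | zero =>
    have h2 : (Finset.range (i + 1 + 0)).erase i = Finset.range i := by
      ext j
      simp only [Finset.mem_erase, Finset.mem_range]
      omega
    rw [h2, Nat.factorial_zero, Nat.cast_one, mul_one, ← Finset.prod_range_reflect,
      ← Finset.prod_range_add_one_eq_factorial, Nat.cast_prod]
    refine Finset.prod_congr rfl fun j hj => ?_
    rw [Finset.mem_range] at hj
    have h3 : ((i - 1 - j : ℕ) : ℝ) = (i : ℝ) - 1 - j := by
      rw [Nat.sub_sub, Nat.cast_sub (by omega)]
      push_cast
      ring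
    rw [h3]
    push_cast
    rw [show (i : ℝ) - (i - 1 - j) = j + 1 by ring, abs_of_nonneg (by positivity)]
  | succ m ih =>
    have h2 : (Finset.range (i + 1 + (m + 1))).erase i =
        insert (i + 1 + m) ((Finset.range (i + 1 + m)).erase i) := by
      ext j
      simp only [Finset.mem_erase, Finset.mem_range, Finset.mem_insert]
      omega
    have h3 : i + 1 + m ∉ (Finset.range (i + 1 + m)).erase i := by
      simp
    rw [h2, Finset.prod_insert h3, ih, Nat.factorial_succ]
    push_cast
    rw [show (i : ℝ) - (i + 1 + m) = -(m + 1) by ring, abs_neg, abs_of_nonneg (by positivity)]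
    ring

theorem prod_dist_ge (N i : ℕ) (hi : i < N) :
    ((N - 1).factorial : ℝ) / 2 ^ (N - 1) ≤ ∏ j ∈ (Finset.range N).erase i, |(i : ℝ) - j| := by
  rw [prod_dist N i hi, div_le_iff₀ (by positivity)]
  have h1 : i ≤ N - 1 := by omega
  have h2 := Nat.choose_mul_factorial_mul_factorial h1
  have h3 : (N - 1).choose i ≤ 2 ^ (N - 1) := Nat.choose_le_two_pow (N - 1) i
  have h4 : (N - 1).factorial ≤ 2 ^ (N - 1) * (i.factorial * (N - 1 - i).factorial) := by
    calc (N - 1).factorial = (N - 1).choose i * (i.factorial * (N - 1 - i).factorial) := by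
          rw [← h2]; ring
      _ ≤ _ := Nat.mul_le_mul_right _ h3
  have h5 : ((N - 1).factorial : ℝ) ≤
      (2 : ℝ) ^ (N - 1) * ((i.factorial : ℝ) * ((N - 1 - i).factorial : ℝ)) := by exact_mod_cast h4
  linarith

/-- Lagrange interpolation at separated points. -/
theorem lagrange_bd {N : ℕ} (hN : 0 < N) (P : ℂ[X]) (hP : P.degree < (N : ℕ)) (v : ℕ → ℂ) {h d : ℝ}
    (hd : 0 < d) (hsep : ∀ i < N, ∀ j < N, |(i : ℝ) - j| * d ≤ ‖v i - v j‖) {y : ℂ}
    (hy : ∀ i < N, ‖y - v i‖ ≤ h) {B : ℝ} (hB : ∀ i < N, ‖P.eval (v i)‖ ≤ B) :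
    ‖P.eval y‖ ≤ N * ((2 * h / d) ^ (N - 1) / (N - 1).factorial) * B := by
  have hB0 : 0 ≤ B := (norm_nonneg _).trans (hB 0 hN)
  have hh0 : 0 ≤ h := (norm_nonneg _).trans (hy 0 hN)
  have hinj : Set.InjOn v (Finset.range N : Finset ℕ) := by
    intro i hi j hj hij
    rw [Finset.mem_coe, Finset.mem_range] at hi hj
    by_contra hne
    have h1 := hsep i hi j hj
    rw [hij, sub_self, norm_zero] at h1
    have h2 : 0 < |(i : ℝ) - j| := by
      apply abs_pos.mpr
      rw [sub_ne_zero]
      exact_mod_cast hne
    nlinarith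
  have h1 := Lagrange.eq_interpolate (s := Finset.range N) hinj (by rwa [Finset.card_range])
  rw [h1, Lagrange.interpolate_apply, eval_finsetSum]
  refine (norm_sum_le _ _).trans ?_
  have h2 : ∀ i ∈ Finset.range N, ‖(C (P.eval (v i)) * Lagrange.basis (Finset.range N) v i).eval y‖ ≤
      ((2 * h / d) ^ (N - 1) / (N - 1).factorial) * B := by
    intro i hi
    rw [Finset.mem_range] at hi
    rw [eval_mul, eval_C, norm_mul, mul_comm]
    gcongr
    · rw [Lagrange.basis, eval_prod, norm_prod]
      have h3 : ∏ j ∈ (Finset.range N).erase i, ‖(Lagrange.basisDivisor (v i) (v j)).eval y‖ ≤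
          ∏ j ∈ (Finset.range N).erase i, (h / (|(i : ℝ) - j| * d)) := by
        refine Finset.prod_le_prod (fun j _ => norm_nonneg _) fun j hj => ?_
        rw [Finset.mem_erase, Finset.mem_range] at hj
        have h4 : 0 < |(i : ℝ) - j| := by
          apply abs_pos.mpr
          rw [sub_ne_zero]
          exact_mod_cast hj.1.symm
        rw [Lagrange.basisDivisor, eval_mul, eval_C, eval_sub, eval_X, eval_C, norm_mul, norm_inv,
          ← div_eq_inv_mul]
        have h5 := hsep i hi j hj.2
        have h6 := hy j hj.2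
        gcongr
      refine h3.trans ?_
      have h7 : ∏ j ∈ (Finset.range N).erase i, (h / (|(i : ℝ) - j| * d)) =
          (h / d) ^ (N - 1) / ∏ j ∈ (Finset.range N).erase i, |(i : ℝ) - j| := by
        rw [Finset.prod_div_distrib, Finset.prod_mul_distrib, Finset.prod_const, Finset.prod_const,
          Finset.card_erase_of_mem (Finset.mem_range.mpr hi), Finset.card_range, div_pow]
        rw [div_div]
        ring_nf
      rw [h7]
      have h8 := prod_dist_ge N i hi
      calc (h / d) ^ (N - 1) / ∏ j ∈ (Finset.range N).erase i, |(i : ℝ) - j|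
          ≤ (h / d) ^ (N - 1) / (((N - 1).factorial : ℝ) / 2 ^ (N - 1)) := by gcongr
        _ = _ := by
            rw [mul_div_assoc, mul_pow, div_div_eq_mul_div, mul_comm]
    · exact hB i hi
  calc ∑ i ∈ Finset.range N, ‖(C (P.eval (v i)) * Lagrange.basis (Finset.range N) v i).eval y‖
      ≤ ∑ _i ∈ Finset.range N, ((2 * h / d) ^ (N - 1) / (N - 1).factorial) * B :=
        Finset.sum_le_sum h2
    _ = _ := by
        rw [Finset.sum_const, Finset.card_range, nsmul_eq_mul]
        ring

/-- The greedy choice of separated points. -/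
theorem greedy {d : ℝ} (hd : 0 < d) : ∀ (n : ℕ) (S : Set ℝ), BddBelow S →
    ENNReal.ofReal (2 * n * d) ≤ volume S → ∃ x : ℕ → ℝ, (∀ i < n, x i ∈ S) ∧
      ∀ i j : ℕ, i < j → j < n → ((j : ℝ) - i) * d ≤ x j - x i := by
  intro n
  induction n with
  | zero =>
    intro S _ _
    exact ⟨fun _ => 0, fun i hi => absurd hi (Nat.not_lt_zero i),
      fun i j _ hj => absurd hj (Nat.not_lt_zero j)⟩
  | succ n ih =>
    intro S hS hv
    have hne : S.Nonempty := by
      by_contra h
      rw [Set.not_nonempty_iff_eq_empty] at h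
      rw [h, measure_empty, nonpos_iff_eq_zero, ENNReal.ofReal_eq_zero] at hv
      push_cast at hv
      have : 0 < 2 * ((n : ℝ) + 1) * d := by positivity
      linarith
    obtain ⟨x0, hx0, hx0'⟩ := exists_lt_of_csInf_lt hne (lt_add_of_pos_right (sInf S) hd)
    have hsub : S ⊆ (S ∩ Ici (x0 + d)) ∪ Ico (sInf S) (x0 + d) := by
      intro y hy
      by_cases h : x0 + d ≤ y
      · exact Or.inl ⟨hy, h⟩
      · push Not at h
        exact Or.inr ⟨csInf_le hS hy, h⟩
    have h1 : volume S ≤ volume (S ∩ Ici (x0 + d)) + ENNReal.ofReal (2 * d) := by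
      refine (measure_mono hsub).trans ((measure_union_le _ _).trans ?_)
      gcongr
      rw [Real.volume_Ico]
      apply ENNReal.ofReal_le_ofReal
      linarith
    have h2 : ENNReal.ofReal (2 * n * d) ≤ volume (S ∩ Ici (x0 + d)) := by
      have h3 : ENNReal.ofReal (2 * n * d) + ENNReal.ofReal (2 * d) ≤
          volume (S ∩ Ici (x0 + d)) + ENNReal.ofReal (2 * d) := by
        rw [← ENNReal.ofReal_add (by positivity) (by positivity)]
        refine le_trans (le_of_eq ?_) (hv.trans h1)
        congr 1
        push_cast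
        ring
      exact (ENNReal.add_le_add_iff_right ENNReal.ofReal_ne_top).mp h3
    obtain ⟨x, hx, hx'⟩ := ih _ (hS.mono inter_subset_left) h2
    refine ⟨fun i => Nat.casesOn i x0 x, ?_, ?_⟩
    · intro i hi
      cases i with
      | zero => exact hx0
      | succ i => exact (hx i (by omega)).1
    · intro i j hij hj
      cases j with
      | zero => exact absurd hij (Nat.not_lt_zero i)
      | succ j =>
        cases i with
        | zero =>
          change ((j + 1 : ℕ) - ((0 : ℕ) : ℝ)) * d ≤ x j - x0
          have h4 : x0 + d ≤ x 0 := (hx 0 (by omega)).2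
          rcases Nat.eq_zero_or_pos j with rfl | hj0
          · push_cast
            linarith
          · have h5 := hx' 0 j hj0 (by omega)
            push_cast at h5 ⊢
            linarith
        | succ i =>
          change (((j + 1 : ℕ) : ℝ) - ((i + 1 : ℕ) : ℝ)) * d ≤ x j - x i
          have h5 := hx' i j (by omega) (by omega)
          push_cast
          have : ((j : ℝ) + 1 - (i + 1)) * d = ((j : ℝ) - i) * d := by ring
          rw [this]
          exact h5

end

end Q97.RD
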