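import Pool.Agent.Q97.RD.Th
import Pool.Agent.Q97.RD.Lm

set_option autoImplicit false

open Filter MeasureTheory Metric Set Topology
open scoped ENNReal Nat

namespace Q97.RD

open Q97.RB Q97.MM

noncomputable section

theorem pp_sub (x y : ℝ) : pp x - pp y = ((x - y : ℝ) : ℂ) * Complex.I := by
  unfold pp
  push_cast
  ring

theorem pp_sub_norm (x y : ℝ) : ‖pp x - pp y‖ = |x - y| := by
  rw [pp_sub, norm_mul, Complex.norm_I, mul_one, Complex.norm_real, Real.norm_eq_abs]

open Polynomial in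
/-- **An inequality of Remez type**, for a set on a parallel line. -/
theorem remez2 {F : ℂ → ℂ} (hF : Differentiable ℂ F) {u h γ Λ B K : ℝ} (hh : 0 < h) (hγ : 0 < γ)
    (hγ1 : γ ≤ 1) (hK : 32 * Real.exp 1 / γ ≤ K)
    (hΛ : ∀ z ∈ sphere (pp (u + h / 2)) (K * h), ‖F z‖ ≤ Λ) {w : ℂ} (hw : ‖w‖ ≤ h / 4)
    {S : Set ℝ} (hS : S ⊆ Icc u (u + h)) (hSv : ENNReal.ofReal (γ * h) ≤ volume S)
    (hB : ∀ x ∈ S, ‖F (pp x + w)‖ ≤ B) {N : ℕ} (hN : 0 < N) {y : ℂ}
    (hy : ‖y - pp (u + h / 2)‖ ≤ h) :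
    ‖F y‖ ≤ (16 * Real.exp 1 / γ) ^ N * B + 4 / 2 ^ N * Λ := by
  set Q := 16 * Real.exp 1 / γ with hQ
  have he1 : 1 ≤ Real.exp 1 := Real.one_le_exp (by norm_num)
  have hQ0 : 8 ≤ Q := by
    rw [hQ, le_div_iff₀ hγ]
    nlinarith
  have hKQ : 2 * Q ≤ K := by
    refine le_trans (le_of_eq ?_) hK
    rw [hQ]
    ring
  have hK0 : 0 < K := by linarith
  have hKh : 0 < K * h := by positivity
  set c : ℂ := pp (u + h / 2) with hc
  have hq0 : 0 ≤ 1 / (2 * Q) := by positivity
  have hq1 : 1 / (2 * Q) ≤ 1 / 2 := by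
    rw [div_le_div_iff₀ (by positivity) (by norm_num)]
    linarith
  obtain ⟨P, hPd, hP⟩ := taylor_poly hF c hKh hΛ N hq0 hq1
  have hΛ0 : 0 ≤ Λ := by
    obtain ⟨w, hw⟩ := (NormedSpace.sphere_nonempty (x := c)).mpr hKh.le
    exact (norm_nonneg _).trans (hΛ w hw)
  have hrad : h ≤ 1 / (2 * Q) * (K * h) := by
    rw [div_mul_eq_mul_div, one_mul, le_div_iff₀ (by positivity)]
    nlinarith
  have hxc : ∀ x ∈ Icc u (u + h), ‖pp x + w - c‖ ≤ 3 / 4 * h := by
    intro x hx
    have h1 : |x - (u + h / 2)| ≤ h / 2 := abs_le.mpr ⟨by linarith [hx.1], by linarith [hx.2]⟩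
    calc ‖pp x + w - c‖ = ‖(pp x - pp (u + h / 2)) + w‖ := by rw [hc]; congr 1; ring
      _ ≤ h / 2 + h / 4 := (norm_add_le _ _).trans (add_le_add ((pp_sub_norm _ _).le.trans h1) hw)
      _ = _ := by ring
  set err := 2 * Λ * (1 / (2 * Q)) ^ N with herr
  have herr0 : 0 ≤ err := by positivity
  -- the points
  set d := γ * h / (2 * N) with hd
  have hN' : (0 : ℝ) < N := by exact_mod_cast hN
  have hd0 : 0 < d := by positivity
  obtain ⟨x, hx, hx'⟩ := greedy hd0 N S (bddBelow_Icc.mono hS) (by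
    have : 2 * (N : ℝ) * d = γ * h := by
      rw [hd]
      field_simp
    rw [this]
    exact hSv)
  set v : ℕ → ℂ := fun i => pp (x i) + w with hv
  have hvd : ∀ i j, ‖v i - v j‖ = |x i - x j| := by
    intro i j
    have e1 : v i - v j = pp (x i) - pp (x j) := by
      simp only [hv]
      ring
    rw [e1, pp_sub_norm]
  have hL := lagrange_bd hN P hPd v (h := 2 * h) hd0 (fun i hi j hj => by
      rw [hvd]
      rcases lt_trichotomy i j with hij | hij | hij
      · have h1 := hx' i j hij hj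
        have h2 : |(i : ℝ) - j| = (j : ℝ) - i := by
          rw [abs_sub_comm, abs_of_nonneg]
          have : (i : ℝ) < j := by exact_mod_cast hij
          linarith
        rw [h2, abs_sub_comm]
        exact h1.trans (le_abs_self _)
      · rw [hij]
        simp
      · have h1 := hx' j i hij hi
        have h2 : |(i : ℝ) - j| = (i : ℝ) - j := by
          rw [abs_of_nonneg]
          have : (j : ℝ) < i := by exact_mod_cast hij
          linarith
        rw [h2]
        exact h1.trans (le_abs_self _))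
    (y := y) (fun i hi => by
      have h1 := hxc _ (hS (hx i hi))
      calc ‖y - v i‖ = ‖(y - c) - (pp (x i) + w - c)‖ := by
            simp only [hv]
            congr 1
            ring
        _ ≤ h + 3 / 4 * h := (norm_sub_le _ _).trans (add_le_add hy h1)
        _ ≤ 2 * h := by linarith) (B := B + err)
    (fun i hi => by
      have h1 := hP (v i) ((hxc _ (hS (hx i hi))).trans (by linarith))
      have h2 := hB _ (hx i hi)
      calc ‖P.eval (v i)‖ = ‖F (v i) - (F (v i) - P.eval (v i))‖ := by congr 1; ring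
        _ ≤ ‖F (v i)‖ + ‖F (v i) - P.eval (v i)‖ := norm_sub_le _ _
        _ ≤ B + err := add_le_add h2 h1)
  -- the constant
  have hW : (N : ℝ) * ((2 * (2 * h) / d) ^ (N - 1) / (N - 1).factorial) ≤ Q ^ N := by
    have e1 : 2 * (2 * h) / d = 8 * N / γ := by
      rw [hd]
      field_simp
      ring
    rw [e1]
    obtain ⟨m, rfl⟩ : ∃ m, N = m + 1 := ⟨N - 1, by omega⟩
    rw [Nat.add_sub_cancel]
    have h1 := Real.pow_div_factorial_le_exp (x := ((m + 1 : ℕ) : ℝ)) (by positivity) (m + 1)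
    have h2 : Real.exp ((m + 1 : ℕ) : ℝ) = Real.exp 1 ^ (m + 1) := by
      rw [← Real.exp_nat_mul, mul_one]
    rw [h2, Nat.factorial_succ, pow_succ] at h1
    have h3 : 0 < (m.factorial : ℝ) := by exact_mod_cast Nat.factorial_pos m
    have h4 : ((m + 1 : ℕ) : ℝ) ^ m / m.factorial ≤ Real.exp 1 ^ (m + 1) := by
      refine le_trans (le_of_eq ?_) h1
      push_cast
      field_simp
    have h5 : ((m + 1 : ℕ) : ℝ) ≤ 2 ^ (m + 1) := by
      exact_mod_cast (Nat.lt_two_pow_self (n := m + 1)).le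
    have h6 : (8 / γ) ^ m ≤ (8 / γ) ^ (m + 1) := by
      apply pow_le_pow_right₀ _ (Nat.le_succ m)
      rw [le_div_iff₀ hγ]
      linarith
    calc ((m + 1 : ℕ) : ℝ) * ((8 * ((m + 1 : ℕ) : ℝ) / γ) ^ m / m.factorial)
        = ((m + 1 : ℕ) : ℝ) * ((8 / γ) ^ m * (((m + 1 : ℕ) : ℝ) ^ m / m.factorial)) := by
          rw [show 8 * ((m + 1 : ℕ) : ℝ) / γ = 8 / γ * ((m + 1 : ℕ) : ℝ) by ring, mul_pow]
          ring
      _ ≤ 2 ^ (m + 1) * ((8 / γ) ^ (m + 1) * Real.exp 1 ^ (m + 1)) := by gcongr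
      _ = Q ^ (m + 1) := by
          rw [hQ, ← mul_pow, ← mul_pow]
          congr 1
          ring
  have hB0 : 0 ≤ B := (norm_nonneg _).trans (hB _ (hx 0 hN))
  have h9 := hP _ (hy.trans hrad)
  have hQN : 1 ≤ Q ^ N := one_le_pow₀ (by linarith)
  calc ‖F y‖ = ‖(F y - P.eval y) + P.eval y‖ := by congr 1; ring
    _ ≤ err + Q ^ N * (B + err) := by
        refine (norm_add_le _ _).trans (add_le_add h9 (hL.trans ?_))
        gcongr
    _ ≤ Q ^ N * B + 2 * (Q ^ N * err) := by nlinarith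
    _ = Q ^ N * B + 4 / 2 ^ N * Λ := by
        have e2 : Q * (1 / (2 * Q)) = 1 / 2 := by field_simp
        have e3 : Q ^ N * err = 2 * Λ * (1 / 2) ^ N := by
          calc Q ^ N * err = 2 * Λ * (Q * (1 / (2 * Q))) ^ N := by
                rw [herr, mul_pow]
                ring
            _ = _ := by rw [e2]
        rw [e3, one_div_pow]
        ring

/-- The inequality in one interval, for products of translates. -/
theorem cell_prod {F : ℂ → ℂ} (hF : Differentiable ℂ F) {n : ℕ} (hn : 0 < n) {β : Fin n → ℝ}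
    (hβ : ∀ i, 0 < β i) {h K η δ Λ : ℝ} (hh : 0 < h) (hK : 64 * Real.exp 1 * n ≤ K) (hη : 0 < η)
    (hδ : 0 < δ) {N : ℕ} (hN : 0 < N)
    (hδη : (32 * Real.exp 1 * n) ^ N * δ + 4 / 2 ^ N ≤ η) (j : ℤ)
    (hΛ : ∀ z ∈ closedBall (pp ((j : ℝ) * h + h / 2)) (K * h), ‖F z‖ ≤ Λ) {w : Fin n → ℂ}
    (hw : ∀ i, ‖w i‖ ≤ h / 4) :
    ∫⁻ x in Ij h j, ENNReal.ofReal (‖F (pp x)‖ ^ (∑ i, β i)) ≤
      ENNReal.ofReal (η ^ (∑ i, β i) * (h * Λ ^ (∑ i, β i))) +
        ENNReal.ofReal ((1 / 2 * δ ^ (∑ i, β i))⁻¹) *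
        ∫⁻ x in Ij h j, ENNReal.ofReal (∏ i, ‖F (pp x + w i)‖ ^ β i) := by
  have he1 : 1 ≤ Real.exp 1 := Real.one_le_exp (by norm_num)
  have hn' : (1 : ℝ) ≤ n := by exact_mod_cast hn
  have hn0 : (0 : ℝ) < n := by linarith
  have hK1 : 1 ≤ K := by nlinarith
  have hΛ0 : 0 ≤ Λ := (norm_nonneg _).trans (hΛ _ (mem_closedBall_self (by positivity)))
  have : Nonempty (Fin n) := ⟨⟨0, hn⟩⟩
  set b := ∑ i, β i with hb
  have hb0 : 0 < b := Finset.sum_pos (fun i _ => hβ i) Finset.univ_nonempty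
  have hpc : Continuous pp := by unfold pp; fun_prop
  set f : ℝ → ℝ := fun x => ‖F (pp x)‖ with hf
  have hf0 : ∀ x, 0 ≤ f x := fun x => norm_nonneg _
  have hgc : ∀ i, Continuous (fun x => ‖F (pp x + w i)‖) := fun i =>
    (hF.continuous.comp (hpc.add continuous_const)).norm
  have hin : ∀ x ∈ Icc ((j : ℝ) * h) (j * h + h), ‖pp x - pp ((j : ℝ) * h + h / 2)‖ ≤ h := by
    intro x hx
    rw [pp_sub_norm]
    exact abs_le.mpr ⟨by linarith [hx.1], by linarith [hx.2]⟩
  have hinf : ∀ x ∈ Icc ((j : ℝ) * h) (j * h + h), f x ≤ Λ := by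
    intro x hx
    apply hΛ
    rw [mem_closedBall, dist_eq_norm]
    exact (hin x hx).trans (by nlinarith)
  have hvol : volume (Ij h j) = ENNReal.ofReal h := by
    unfold Ij
    rw [Real.volume_Ico]
    congr 1
    ring
  by_cases hex : ∃ x0 ∈ Ij h j, η * Λ < f x0
  · obtain ⟨x0, hx0, hx0'⟩ := hex
    refine le_trans ?_ le_add_self
    set S : Fin n → Set ℝ := fun i => Ij h j ∩ {x | ‖F (pp x + w i)‖ ≤ δ * Λ} with hS
    set W : Set ℝ := Ij h j ∩ ⋂ i, {x | δ * Λ < ‖F (pp x + w i)‖} with hW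
    have hWm : MeasurableSet W :=
      (Ij_meas h j).inter (MeasurableSet.iInter fun i =>
        measurableSet_lt measurable_const (hgc i).measurable)
    have hSv : ∀ i, volume (S i) ≤ ENNReal.ofReal (1 / (2 * n) * h) := by
      intro i
      by_contra hcon
      push Not at hcon
      have hγ1 : (1 : ℝ) / (2 * n) ≤ 1 := by
        rw [div_le_one (by positivity)]
        linarith
      have hK' : 32 * Real.exp 1 / (1 / (2 * n)) ≤ K := by
        refine le_trans (le_of_eq ?_) hK
        field_simp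
        ring
      have h2 := remez2 hF (u := (j : ℝ) * h) (h := h) (γ := 1 / (2 * n)) (Λ := Λ) (B := δ * Λ)
        (K := K) hh (by positivity) hγ1 hK' (fun z hz => hΛ z (sphere_subset_closedBall hz))
        (hw i) (S := S i) (fun x hx => Ico_subset_Icc_self hx.1) hcon.le (fun x hx => hx.2) hN
        (y := pp x0) (hin x0 (Ico_subset_Icc_self hx0))
      have e2 : 16 * Real.exp 1 / (1 / (2 * n)) = 32 * Real.exp 1 * n := by
        field_simp
        ring
      rw [e2] at h2
      have h3 : (32 * Real.exp 1 * n) ^ N * (δ * Λ) + 4 / 2 ^ N * Λ ≤ η * Λ := by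
        calc (32 * Real.exp 1 * n) ^ N * (δ * Λ) + 4 / 2 ^ N * Λ
            = ((32 * Real.exp 1 * n) ^ N * δ + 4 / 2 ^ N) * Λ := by ring
          _ ≤ η * Λ := by gcongr
      have h4 : f x0 ≤ η * Λ := h2.trans h3
      linarith
    have hWv : ENNReal.ofReal (1 / 2 * h) ≤ volume W := by
      have hsub : Ij h j ⊆ W ∪ ⋃ i, S i := by
        intro x hx
        by_cases hall : ∀ i, δ * Λ < ‖F (pp x + w i)‖
        · exact Or.inl ⟨hx, mem_iInter.mpr hall⟩
        · push Not at hall
          obtain ⟨i, hi⟩ := hall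
          exact Or.inr (mem_iUnion.mpr ⟨i, hx, hi⟩)
      have h6 : ENNReal.ofReal (1 / 2 * h) + ENNReal.ofReal (1 / 2 * h) ≤
          volume W + ENNReal.ofReal (1 / 2 * h) := by
        rw [← ENNReal.ofReal_add (by positivity) (by positivity)]
        calc ENNReal.ofReal (1 / 2 * h + 1 / 2 * h) = volume (Ij h j) := by
              rw [hvol]
              congr 1
              ring
          _ ≤ volume W + volume (⋃ i, S i) := (measure_mono hsub).trans (measure_union_le _ _)
          _ ≤ volume W + ∑ i : Fin n, ENNReal.ofReal (1 / (2 * n) * h) := by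
              gcongr
              refine (measure_iUnion_fintype_le _ _).trans ?_
              exact Finset.sum_le_sum fun i _ => hSv i
          _ = _ := by
              rw [Finset.sum_const, Finset.card_univ, Fintype.card_fin, nsmul_eq_mul,
                ← ENNReal.ofReal_natCast, ← ENNReal.ofReal_mul (by positivity)]
              congr 2
              field_simp
      exact (ENNReal.add_le_add_iff_right ENNReal.ofReal_ne_top).mp h6
    have h7 : ENNReal.ofReal (1 / 2 * δ ^ b * (h * Λ ^ b)) ≤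
        ∫⁻ x in Ij h j, ENNReal.ofReal (∏ i, ‖F (pp x + w i)‖ ^ β i) := by
      calc ENNReal.ofReal (1 / 2 * δ ^ b * (h * Λ ^ b))
          = ENNReal.ofReal ((δ * Λ) ^ b) * ENNReal.ofReal (1 / 2 * h) := by
            rw [← ENNReal.ofReal_mul (by positivity), Real.mul_rpow hδ.le hΛ0]
            congr 1
            ring
        _ ≤ ENNReal.ofReal ((δ * Λ) ^ b) * volume W := by gcongr
        _ = ∫⁻ _ in W, ENNReal.ofReal ((δ * Λ) ^ b) := (setLIntegral_const _ _).symm
        _ ≤ ∫⁻ x in W, ENNReal.ofReal (∏ i, ‖F (pp x + w i)‖ ^ β i) := by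
            refine setLIntegral_mono' hWm fun x hx => ?_
            apply ENNReal.ofReal_le_ofReal
            rw [hb, Real.rpow_sum_of_nonneg (by positivity) (fun i _ => (hβ i).le)]
            refine Finset.prod_le_prod (fun i _ => by positivity) fun i _ => ?_
            have h8 : δ * Λ < ‖F (pp x + w i)‖ := mem_iInter.mp hx.2 i
            exact Real.rpow_le_rpow (by positivity) h8.le (hβ i).le
        _ ≤ _ := lintegral_mono_set fun x hx => hx.1
    calc ∫⁻ x in Ij h j, ENNReal.ofReal (f x ^ b)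
        ≤ ∫⁻ _ in Ij h j, ENNReal.ofReal (Λ ^ b) := by
          refine setLIntegral_mono' (Ij_meas h j) fun x hx => ?_
          apply ENNReal.ofReal_le_ofReal
          exact Real.rpow_le_rpow (hf0 x) (hinf x (Ico_subset_Icc_self hx)) hb0.le
      _ = ENNReal.ofReal ((1 / 2 * δ ^ b)⁻¹) * ENNReal.ofReal (1 / 2 * δ ^ b * (h * Λ ^ b)) := by
          rw [setLIntegral_const, hvol, ← ENNReal.ofReal_mul (by positivity),
            ← ENNReal.ofReal_mul (by positivity)]
          congr 1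
          have : 0 < δ ^ b := by positivity
          field_simp
      _ ≤ _ := by gcongr
  · push Not at hex
    refine le_trans ?_ le_self_add
    calc ∫⁻ x in Ij h j, ENNReal.ofReal (f x ^ b)
        ≤ ∫⁻ _ in Ij h j, ENNReal.ofReal ((η * Λ) ^ b) := by
          refine setLIntegral_mono' (Ij_meas h j) fun x hx => ?_
          apply ENNReal.ofReal_le_ofReal
          exact Real.rpow_le_rpow (hf0 x) (hex x hx) hb0.le
      _ = ENNReal.ofReal (η ^ b * (h * Λ ^ b)) := by
          rw [setLIntegral_const, hvol, ← ENNReal.ofReal_mul (by positivity),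
            Real.mul_rpow hη.le hΛ0]
          congr 1
          ring

end

end Q97.RD
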