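import Pool.Agent.Q97.RD.Sh
import Pool.Agent.Q97.RD.Lo

set_option autoImplicit false

open Filter MeasureTheory Metric Set Topology
open scoped ENNReal

namespace Q97.RD

open Q97.RB Q97.MM

noncomputable section

/-- Lower bound for products of translates of the entire function. -/
theorem shift_F {n : ℕ} (hn : 0 < n) {β : Fin n → ℝ} (hβ : ∀ i, 0 < β i) {A : ℝ} (hA : 0 ≤ A) :
    ∃ c : ℝ, 0 < c ∧ ∀ᶠ T : ℝ in atTop, ∀ U : ℝ, Adm T U → ∀ w : Fin n → ℂ,
      (∀ i, ‖w i‖ ≤ A / Real.log T) →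
      ENNReal.ofReal (c * HB (∑ i, β i) T U (1 / 2)) ≤
        ∫⁻ x : ℝ, ENNReal.ofReal (∏ i, ‖FB (∑ i, β i) T U (pp x + w i)‖ ^ β i) := by
  have hπ := Real.pi_pos
  have he1 : 1 ≤ Real.exp 1 := Real.one_le_exp (by norm_num)
  have hn' : (1 : ℝ) ≤ n := by exact_mod_cast hn
  have hn0 : (0 : ℝ) < n := by linarith
  have : Nonempty (Fin n) := ⟨⟨0, hn⟩⟩
  set b := ∑ i, β i with hb
  have hb0 : 0 < b := Finset.sum_pos (fun i _ => hβ i) Finset.univ_nonempty
  set a := 4 * A + 1 with ha'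
  have ha : 0 < a := by positivity
  set K := 64 * Real.exp 1 * n with hK
  have hK0 : 0 < K := by positivity
  set C₁ := (2 * (K + 1) + 1) * (2 * (K + 1)) * (Real.exp (b * ((K + 1) * a)) + 1) / Real.pi with hC₁
  have hC₁0 : 0 < C₁ := by positivity
  set η := (2 * C₁)⁻¹ ^ b⁻¹ with hη
  have hη0 : 0 < η := by positivity
  have hηβ : η ^ b = (2 * C₁)⁻¹ := by
    rw [hη, ← Real.rpow_mul (by positivity), inv_mul_cancel₀ hb0.ne', Real.rpow_one]
  obtain ⟨N, hN0, hN⟩ : ∃ N : ℕ, 0 < N ∧ 4 / 2 ^ N ≤ η / 2 := by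
    have h1 : Tendsto (fun n : ℕ => 4 * (1 / 2 : ℝ) ^ n) atTop (𝓝 (4 * 0)) :=
      (tendsto_pow_atTop_nhds_zero_of_lt_one (by norm_num) (by norm_num)).const_mul 4
    rw [mul_zero] at h1
    obtain ⟨N, hN⟩ := ((h1.eventually (gt_mem_nhds (half_pos hη0))).and
      (eventually_gt_atTop 0)).exists
    refine ⟨N, hN.2, ?_⟩
    have := hN.1.le
    rwa [one_div_pow, mul_one_div] at this
  set δ := η / 2 / (32 * Real.exp 1 * n) ^ N with hδ
  have hδ0 : 0 < δ := by positivity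
  have hδη : (32 * Real.exp 1 * n) ^ N * δ + 4 / 2 ^ N ≤ η := by
    have : (32 * Real.exp 1 * n) ^ N * δ = η / 2 := by
      rw [hδ]
      field_simp
    rw [this]
    linarith
  set κ := 1 / 2 * δ ^ b with hκ
  have hκ0 : 0 < κ := by positivity
  refine ⟨κ / 2, by positivity, ?_⟩
  filter_upwards [grid_max hb0 ha hK0.le,
    (log_div_tendsto a).eventually (gt_mem_nhds (show (0 : ℝ) < 1 / 4 by norm_num))]
    with T h1 h3 U h w hw
  have hL := h.log
  have hL0 : 0 < Real.log T := by linarith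
  set hh := a / Real.log T with hhd
  have hh0 : 0 < hh := by positivity
  set H := HB b T U (1 / 2) with hH
  have hH0 : 0 ≤ H := HB_nonneg _ _ _ _
  have hF := FB_diff b T U
  have hw' : ∀ i, ‖w i‖ ≤ hh / 4 := by
    intro i
    refine (hw i).trans ?_
    rw [hhd, div_div, mul_comm (Real.log T) 4, ← div_div]
    gcongr
    rw [ha']
    linarith
  -- the maxima
  have hmax : ∀ j : ℤ, ∃ p : ℂ, ‖p - pp ((j : ℝ) * hh + hh / 2)‖ ≤ K * hh ∧
      ∀ z ∈ closedBall (pp ((j : ℝ) * hh + hh / 2)) (K * hh), ‖FB b T U z‖ ≤ ‖FB b T U p‖ :=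
    fun j => max_ball hF (by positivity) _
  choose p hp hpm using hmax
  have h4 := h1 U h p hp
  set f : ℝ → ℝ≥0∞ := fun x => ENNReal.ofReal (‖FB b T U (pp x)‖ ^ b) with hf
  set g : ℝ → ℝ≥0∞ := fun x => ENNReal.ofReal (∏ i, ‖FB b T U (pp x + w i)‖ ^ β i) with hg
  have hHf : ∫⁻ x, f x = ENNReal.ofReal H :=
    LI_lint hF hb0 (FB_gd hb0 T h.pos) (by norm_num) (by norm_num)
  have h5 : ∀ j : ℤ, ∫⁻ x in Ij hh j, f x ≤
      ENNReal.ofReal (η ^ b) * ENNReal.ofReal (hh * ‖FB b T U (p j)‖ ^ b) +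
      ENNReal.ofReal κ⁻¹ * ∫⁻ x in Ij hh j, g x := by
    intro j
    rw [← ENNReal.ofReal_mul (by positivity)]
    exact cell_prod hF hn hβ hh0 le_rfl hη0 hδ0 hN0 hδη j (hpm j) hw'
  have h6 : ∫⁻ x, f x ≤ ENNReal.ofReal (H / 2) + ENNReal.ofReal κ⁻¹ * ∫⁻ x, g x := by
    calc ∫⁻ x, f x = ∑' j : ℤ, ∫⁻ x in Ij hh j, f x := lint_grid hh0 f
      _ ≤ ∑' j : ℤ, (ENNReal.ofReal (η ^ b) * ENNReal.ofReal (hh * ‖FB b T U (p j)‖ ^ b) +
          ENNReal.ofReal κ⁻¹ * ∫⁻ x in Ij hh j, g x) := ENNReal.tsum_le_tsum h5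
      _ = ENNReal.ofReal (η ^ b) * (∑' j : ℤ, ENNReal.ofReal (hh * ‖FB b T U (p j)‖ ^ b)) +
          ENNReal.ofReal κ⁻¹ * ∑' j : ℤ, ∫⁻ x in Ij hh j, g x := by
          rw [ENNReal.tsum_add, ENNReal.tsum_mul_left, ENNReal.tsum_mul_left]
      _ ≤ ENNReal.ofReal (η ^ b) * ENNReal.ofReal (C₁ * H) +
          ENNReal.ofReal κ⁻¹ * ∫⁻ x, g x := by
          rw [← lint_grid hh0 g]
          gcongr
      _ = _ := by
          rw [← ENNReal.ofReal_mul (by positivity), hηβ]
          congr 2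
          field_simp
  rw [hHf] at h6
  have h7 : ENNReal.ofReal (H / 2) ≤ ENNReal.ofReal κ⁻¹ * ∫⁻ x, g x := by
    have h8 : ENNReal.ofReal H = ENNReal.ofReal (H / 2) + ENNReal.ofReal (H / 2) := by
      rw [← ENNReal.ofReal_add (by positivity) (by positivity)]
      congr 1
      ring
    rw [h8] at h6
    exact (ENNReal.add_le_add_iff_left ENNReal.ofReal_ne_top).mp h6
  calc ENNReal.ofReal (κ / 2 * H) = ENNReal.ofReal κ * ENNReal.ofReal (H / 2) := by
        rw [← ENNReal.ofReal_mul hκ0.le]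
        congr 1
        ring
    _ ≤ ENNReal.ofReal κ * (ENNReal.ofReal κ⁻¹ * ∫⁻ x, g x) := by gcongr
    _ = ∫⁻ x, g x := by
        rw [← mul_assoc, ← ENNReal.ofReal_mul hκ0.le, mul_inv_cancel₀ hκ0.ne', ENNReal.ofReal_one,
          one_mul]

/-- the windows at nearby points -/
theorem wt_cmp {T U R t y L : ℝ} (hU : 1 ≤ U) (hL : 1 ≤ L) (hR : 0 ≤ R) (ht : |t - T| ≤ U * L)
    (hy : |y - t| ≤ R / L) : wt T U t ≤ Real.exp (2 * R + R ^ 2) * wt T U y := by
  unfold wt
  rw [← Real.exp_add, Real.exp_le_exp]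
  have hL0 : 0 < L := by linarith
  have hU0 : 0 < U := by linarith
  have h1 : |y - t| ≤ R := hy.trans (div_le_self hR hL)
  have h2 : (y - T) ^ 2 - (t - T) ^ 2 ≤ (2 * R + R ^ 2) * U ^ 2 := by
    have e1 : (y - T) ^ 2 - (t - T) ^ 2 = (y - t) ^ 2 + 2 * ((y - t) * (t - T)) := by ring
    have h3 : (y - t) * (t - T) ≤ R * U := by
      calc (y - t) * (t - T) ≤ |(y - t) * (t - T)| := le_abs_self _
        _ = |y - t| * |t - T| := abs_mul _ _
        _ ≤ R / L * (U * L) := by gcongr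
        _ = R * U := by field_simp
    have h4 : (y - t) ^ 2 ≤ R ^ 2 := sq_le_sq' (by linarith [(abs_le.mp h1).1]) (abs_le.mp h1).2
    have h5 : R * U ≤ R * U ^ 2 := by
      gcongr
      nlinarith
    have h6 : R ^ 2 ≤ R ^ 2 * U ^ 2 := le_mul_of_one_le_right (by positivity) (one_le_pow₀ hU)
    rw [e1]
    nlinarith
  have h7 : ((y - T) / U) ^ 2 - ((t - T) / U) ^ 2 ≤ 2 * R + R ^ 2 := by
    rw [div_pow, div_pow, ← sub_div, div_le_iff₀ (by positivity)]
    exact h2
  linarith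

/-- **The maximal function of `ζ`** at the scale `1 / log T`. -/
theorem zeta_disc {β : ℝ} (hβ : 0 < β) {R : ℝ} (hR : 0 ≤ R) : ∃ C : ℝ, 0 < C ∧
    ∀ᶠ T : ℝ in atTop, ∀ U : ℝ, Adm T U → ∀ z : ℝ → ℂ, (∀ t, ‖z t - pp t‖ ≤ R / Real.log T) →
      ∫⁻ t : ℝ, ENNReal.ofReal (‖riemannZeta (z t)‖ ^ β * wt T U t) ≤
        ENNReal.ofReal (C * MB β T U (1 / 2)) := by
  obtain ⟨C, hC, hmax⟩ := maxDt hβ hR (e := 1 / 8) (by norm_num) (by norm_num)
  obtain ⟨c, hc, hcM⟩ := HM_cmp hβ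
  have hsm : Tendsto (fun T : ℝ => Real.pi / T ^ 3) atTop (𝓝 0) :=
    (tendsto_pow_atTop (n := 3) (α := ℝ) (by norm_num)).const_div_atTop _
  set E := Real.exp (2 * R + R ^ 2) with hE
  have hE0 : 0 < E := Real.exp_pos _
  refine ⟨E * C + 1, by positivity, ?_⟩
  filter_upwards [hmax, hcM (1 / 8) (by norm_num) (by norm_num), hsm.eventually (gt_mem_nhds hc),
    Q97.BS.tail ⌈2 * β⌉₊ 3 (180 ^ β * 2 ^ ⌈2 * β⌉₊) (ϑ := 1) one_pos, eventually_ge_atTop 8,
    (log_div_tendsto R).eventually (gt_mem_nhds (show (0 : ℝ) < 1 / 4 by norm_num))]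
    with T h1 h2 h3 h4 hT h5 U h z hz
  have hT0 : 0 < T := by linarith
  have hL := h.log
  have hL0 : 0 < Real.log T := by linarith
  obtain ⟨_, g5⟩ := h2 U h
  rw [abs_of_nonneg (by positivity)] at h5
  set M := MB β T U (1 / 2) with hM
  have hM0 : 0 < M := by linarith
  have hU := h.pos
  obtain ⟨t1, t2⟩ := Q97.BS.tR_int 3 hT0
  have htn : ∀ y, 0 ≤ Q97.BS.tR 3 T y := fun y => by unfold Q97.BS.tR; positivity
  have htm : Measurable (fun y => ENNReal.ofReal (Q97.BS.tR 3 T y)) := by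
    unfold Q97.BS.tR
    fun_prop
  have hpt : ∀ t : ℝ, ENNReal.ofReal (‖riemannZeta (z t)‖ ^ β * wt T U t) ≤
      ENNReal.ofReal E * ENNReal.ofReal (Dt β T (1 / 8) t * ‖FB β T U (z t)‖ ^ β) +
        ENNReal.ofReal (Q97.BS.tR 3 T t) := by
    intro t
    have a1 := (Complex.abs_re_le_norm _).trans (hz t)
    have a2 := (Complex.abs_im_le_norm _).trans (hz t)
    rw [Complex.sub_re, pp_re] at a1
    rw [Complex.sub_im, pp_im] at a2
    have hre : |(z t).re - 1 / 2| ≤ 1 / 4 := by linarith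
    have hre' := abs_le.mp hre
    by_cases hy : 1 * (U * Real.log T) < |t - T|
    · refine le_trans ?_ le_add_self
      apply ENNReal.ofReal_le_ofReal
      refine le_trans ?_ (h4 U h t hy)
      have e1 : z t = ((z t).re : ℂ) + (z t).im * Complex.I := (Complex.re_add_im _).symm
      have b1 := zeta_rpow_bd hβ (x := (z t).re) (by linarith [hre'.1]) (by linarith [hre'.2])
        (z t).im
      rw [← e1] at b1
      have hw := wt_pos T U t
      have b2 : 1 + |(z t).im| ≤ 2 * (1 + |t|) := by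
        have : |(z t).im| ≤ |(z t).im - t| + |t| := by
          have := abs_add_le ((z t).im - t) t
          rwa [sub_add_cancel] at this
        have := abs_nonneg t
        linarith
      calc ‖riemannZeta (z t)‖ ^ β * wt T U t
          ≤ (180 ^ β * (2 * (1 + |t|)) ^ ⌈2 * β⌉₊) * wt T U t := by
            gcongr
            exact b1.trans (by gcongr)
        _ = _ := by rw [mul_pow]; ring
    · push Not at hy
      refine le_trans ?_ le_self_add
      rw [one_mul] at hy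
      rw [← ENNReal.ofReal_mul hE0.le]
      apply ENNReal.ofReal_le_ofReal
      have b1 := wt_cmp h.2.1 hL hR hy a2
      have b2 : ‖riemannZeta (z t)‖ ^ β * wt T U (z t).im ≤
          Dt β T (1 / 8) t * ‖FB β T U (z t)‖ ^ β := by
        unfold Dt
        split_ifs with hy2
        · have hd0 : 0 < (1 - 1 / 8) * T := by linarith
          exact zeta_le hβ (T := T) h.pos hre hd0 (by
            have h7 := Complex.abs_im_le_norm (z t - 1)
            rw [Complex.sub_im, Complex.one_im, sub_zero] at h7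
            refine le_trans ?_ ((le_abs_self _).trans h7)
            have h8 := (abs_le.mp hy2).1
            have h9 := (abs_le.mp a2).1
            linarith)
        · have b3 := zeta_le hβ (T := T) h.pos hre (d := 1 / 4) (by norm_num) (dist_one hre)
          have b4 : ((1 / 4 : ℝ) ^ β)⁻¹ = 4 ^ β := by
            rw [← Real.inv_rpow (by norm_num)]
            norm_num
          rwa [b4] at b3
      calc ‖riemannZeta (z t)‖ ^ β * wt T U t
          ≤ ‖riemannZeta (z t)‖ ^ β * (E * wt T U (z t).im) := by gcongr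
        _ = E * (‖riemannZeta (z t)‖ ^ β * wt T U (z t).im) := by ring
        _ ≤ _ := by gcongr
  refine (lintegral_mono hpt).trans ?_
  rw [lintegral_add_right _ htm, lintegral_const_mul' _ _ ENNReal.ofReal_ne_top,
    ← ofReal_integral_eq_lintegral_ofReal t1 (Eventually.of_forall htn)]
  calc ENNReal.ofReal E * (∫⁻ t : ℝ, ENNReal.ofReal (Dt β T (1 / 8) t * ‖FB β T U (z t)‖ ^ β)) +
        ENNReal.ofReal (∫ t : ℝ, Q97.BS.tR 3 T t)
      ≤ ENNReal.ofReal E * ENNReal.ofReal (C * M) + ENNReal.ofReal M := by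
        gcongr
        · exact h1 U h z hz
        · exact t2.trans (h3.le.trans g5)
    _ = _ := by
        rw [← ENNReal.ofReal_mul hE0.le, ← ENNReal.ofReal_add (by positivity) hM0.le]
        congr 1
        ring

end

end Q97.RD
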