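import Pool.Agent.Q97.RD.Zs

set_option autoImplicit false

open Filter MeasureTheory Metric Set Topology Complex
open scoped ENNReal

namespace Q97.RD

open Q97.RB Q97.MM

noncomputable section

/-- a strip around the critical line -/
def Sp (b : ℝ) : Set ℂ := {z | |z.re - 1 / 2| ≤ b}

theorem Sp_meas (b : ℝ) : MeasurableSet (Sp b) := by
  have : IsClosed (Sp b) := isClosed_le (by fun_prop) continuous_const
  exact this.measurableSet

/-- Fubini's theorem in the strip. -/
theorem strip_fub {g : ℂ → ℝ≥0∞} (hg : Measurable g) (b : ℝ) :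
    ∫⁻ w in Sp b, g w = ∫⁻ x in Icc (1 / 2 - b) (1 / 2 + b), ∫⁻ y : ℝ, g (x + y * I) := by
  have hmi := hg.indicator (Sp_meas b)
  have hmc : Measurable (fun p : ℝ × ℝ => (Sp b).indicator g (measurableEquivRealProd.symm p)) :=
    hmi.comp measurableEquivRealProd.symm.measurable
  rw [← lintegral_indicator (Sp_meas b), ← (volume_preserving_equiv_real_prod.symm).lintegral_comp hmi,
    Measure.volume_eq_prod, lintegral_prod _ hmc.aemeasurable,
    ← lintegral_indicator measurableSet_Icc]
  refine lintegral_congr fun x => ?_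
  have he : ∀ y : ℝ, measurableEquivRealProd.symm (x, y) = (x : ℂ) + y * I := by
    intro y
    apply Complex.ext <;> simp
  by_cases hx : x ∈ Icc (1 / 2 - b) (1 / 2 + b)
  · rw [indicator_of_mem hx]
    refine lintegral_congr fun y => ?_
    rw [he, indicator_of_mem]
    have : |x - 1 / 2| ≤ b := abs_le.mpr ⟨by linarith [hx.1], by linarith [hx.2]⟩
    simpa [Sp] using this
  · rw [indicator_of_notMem hx]
    have : ∀ y : ℝ, (Sp b).indicator g (measurableEquivRealProd.symm (x, y)) = 0 := by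
      intro y
      rw [he, indicator_of_notMem]
      intro h
      apply hx
      have h2 : |x - 1 / 2| ≤ b := by simpa [Sp] using h
      rw [abs_le] at h2
      exact ⟨by linarith [h2.1], by linarith [h2.2]⟩
    simp only [this, lintegral_zero]

theorem cav_eq {F : ℂ → ℂ} (hF : Differentiable ℂ F) {β : ℝ} (hβ : 0 < β) (w : ℂ) (r : ℝ) :
    ENNReal.ofReal (Real.circleAverage (fun z => ‖F z‖ ^ β) w r) =
      ENNReal.ofReal ((2 * Real.pi)⁻¹) * ∫⁻ θ in Ioc 0 (2 * Real.pi),
        ENNReal.ofReal (‖F (circleMap w r θ)‖ ^ β) := by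
  have hπ := Real.pi_pos
  have hcy : Continuous (fun θ : ℝ => ‖F (circleMap w r θ)‖ ^ β) :=
    (pw_cont hF hβ).comp (continuous_circleMap w r)
  rw [Real.circleAverage_def, smul_eq_mul, ENNReal.ofReal_mul (by positivity),
    intervalIntegral.integral_of_le (by positivity), ofReal_integral_eq_lintegral_ofReal
      (hcy.integrableOn_Ioc) (Eventually.of_forall fun θ => by positivity)]

theorem cav_meas {F : ℂ → ℂ} (hF : Differentiable ℂ F) {β : ℝ} (hβ : 0 < β) (r : ℝ) :
    Measurable (fun w : ℂ => ENNReal.ofReal (Real.circleAverage (fun z => ‖F z‖ ^ β) w r)) := by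
  simp only [cav_eq hF hβ]
  refine Measurable.const_mul ?_ _
  have hc : Continuous (fun p : ℂ × ℝ => ‖F (circleMap p.1 r p.2)‖ ^ β) := by
    refine (pw_cont hF hβ).comp ?_
    have : (fun p : ℂ × ℝ => circleMap p.1 r p.2) =
        fun p : ℂ × ℝ => p.1 + (r : ℂ) * cexp ((p.2 : ℂ) * I) := rfl
    rw [this]
    fun_prop
  exact Measurable.lintegral_prod_right hc.measurable.ennreal_ofReal

/-- The integral of the circle averages over a strip. -/
theorem strip_cav {F : ℂ → ℂ} {α α' β : ℝ} (hF : Differentiable ℂ F) (hβ : 0 < β) (hG : Gd F α α')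
    {b r : ℝ} (hr : 0 < r) (h1 : α ≤ 1 / 2 - b - r) (h2 : 1 / 2 + b + r ≤ α')
    {S : ℝ} (hS0 : 0 ≤ S) (hS : ∀ x : ℝ, |x - 1 / 2| ≤ b + r → LI F β x ≤ S) {c : ℝ} (hc : 0 ≤ c) :
    ∫⁻ w in Sp b, ENNReal.ofReal (c * Real.circleAverage (fun z => ‖F z‖ ^ β) w r) ≤
      ENNReal.ofReal (c * (2 * b * S)) := by
  have hπ := Real.pi_pos
  have e1 : ∀ w : ℂ, ENNReal.ofReal (c * Real.circleAverage (fun z => ‖F z‖ ^ β) w r) =
      ENNReal.ofReal c * ENNReal.ofReal (Real.circleAverage (fun z => ‖F z‖ ^ β) w r) :=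
    fun w => ENNReal.ofReal_mul hc
  simp only [e1]
  rw [lintegral_const_mul' _ _ ENNReal.ofReal_ne_top, ENNReal.ofReal_mul hc]
  gcongr
  rw [strip_fub (cav_meas hF hβ r)]
  calc ∫⁻ x in Icc (1 / 2 - b) (1 / 2 + b), ∫⁻ y : ℝ,
        ENNReal.ofReal (Real.circleAverage (fun z => ‖F z‖ ^ β) (x + y * I) r)
      ≤ ∫⁻ _ in Icc (1 / 2 - b) (1 / 2 + b), ENNReal.ofReal S := by
        refine setLIntegral_mono' measurableSet_Icc fun x hx => ?_
        rw [circ_int hF hβ hG hr (by linarith [hx.1]) (by linarith [hx.2])]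
        calc ENNReal.ofReal ((2 * Real.pi)⁻¹) *
              ∫⁻ θ in Ioc 0 (2 * Real.pi), ENNReal.ofReal (LI F β (x + r * Real.cos θ))
            ≤ ENNReal.ofReal ((2 * Real.pi)⁻¹) * ∫⁻ _ in Ioc 0 (2 * Real.pi), ENNReal.ofReal S := by
              gcongr with θ
              apply hS
              have a1 := Real.abs_cos_le_one θ
              have a2 : |x - 1 / 2| ≤ b := abs_le.mpr ⟨by linarith [hx.1], by linarith [hx.2]⟩
              calc |x + r * Real.cos θ - 1 / 2| = |(x - 1 / 2) + r * Real.cos θ| := by ring_nf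
                _ ≤ |x - 1 / 2| + |r * Real.cos θ| := abs_add_le _ _
                _ ≤ b + r := by
                    rw [abs_mul, abs_of_pos hr]
                    nlinarith
          _ = ENNReal.ofReal S := by
              rw [setLIntegral_const, Real.volume_Ioc, sub_zero, mul_comm, mul_assoc,
                ← ENNReal.ofReal_mul (by positivity), mul_inv_cancel₀ (by positivity),
                ENNReal.ofReal_one, mul_one]
    _ = ENNReal.ofReal (2 * b * S) := by
        rw [setLIntegral_const, Real.volume_Icc, ← ENNReal.ofReal_mul hS0]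
        congr 1
        ring

/-- The same with a majorant in one variable, away from an interval. -/
theorem strip_maj {F : ℂ → ℂ} {β : ℝ} (hF : Differentiable ℂ F) (hβ : 0 < β)
    {b r : ℝ} {Y : Set ℝ} (hY : MeasurableSet Y) {t : ℝ → ℝ}
    (ht0 : ∀ y, 0 ≤ t y) (hti : Integrable t)
    (h : ∀ x y : ℝ, |x - 1 / 2| ≤ b → y ∈ Y →
      Real.circleAverage (fun z => ‖F z‖ ^ β) (x + y * I) r ≤ t y) {c : ℝ} (hc : 0 ≤ c) :
    ∫⁻ w in Sp b ∩ {z | z.im ∈ Y}, ENNReal.ofReal (c * Real.circleAverage (fun z => ‖F z‖ ^ β) w r) ≤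
      ENNReal.ofReal (c * (2 * b * ∫ y, t y)) := by
  have hYm : MeasurableSet {z : ℂ | z.im ∈ Y} := Complex.measurable_im hY
  have e1 : ∀ w : ℂ, ENNReal.ofReal (c * Real.circleAverage (fun z => ‖F z‖ ^ β) w r) =
      ENNReal.ofReal c * ENNReal.ofReal (Real.circleAverage (fun z => ‖F z‖ ^ β) w r) :=
    fun w => ENNReal.ofReal_mul hc
  simp only [e1]
  rw [lintegral_const_mul' _ _ ENNReal.ofReal_ne_top, ENNReal.ofReal_mul hc]
  gcongr
  have hgm : Measurable ({z : ℂ | z.im ∈ Y}.indicator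
      fun w => ENNReal.ofReal (Real.circleAverage (fun z => ‖F z‖ ^ β) w r)) :=
    (cav_meas hF hβ r).indicator hYm
  rw [inter_comm, ← Measure.restrict_restrict hYm, ← lintegral_indicator hYm, strip_fub hgm]
  have hI : 0 ≤ ∫ y, t y := integral_nonneg ht0
  calc ∫⁻ x in Icc (1 / 2 - b) (1 / 2 + b), ∫⁻ y : ℝ, {z : ℂ | z.im ∈ Y}.indicator
        (fun w => ENNReal.ofReal (Real.circleAverage (fun z => ‖F z‖ ^ β) w r)) (x + y * I)
      ≤ ∫⁻ _ in Icc (1 / 2 - b) (1 / 2 + b), ENNReal.ofReal (∫ y, t y) := by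
        refine setLIntegral_mono' measurableSet_Icc fun x hx => ?_
        rw [ofReal_integral_eq_lintegral_ofReal hti (Eventually.of_forall ht0)]
        refine lintegral_mono fun y => ?_
        have a2 : |x - 1 / 2| ≤ b := abs_le.mpr ⟨by linarith [hx.1], by linarith [hx.2]⟩
        by_cases hy : ((x : ℂ) + y * I) ∈ {z : ℂ | z.im ∈ Y}
        · rw [indicator_of_mem hy]
          apply ENNReal.ofReal_le_ofReal
          apply h x y a2
          simpa using hy
        · rw [indicator_of_notMem hy]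
          exact zero_le
    _ = ENNReal.ofReal (2 * b * ∫ y, t y) := by
        rw [setLIntegral_const, Real.volume_Icc, ← ENNReal.ofReal_mul hI]
        congr 1
        ring

end

end Q97.RD
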