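import Pool.Agent.Q97.RD.Mx
import Pool.Agent.Q97.RD.Rm

set_option autoImplicit false

open Filter MeasureTheory Metric Set Topology Complex
open scoped ENNReal

namespace Q97.RD

open Q97.RB Q97.MM

noncomputable section

/-- the grid intervals -/
def Ij (h : ℝ) (j : ℤ) : Set ℝ := Ico (j * h) (j * h + h)

theorem Ij_meas (h : ℝ) (j : ℤ) : MeasurableSet (Ij h j) := measurableSet_Ico

theorem Ij_union {h : ℝ} (hh : 0 < h) : ⋃ j : ℤ, Ij h j = univ := by
  have := iUnion_Ico_zsmul hh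
  rw [← this]
  refine iUnion_congr fun j => ?_
  unfold Ij
  rw [zsmul_eq_mul, zsmul_eq_mul]
  push_cast
  rw [add_mul, one_mul]

theorem Ij_disj {h : ℝ} (hh : 0 < h) : Pairwise (Function.onFun Disjoint (Ij h)) := by
  intro i j hij
  rw [Function.onFun, Set.disjoint_left]
  intro x hx hy
  apply hij
  unfold Ij at hx hy
  have h1 : (i : ℝ) < j + 1 := by
    have : (i : ℝ) * h < (j + 1) * h := by linarith [hx.1, hy.2]
    exact lt_of_mul_lt_mul_right this hh.le
  have h2 : (j : ℝ) < i + 1 := by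
    have : (j : ℝ) * h < (i + 1) * h := by linarith [hx.2, hy.1]
    exact lt_of_mul_lt_mul_right this hh.le
  have h3 : i < j + 1 := by exact_mod_cast h1
  have h4 : j < i + 1 := by exact_mod_cast h2
  omega

theorem lint_grid {h : ℝ} (hh : 0 < h) (f : ℝ → ℝ≥0∞) :
    ∫⁻ x, f x = ∑' j : ℤ, ∫⁻ x in Ij h j, f x := by
  rw [← lintegral_iUnion (fun j => Ij_meas h j) (Ij_disj hh), Ij_union hh, setLIntegral_univ]

/-- The inequality in one interval. -/
theorem local_ineq {F : ℂ → ℂ} (hF : Differentiable ℂ F) {β : ℝ} (hβ : 0 < β) {h γ K η δ Λ : ℝ}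
    (hh : 0 < h) (hγ : 0 < γ) (hγ1 : γ ≤ 1) (hK : 16 * Real.exp 1 / γ ≤ K) (hη : 0 < η)
    (hδ : 0 < δ) {N : ℕ} (hN : 0 < N)
    (hδη : (16 * Real.exp 1 / γ) ^ N * δ + 4 / 2 ^ N ≤ η) (j : ℤ)
    (hΛ : ∀ z ∈ closedBall (((1 / 2 : ℝ) : ℂ) + (((j : ℝ) * h + h / 2 : ℝ) : ℂ) * I) (K * h),
      ‖F z‖ ≤ Λ) {E : Set ℝ} (hE : MeasurableSet E)
    (hEj : ENNReal.ofReal (γ * h) ≤ volume (E ∩ Ij h j)) :
    ∫⁻ x in Ij h j, ENNReal.ofReal (‖F (((1 / 2 : ℝ) : ℂ) + (x : ℂ) * I)‖ ^ β) ≤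
      ENNReal.ofReal (η ^ β * (h * Λ ^ β)) + ENNReal.ofReal ((γ / 2 * δ ^ β)⁻¹) *
        ∫⁻ x in Ij h j, E.indicator
          (fun x => ENNReal.ofReal (‖F (((1 / 2 : ℝ) : ℂ) + (x : ℂ) * I)‖ ^ β)) x := by
  have he1 : 1 ≤ Real.exp 1 := Real.one_le_exp (by norm_num)
  have hK1 : 1 ≤ K := by
    refine le_trans ?_ hK
    rw [le_div_iff₀ hγ]
    nlinarith
  have hΛ0 : 0 ≤ Λ := (norm_nonneg _).trans (hΛ _ (mem_closedBall_self (by positivity)))
  set f : ℝ → ℝ := fun x => ‖F (((1 / 2 : ℝ) : ℂ) + (x : ℂ) * I)‖ with hf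
  have hfc : Continuous f := by
    have := hF.continuous
    rw [hf]
    fun_prop
  have hf0 : ∀ x, 0 ≤ f x := fun x => norm_nonneg _
  have hin : ∀ x ∈ Icc ((j : ℝ) * h) (j * h + h), f x ≤ Λ := by
    intro x hx
    apply hΛ
    rw [mem_closedBall, dist_eq_norm]
    have e1 : ((1 / 2 : ℝ) : ℂ) + (x : ℂ) * I -
        (((1 / 2 : ℝ) : ℂ) + (((j : ℝ) * h + h / 2 : ℝ) : ℂ) * I) =
        ((x - (j * h + h / 2) : ℝ) : ℂ) * I := by
      push_cast
      ring
    rw [e1, norm_mul, Complex.norm_I, mul_one, Complex.norm_real, Real.norm_eq_abs]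
    have h1 : |x - (j * h + h / 2)| ≤ h / 2 := abs_le.mpr ⟨by linarith [hx.1], by linarith [hx.2]⟩
    nlinarith
  have hvol : volume (Ij h j) = ENNReal.ofReal h := by
    unfold Ij
    rw [Real.volume_Ico]
    congr 1
    ring
  by_cases hex : ∃ x0 ∈ Ij h j, η * Λ < f x0
  · obtain ⟨x0, hx0, hx0'⟩ := hex
    refine le_trans ?_ le_add_self
    set S : Set ℝ := (E ∩ Ij h j) ∩ {x | f x ≤ δ * Λ} with hS
    set W : Set ℝ := (E ∩ Ij h j) ∩ {x | δ * Λ < f x} with hW
    have hWm : MeasurableSet W :=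
      (hE.inter (Ij_meas h j)).inter (measurableSet_lt measurable_const hfc.measurable)
    -- the set of small values is small
    have hSv : volume S < ENNReal.ofReal (γ / 2 * h) := by
      by_contra hcon
      push Not at hcon
      have hK' : 8 * Real.exp 1 / (γ / 2) ≤ K := by
        refine le_trans (le_of_eq ?_) hK
        field_simp
        ring
      have h2 := remez hF (u := (j : ℝ) * h) (h := h) (γ := γ / 2) (Λ := Λ) (B := δ * Λ) (K := K)
        hh (by positivity) (by linarith) hK' (fun z hz => hΛ z (sphere_subset_closedBall hz))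
        (S := S) (fun x hx => Ico_subset_Icc_self hx.1.2) hcon (fun x hx => hx.2) hN
        (y := x0) (Ico_subset_Icc_self hx0)
      have e2 : 8 * Real.exp 1 / (γ / 2) = 16 * Real.exp 1 / γ := by
        field_simp
        ring
      rw [e2] at h2
      have h3 : (16 * Real.exp 1 / γ) ^ N * (δ * Λ) + 4 / 2 ^ N * Λ ≤ η * Λ := by
        calc (16 * Real.exp 1 / γ) ^ N * (δ * Λ) + 4 / 2 ^ N * Λ
            = ((16 * Real.exp 1 / γ) ^ N * δ + 4 / 2 ^ N) * Λ := by ring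
          _ ≤ η * Λ := by gcongr
      have h4 : f x0 ≤ η * Λ := h2.trans h3
      linarith
    have hWv : ENNReal.ofReal (γ / 2 * h) ≤ volume W := by
      have hsub : E ∩ Ij h j ⊆ S ∪ W := by
        intro x hx
        rcases le_or_gt (f x) (δ * Λ) with h5 | h5
        · exact Or.inl ⟨hx, h5⟩
        · exact Or.inr ⟨hx, h5⟩
      have h6 : ENNReal.ofReal (γ / 2 * h) + ENNReal.ofReal (γ / 2 * h) ≤
          ENNReal.ofReal (γ / 2 * h) + volume W := by
        rw [← ENNReal.ofReal_add (by positivity) (by positivity)]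
        calc ENNReal.ofReal (γ / 2 * h + γ / 2 * h) = ENNReal.ofReal (γ * h) := by
              congr 1
              ring
          _ ≤ volume (E ∩ Ij h j) := hEj
          _ ≤ volume S + volume W := (measure_mono hsub).trans (measure_union_le _ _)
          _ ≤ _ := by gcongr
      exact (ENNReal.add_le_add_iff_left ENNReal.ofReal_ne_top).mp h6
    have h7 : ENNReal.ofReal (γ / 2 * δ ^ β * (h * Λ ^ β)) ≤
        ∫⁻ x in Ij h j, E.indicator (fun x => ENNReal.ofReal (f x ^ β)) x := by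
      calc ENNReal.ofReal (γ / 2 * δ ^ β * (h * Λ ^ β))
          = ENNReal.ofReal ((δ * Λ) ^ β) * ENNReal.ofReal (γ / 2 * h) := by
            rw [← ENNReal.ofReal_mul (by positivity), Real.mul_rpow hδ.le hΛ0]
            congr 1
            ring
        _ ≤ ENNReal.ofReal ((δ * Λ) ^ β) * volume W := by gcongr
        _ = ∫⁻ _ in W, ENNReal.ofReal ((δ * Λ) ^ β) := (setLIntegral_const _ _).symm
        _ ≤ ∫⁻ x in W, E.indicator (fun x => ENNReal.ofReal (f x ^ β)) x := by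
            refine setLIntegral_mono' hWm fun x hx => ?_
            rw [indicator_of_mem hx.1.1]
            apply ENNReal.ofReal_le_ofReal
            exact Real.rpow_le_rpow (by positivity) (le_of_lt hx.2) hβ.le
        _ ≤ _ := lintegral_mono_set fun x hx => hx.1.2
    calc ∫⁻ x in Ij h j, ENNReal.ofReal (f x ^ β)
        ≤ ∫⁻ _ in Ij h j, ENNReal.ofReal (Λ ^ β) := by
          refine setLIntegral_mono' (Ij_meas h j) fun x hx => ?_
          apply ENNReal.ofReal_le_ofReal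
          exact Real.rpow_le_rpow (hf0 x) (hin x (Ico_subset_Icc_self hx)) hβ.le
      _ = ENNReal.ofReal ((γ / 2 * δ ^ β)⁻¹) * ENNReal.ofReal (γ / 2 * δ ^ β * (h * Λ ^ β)) := by
          rw [setLIntegral_const, hvol, ← ENNReal.ofReal_mul (by positivity),
            ← ENNReal.ofReal_mul (by positivity)]
          congr 1
          have : 0 < δ ^ β := by positivity
          field_simp
      _ ≤ _ := by gcongr
  · push Not at hex
    refine le_trans ?_ le_self_add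
    calc ∫⁻ x in Ij h j, ENNReal.ofReal (f x ^ β)
        ≤ ∫⁻ _ in Ij h j, ENNReal.ofReal ((η * Λ) ^ β) := by
          refine setLIntegral_mono' (Ij_meas h j) fun x hx => ?_
          apply ENNReal.ofReal_le_ofReal
          exact Real.rpow_le_rpow (hf0 x) (hex x hx) hβ.le
      _ = ENNReal.ofReal (η ^ β * (h * Λ ^ β)) := by
          rw [setLIntegral_const, hvol, ← ENNReal.ofReal_mul (by positivity),
            Real.mul_rpow hη.le hΛ0]
          congr 1
          ring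

/-- **The theorem on thick sets** for the entire function. -/
theorem thick_F {β : ℝ} (hβ : 0 < β) {a γ : ℝ} (ha : 0 < a) (hγ : 0 < γ) (hγ1 : γ ≤ 1) :
    ∃ c : ℝ, 0 < c ∧ ∀ᶠ T : ℝ in atTop, ∀ U : ℝ, Adm T U → ∀ E : Set ℝ, MeasurableSet E →
      (∀ j : ℤ, ENNReal.ofReal (γ * (a / Real.log T)) ≤ volume (E ∩ Ij (a / Real.log T) j)) →
      ENNReal.ofReal (c * HB β T U (1 / 2)) ≤
        ∫⁻ x in E, ENNReal.ofReal (‖FB β T U (((1 / 2 : ℝ) : ℂ) + (x : ℂ) * I)‖ ^ β) := by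
  have hπ := Real.pi_pos
  have he1 : 1 ≤ Real.exp 1 := Real.one_le_exp (by norm_num)
  set K := 16 * Real.exp 1 / γ with hK
  have hK0 : 0 < K := by positivity
  set C₁ := (2 * (K + 1) + 1) * (2 * (K + 1)) * (Real.exp (β * ((K + 1) * a)) + 1) / Real.pi with hC₁
  have hC₁0 : 0 < C₁ := by positivity
  set η := (2 * C₁)⁻¹ ^ β⁻¹ with hη
  have hη0 : 0 < η := by positivity
  have hηβ : η ^ β = (2 * C₁)⁻¹ := by
    rw [hη, ← Real.rpow_mul (by positivity), inv_mul_cancel₀ hβ.ne', Real.rpow_one]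
  obtain ⟨N, hN0, hN⟩ : ∃ N : ℕ, 0 < N ∧ 4 / 2 ^ N ≤ η / 2 := by
    have h1 : Tendsto (fun n : ℕ => 4 * (1 / 2 : ℝ) ^ n) atTop (𝓝 (4 * 0)) :=
      (tendsto_pow_atTop_nhds_zero_of_lt_one (by norm_num) (by norm_num)).const_mul 4
    rw [mul_zero] at h1
    obtain ⟨N, hN⟩ := ((h1.eventually (gt_mem_nhds (half_pos hη0))).and
      (eventually_gt_atTop 0)).exists
    refine ⟨N, hN.2, ?_⟩
    have := hN.1.le
    rwa [one_div_pow, mul_one_div] at this
  set δ := η / 2 / K ^ N with hδ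
  have hδ0 : 0 < δ := by positivity
  have hδη : K ^ N * δ + 4 / 2 ^ N ≤ η := by
    have : K ^ N * δ = η / 2 := by
      rw [hδ]
      field_simp
    rw [this]
    linarith
  set κ := γ / 2 * δ ^ β with hκ
  have hκ0 : 0 < κ := by positivity
  refine ⟨κ / 2, by positivity, ?_⟩
  filter_upwards [grid_max hβ ha hK0.le,
    (log_div_tendsto a).eventually (gt_mem_nhds (show (0 : ℝ) < 1 / 4 by norm_num))]
    with T h1 h3 U h E hE hEj
  have hL := h.log
  have hL0 : 0 < Real.log T := by linarith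
  set hh := a / Real.log T with hhd
  have hh0 : 0 < hh := by positivity
  set H := HB β T U (1 / 2) with hH
  have hH0 : 0 ≤ H := HB_nonneg _ _ _ _
  have hF := FB_diff β T U
  -- the maxima
  have hmax : ∀ j : ℤ, ∃ p : ℂ,
      ‖p - (((1 / 2 : ℝ) : ℂ) + (((j : ℝ) * hh + hh / 2 : ℝ) : ℂ) * I)‖ ≤ K * hh ∧
      ∀ z ∈ closedBall (((1 / 2 : ℝ) : ℂ) + (((j : ℝ) * hh + hh / 2 : ℝ) : ℂ) * I) (K * hh),
        ‖FB β T U z‖ ≤ ‖FB β T U p‖ := by
    intro j
    obtain ⟨p, hp, hmax⟩ := (isCompact_closedBall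
      (((1 / 2 : ℝ) : ℂ) + (((j : ℝ) * hh + hh / 2 : ℝ) : ℂ) * I) (K * hh)).exists_isMaxOn
      ⟨_, mem_closedBall_self (by positivity)⟩ (f := fun z => ‖FB β T U z‖)
      hF.continuous.norm.continuousOn
    refine ⟨p, ?_, fun z hz => hmax hz⟩
    rwa [mem_closedBall, dist_eq_norm] at hp
  choose p hp hpm using hmax
  have h4 := h1 U h p hp
  set f : ℝ → ℝ≥0∞ := fun x => ENNReal.ofReal (‖FB β T U (((1 / 2 : ℝ) : ℂ) + (x : ℂ) * I)‖ ^ β)
    with hf
  have hHf : ∫⁻ x, f x = ENNReal.ofReal H :=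
    LI_lint hF hβ (FB_gd hβ T h.pos) (by norm_num) (by norm_num)
  have h5 : ∀ j : ℤ, ∫⁻ x in Ij hh j, f x ≤
      ENNReal.ofReal (η ^ β) * ENNReal.ofReal (hh * ‖FB β T U (p j)‖ ^ β) +
      ENNReal.ofReal κ⁻¹ * ∫⁻ x in Ij hh j, E.indicator f x := by
    intro j
    rw [← ENNReal.ofReal_mul (by positivity)]
    exact local_ineq hF hβ hh0 hγ hγ1 le_rfl hη0 hδ0 hN0 hδη j (hpm j) hE (hEj j)
  have h6 : ∫⁻ x, f x ≤ ENNReal.ofReal (H / 2) + ENNReal.ofReal κ⁻¹ * ∫⁻ x in E, f x := by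
    calc ∫⁻ x, f x = ∑' j : ℤ, ∫⁻ x in Ij hh j, f x := lint_grid hh0 f
      _ ≤ ∑' j : ℤ, (ENNReal.ofReal (η ^ β) * ENNReal.ofReal (hh * ‖FB β T U (p j)‖ ^ β) +
          ENNReal.ofReal κ⁻¹ * ∫⁻ x in Ij hh j, E.indicator f x) := ENNReal.tsum_le_tsum h5
      _ = ENNReal.ofReal (η ^ β) * (∑' j : ℤ, ENNReal.ofReal (hh * ‖FB β T U (p j)‖ ^ β)) +
          ENNReal.ofReal κ⁻¹ * ∑' j : ℤ, ∫⁻ x in Ij hh j, E.indicator f x := by
          rw [ENNReal.tsum_add, ENNReal.tsum_mul_left, ENNReal.tsum_mul_left]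
      _ ≤ ENNReal.ofReal (η ^ β) * ENNReal.ofReal (C₁ * H) +
          ENNReal.ofReal κ⁻¹ * ∫⁻ x in E, f x := by
          rw [← lint_grid hh0 (E.indicator f), lintegral_indicator hE]
          gcongr
      _ = _ := by
          rw [← ENNReal.ofReal_mul (by positivity), hηβ]
          congr 2
          field_simp
  rw [hHf] at h6
  have h7 : ENNReal.ofReal (H / 2) ≤ ENNReal.ofReal κ⁻¹ * ∫⁻ x in E, f x := by
    have h8 : ENNReal.ofReal H = ENNReal.ofReal (H / 2) + ENNReal.ofReal (H / 2) := by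
      rw [← ENNReal.ofReal_add (by positivity) (by positivity)]
      congr 1
      ring
    rw [h8] at h6
    exact (ENNReal.add_le_add_iff_left ENNReal.ofReal_ne_top).mp h6
  calc ENNReal.ofReal (κ / 2 * H) = ENNReal.ofReal κ * ENNReal.ofReal (H / 2) := by
        rw [← ENNReal.ofReal_mul hκ0.le]
        congr 1
        ring
    _ ≤ ENNReal.ofReal κ * (ENNReal.ofReal κ⁻¹ * ∫⁻ x in E, f x) := by gcongr
    _ = ∫⁻ x in E, f x := by
        rw [← mul_assoc, ← ENNReal.ofReal_mul hκ0.le, mul_inv_cancel₀ hκ0.ne', ENNReal.ofReal_one,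
          one_mul]

end

end Q97.RD
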