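import Pool.Agent.Q97.RD.Zm

set_option autoImplicit false

open Filter MeasureTheory Metric Set Topology Complex
open scoped ENNReal

namespace Q97.RD

open Q97.RB Q97.MM

noncomputable section

theorem K_limit {β K ε : ℝ} (hε : 0 < ε) :
    ∃ e : ℝ, (K + e) / ((1 - e) ^ β * (1 - 2 * e)) < K + ε ∧ 0 < e ∧ e < 1 / 4 := by
  have hlim : Tendsto (fun e : ℝ => (K + e) / ((1 - e) ^ β * (1 - 2 * e))) (𝓝[>] 0) (𝓝 K) := by
    have h1 : ContinuousAt (fun e : ℝ => (K + e) / ((1 - e) ^ β * (1 - 2 * e))) 0 := by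
      have h2 : ContinuousAt (fun e : ℝ => (1 - e) ^ β) 0 :=
        ContinuousAt.rpow_const (by fun_prop) (Or.inl (by norm_num))
      refine ContinuousAt.div (by fun_prop) (h2.mul (by fun_prop)) ?_
      norm_num
    have h3 := h1.tendsto
    norm_num at h3
    exact h3.mono_left nhdsWithin_le_nhds
  have h1 := hlim.eventually (gt_mem_nhds (show K < K + ε by linarith))
  have h2 : ∀ᶠ e : ℝ in 𝓝[>] 0, 0 < e := self_mem_nhdsWithin
  have h3 : ∀ᶠ e : ℝ in 𝓝[>] 0, e < 1 / 4 := nhdsWithin_le_nhds (gt_mem_nhds (by norm_num))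
  exact (h1.and (h2.and h3)).exists

/-- Removal of the factor `s - 1` in sums over zeros. -/
theorem comb {β : ℝ} (hβ : 0 < β) {A a R : ℝ} (hA : 0 ≤ A) (ha : 0 ≤ a) (hR : 0 < R) {ε : ℝ}
    (hε : 0 < ε) : ∃ e : ℝ, 0 < e ∧ e < 1 / 4 ∧ ∀ᶠ T : ℝ in atTop, ∀ U : ℝ, Adm T U →
      ∀ p : ℂ → ℂ, (∀ ρ ∈ ZS (A / Real.log T), ‖p ρ - ρ‖ ≤ a / Real.log T) →
      ∀ (κ : ℝ) (v : ℂ → ℝ), 0 < κ →
      (∀ ρ ∈ ZS (A / Real.log T), v ρ ≤ κ * 4 ^ β * ‖FB β T U (p ρ)‖ ^ β) →
      (∀ ρ ∈ ZS (A / Real.log T), |ρ.im - T| ≤ e / 2 * T →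
        v ρ ≤ κ * (((1 - e) * T) ^ β)⁻¹ * ‖FB β T U (p ρ)‖ ^ β) →
      ∑' ρ : ZS (A / Real.log T), (mult (ρ : ℂ) : ℝ≥0∞) * ENNReal.ofReal (v ρ) ≤
      ENNReal.ofReal (κ * ((KZ β A a R + ε) * (Real.log T * MB β T U (1 / 2)))) := by
  have hK0 : 0 ≤ KZ β A a R := by unfold KZ; positivity
  obtain ⟨e, he1, he0, he2⟩ := K_limit (β := β) (K := KZ β A a R) (half_pos hε)
  obtain ⟨c, hc, hcM⟩ := HM_cmp hβ
  refine ⟨e, he0, he2, ?_⟩
  filter_upwards [all_F hβ hA ha hR he0, far_F hβ hA ha hR (half_pos he0)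
    (ε := (4 ^ β)⁻¹ * (ε / 2 * c)) (by positivity), hcM e he0 he2, eventually_ge_atTop 3]
    with T h1 h2 h3 hT U h p hp κ v hκ hv hv'
  have hT0 : 0 < T := by linarith
  have hL := h.log
  obtain ⟨g1, g5⟩ := h3 U h
  set L := Real.log T with hLd
  set H := HB β T U (1 / 2) with hH
  set M := MB β T U (1 / 2) with hM
  have hH0 : 0 ≤ H := HB_nonneg _ _ _ _
  set s : ℂ → ℝ := fun ρ => ‖FB β T U (p ρ)‖ ^ β with hs
  have hs0 : ∀ ρ, 0 ≤ s ρ := fun ρ => by positivity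
  set Far : Set ℂ := {ρ | e / 2 * (U * L) < |ρ.im - T|} with hFar
  set D : ℝ := ((1 - e) * T) ^ β with hD
  have hD0 : 0 < D := by
    have : 0 < (1 - e) * T := mul_pos (by linarith) hT0
    positivity
  have hUL : U * L ≤ T := by
    have := h.2.2
    rwa [le_div_iff₀ (by linarith)] at this
  set f : ℂ → ℝ≥0∞ := fun ρ => (mult ρ : ℝ≥0∞) * ENNReal.ofReal (s ρ) with hf
  have hpt : ∀ ρ : ZS (A / L), (mult (ρ : ℂ) : ℝ≥0∞) * ENNReal.ofReal (v ρ) ≤
      ENNReal.ofReal (κ * D⁻¹) * f ρ + ENNReal.ofReal (κ * 4 ^ β) * Far.indicator f (ρ : ℂ) := by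
    intro ρ
    by_cases hy : |(ρ : ℂ).im - T| ≤ e / 2 * T
    · refine le_trans ?_ le_self_add
      have := hv' ρ ρ.2 hy
      calc (mult (ρ : ℂ) : ℝ≥0∞) * ENNReal.ofReal (v ρ)
          ≤ (mult (ρ : ℂ) : ℝ≥0∞) * ENNReal.ofReal (κ * D⁻¹ * s ρ) := by gcongr
        _ = _ := by
            rw [hf, ENNReal.ofReal_mul (by positivity)]
            ring
    · push Not at hy
      refine le_trans ?_ le_add_self
      have hmem : (ρ : ℂ) ∈ Far := by
        change e / 2 * (U * L) < |(ρ : ℂ).im - T|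
        refine lt_of_le_of_lt ?_ hy
        gcongr
      rw [indicator_of_mem hmem]
      have := hv ρ ρ.2
      calc (mult (ρ : ℂ) : ℝ≥0∞) * ENNReal.ofReal (v ρ)
          ≤ (mult (ρ : ℂ) : ℝ≥0∞) * ENNReal.ofReal (κ * 4 ^ β * s ρ) := by gcongr
        _ = _ := by
            rw [hf, ENNReal.ofReal_mul (by positivity)]
            ring
  have hfar : ∑' ρ : ZS (A / L), Far.indicator f (ρ : ℂ) ≤ ENNReal.ofReal ((4 ^ β)⁻¹ * (ε / 2 * c)) := by
    refine le_trans (le_of_eq ?_) (h2 U h p hp)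
    rw [tsum_subtype (ZS (A / L)) (Far.indicator f), tsum_subtype (ZS (A / L) ∩ Far) f,
      indicator_indicator]
  calc ∑' ρ : ZS (A / L), (mult (ρ : ℂ) : ℝ≥0∞) * ENNReal.ofReal (v ρ)
      ≤ ∑' ρ : ZS (A / L), (ENNReal.ofReal (κ * D⁻¹) * f ρ +
          ENNReal.ofReal (κ * 4 ^ β) * Far.indicator f (ρ : ℂ)) := ENNReal.tsum_le_tsum hpt
    _ = ENNReal.ofReal (κ * D⁻¹) * (∑' ρ : ZS (A / L), f ρ) +
          ENNReal.ofReal (κ * 4 ^ β) * ∑' ρ : ZS (A / L), Far.indicator f (ρ : ℂ) := by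
        rw [ENNReal.tsum_add, ENNReal.tsum_mul_left, ENNReal.tsum_mul_left]
    _ ≤ ENNReal.ofReal (κ * D⁻¹) * ENNReal.ofReal ((KZ β A a R + e) * (L * H)) +
          ENNReal.ofReal (κ * 4 ^ β) * ENNReal.ofReal ((4 ^ β)⁻¹ * (ε / 2 * c)) := by
        gcongr
        exact h1 U h p hp
    _ ≤ ENNReal.ofReal (κ * ((KZ β A a R + ε / 2) * (L * M))) +
          ENNReal.ofReal (κ * (ε / 2 * (L * M))) := by
        have hM0 : 0 ≤ M := by linarith
        rw [← ENNReal.ofReal_mul (by positivity), ← ENNReal.ofReal_mul (by positivity)]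
        apply add_le_add
        · apply ENNReal.ofReal_le_ofReal
          rw [mul_assoc]
          apply mul_le_mul_of_nonneg_left _ hκ.le
          have c1 : (1 - e) ^ β * T ^ β = D := by
            rw [hD, Real.mul_rpow (by linarith) hT0.le]
          have c2 : 0 < (1 - e) ^ β := Real.rpow_pos_of_pos (by linarith) _
          have c3 : 0 < 1 - 2 * e := by linarith
          have c4 : D⁻¹ * ((KZ β A a R + e) * H) ≤
              (KZ β A a R + e) / ((1 - e) ^ β * (1 - 2 * e)) * M := by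
            rw [← c1, inv_mul_le_iff₀ (by positivity)]
            have c5 : (1 - e) ^ β * T ^ β * ((KZ β A a R + e) / ((1 - e) ^ β * (1 - 2 * e)) * M) =
                (KZ β A a R + e) / (1 - 2 * e) * (T ^ β * M) := by
              field_simp
            rw [c5]
            calc (KZ β A a R + e) * H = (KZ β A a R + e) / (1 - 2 * e) * (H * (1 - 2 * e)) := by
                  rw [div_mul_eq_mul_div, eq_div_iff c3.ne']
                  ring
              _ ≤ _ := by gcongr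
          calc D⁻¹ * ((KZ β A a R + e) * (L * H)) = L * (D⁻¹ * ((KZ β A a R + e) * H)) := by ring
            _ ≤ L * ((KZ β A a R + e) / ((1 - e) ^ β * (1 - 2 * e)) * M) := by gcongr
            _ ≤ L * ((KZ β A a R + ε / 2) * M) := by gcongr
            _ = _ := by ring
        · apply ENNReal.ofReal_le_ofReal
          have c6 : 0 < (4 : ℝ) ^ β := by positivity
          calc κ * 4 ^ β * ((4 ^ β)⁻¹ * (ε / 2 * c)) = κ * (ε / 2 * c) := by
                field_simp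
            _ ≤ κ * (ε / 2 * (L * M)) := by
                gcongr
                nlinarith
    _ = _ := by
        have hM0 : 0 ≤ M := by linarith
        rw [← ENNReal.ofReal_add (by positivity) (by positivity)]
        congr 1
        ring

/-- The comparison of `ζ` and `FB` at a point near `T`, and everywhere in the strip. -/
theorem zeta_le {β : ℝ} (hβ : 0 < β) {T U : ℝ} (hU : 0 < U) {z : ℂ} (h1 : |z.re - 1 / 2| ≤ 1 / 4)
    {d : ℝ} (hd0 : 0 < d) (hd : d ≤ ‖z - 1‖) :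
    ‖riemannZeta z‖ ^ β * wt T U z.im ≤ (d ^ β)⁻¹ * ‖FB β T U z‖ ^ β := by
  have hne : z ≠ 1 := by
    rintro rfl
    simp at h1
    rw [abs_of_nonneg (by norm_num)] at h1
    norm_num at h1
  have e1 : z = (z.re : ℂ) + z.im * I := (Complex.re_add_im z).symm
  have h2 : ‖FB β T U z‖ ^ β = Real.exp ((z.re - 1 / 2) ^ 2 / U ^ 2) *
      (‖Z1 z‖ ^ β * wt T U z.im) := by
    have := FB_pow (T := T) hβ hU z.re z.im
    rwa [← e1] at this
  have hw := wt_pos T U z.im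
  have hdβ : 0 < d ^ β := by positivity
  rw [h2, Z1_of_ne hne, norm_mul, Real.mul_rpow (norm_nonneg _) (norm_nonneg _),
    le_inv_mul_iff₀ hdβ]
  have h3 : 1 ≤ Real.exp ((z.re - 1 / 2) ^ 2 / U ^ 2) := Real.one_le_exp (by positivity)
  have h4 : d ^ β ≤ ‖z - 1‖ ^ β := Real.rpow_le_rpow hd0.le hd hβ.le
  calc d ^ β * (‖riemannZeta z‖ ^ β * wt T U z.im)
      ≤ ‖z - 1‖ ^ β * (‖riemannZeta z‖ ^ β * wt T U z.im) := by gcongr
    _ = 1 * (‖z - 1‖ ^ β * ‖riemannZeta z‖ ^ β * wt T U z.im) := by ring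
    _ ≤ _ := by gcongr

theorem dist_one {z : ℂ} (h1 : |z.re - 1 / 2| ≤ 1 / 4) : 1 / 4 ≤ ‖z - 1‖ := by
  have h2 := Complex.abs_re_le_norm (z - 1)
  rw [Complex.sub_re, Complex.one_re] at h2
  have h3 := abs_le.mp h1
  rw [abs_of_nonpos (by linarith [h3.2])] at h2
  linarith [h3.2]

/-- **Discrete moments at points near the zeros.** -/
theorem near_zeros {β : ℝ} (hβ : 0 < β) {A a R : ℝ} (hA : 0 ≤ A) (ha : 0 ≤ a) (hR : 0 < R)
    {ε : ℝ} (hε : 0 < ε) : ∀ᶠ T : ℝ in atTop, ∀ U : ℝ, Adm T U →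
      ∀ p : ℂ → ℂ, (∀ ρ ∈ ZS (A / Real.log T), ‖p ρ - ρ‖ ≤ a / Real.log T) →
      ∑' ρ : ZS (A / Real.log T), (mult (ρ : ℂ) : ℝ≥0∞) *
        ENNReal.ofReal (‖riemannZeta (p ρ)‖ ^ β * wt T U (p ρ).im) ≤
      ENNReal.ofReal ((KZ β A a R + ε) * (Real.log T * MB β T U (1 / 2))) := by
  obtain ⟨e, he0, he2, hc⟩ := comb hβ hA ha hR hε
  filter_upwards [hc, (log_div_tendsto (A + a)).eventually
    (gt_mem_nhds (show (0 : ℝ) < 1 / 4 by norm_num)), eventually_ge_atTop 3,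
    eventually_ge_atTop (1 / e)]
    with T h1 h2 hT hTe U h p hp
  have hT0 : 0 < T := by linarith
  have hL := h.log
  have hL0 : 0 < Real.log T := by linarith
  rw [abs_of_nonneg (by positivity)] at h2
  have hd0 : 0 < (1 - e) * T := mul_pos (by linarith) hT0
  have hre : ∀ ρ ∈ ZS (A / Real.log T), |(p ρ).re - 1 / 2| ≤ 1 / 4 := by
    intro ρ hρ
    have h3 := (Complex.abs_re_le_norm (p ρ - ρ)).trans (hp ρ hρ)
    rw [Complex.sub_re] at h3
    have h4 := hρ.2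
    calc |(p ρ).re - 1 / 2| = |((p ρ).re - ρ.re) + (ρ.re - 1 / 2)| := by ring_nf
      _ ≤ |(p ρ).re - ρ.re| + |ρ.re - 1 / 2| := abs_add_le _ _
      _ ≤ a / Real.log T + A / Real.log T := add_le_add h3 h4
      _ = (A + a) / Real.log T := by ring
      _ ≤ 1 / 4 := h2.le
  have h5 := h1 U h p hp 1 (fun ρ => ‖riemannZeta (p ρ)‖ ^ β * wt T U (p ρ).im) one_pos
    (fun ρ hρ => by
      have h6 := zeta_le hβ (T := T) h.pos (hre ρ hρ) (d := 1 / 4) (by norm_num)
        (dist_one (hre ρ hρ))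
      refine h6.trans (le_of_eq ?_)
      rw [one_mul, ← Real.inv_rpow (by norm_num)]
      norm_num)
    (fun ρ hρ hy => by
      rw [one_mul]
      refine zeta_le hβ h.pos (hre ρ hρ) hd0 ?_
      have h3 := (Complex.abs_im_le_norm (p ρ - ρ)).trans (hp ρ hρ)
      rw [Complex.sub_im] at h3
      have h6 : a / Real.log T ≤ 1 / 4 := by
        have : a / Real.log T ≤ (A + a) / Real.log T := by
          gcongr
          linarith
        linarith
      have h7 := Complex.abs_im_le_norm (p ρ - 1)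
      rw [Complex.sub_im, Complex.one_im, sub_zero] at h7
      have h8 := (abs_le.mp hy).1
      have h9 := (abs_le.mp h3).1
      have h10 : 1 ≤ e * T := by
        rw [div_le_iff₀ he0] at hTe
        linarith
      refine le_trans ?_ ((le_abs_self _).trans h7)
      nlinarith)
  simpa only [one_mul] using h5

end

end Q97.RD
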