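import Pool.Agent.Q97.RD.Zc

set_option autoImplicit false

open Filter MeasureTheory Metric Set Topology Complex
open scoped ENNReal

namespace Q97.RD

open Q97.RB Q97.MM

noncomputable section

/-- The derivative of the entire function at a zero of zeta. -/
theorem deriv_FB {β : ℝ} (hβ : 0 < β) {T U : ℝ} (hU : 0 < U) {ρ : ℂ} (h : riemannZeta ρ = 0) :
    ‖ρ - 1‖ ^ β * (‖deriv riemannZeta ρ‖ ^ β * wt T U ρ.im) ≤ ‖deriv (FB β T U) ρ‖ ^ β := by
  have hne : ρ ≠ 1 := by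
    rintro rfl
    exact riemannZeta_one_ne_zero h
  set V : ℝ := U * √(β / 2) with hV
  set E : ℂ → ℂ := fun s => cexp ((s - 1 / 2 - T * I) ^ 2 / (2 * (V : ℂ) ^ 2)) with hE
  have hEd : Differentiable ℂ E := by
    rw [hE]; fun_prop
  have e : FB β T U = fun s => Z1 s * E s := by
    funext s
    simp only [FB, FF, pow_one, hE]
    rfl
  have hZ0 : Z1 ρ = 0 := by rw [Z1_of_ne hne, h, mul_zero]
  have hZd : deriv Z1 ρ = (ρ - 1) * deriv riemannZeta ρ := by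
    have h1 : Z1 =ᶠ[𝓝 ρ] fun s => (s - 1) * riemannZeta s := by
      filter_upwards [isOpen_ne.mem_nhds hne] with z hz
      exact Z1_of_ne hz
    rw [h1.deriv_eq]
    have h2 : HasDerivAt (fun s : ℂ => (s - 1) * riemannZeta s)
        (1 * riemannZeta ρ + (ρ - 1) * deriv riemannZeta ρ) ρ :=
      ((hasDerivAt_id ρ).sub_const 1).mul (differentiableAt_riemannZeta hne).hasDerivAt
    rw [h2.deriv, h]
    ring
  have hd : deriv (FB β T U) ρ = (ρ - 1) * deriv riemannZeta ρ * E ρ := by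
    rw [e]
    have h2 : HasDerivAt (fun s : ℂ => Z1 s * E s) (deriv Z1 ρ * E ρ + Z1 ρ * deriv E ρ) ρ :=
      (Z1_differentiable ρ).hasDerivAt.mul (hEd ρ).hasDerivAt
    rw [h2.deriv, hZ0, hZd]
    ring
  have hEn : wt T U ρ.im ≤ ‖E ρ‖ ^ β := by
    have e1 : ρ = (ρ.re : ℂ) + ρ.im * I := (Complex.re_add_im ρ).symm
    have h3 : 2 * V ^ 2 = β * U ^ 2 := by
      rw [hV, mul_pow, Real.sq_sqrt (by positivity)]
      ring
    have h4 : ‖E ρ‖ = Real.exp (((ρ.re - 1 / 2) ^ 2 - (ρ.im - T) ^ 2) / (2 * V ^ 2)) := by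
      rw [hE]
      simp only
      rw [Complex.norm_exp]
      have := exp_re T V ρ.re ρ.im
      rw [← e1] at this
      rw [this]
    rw [h4, h3, ← Real.exp_mul, wt, Real.exp_le_exp]
    have e2 : ((ρ.re - 1 / 2) ^ 2 - (ρ.im - T) ^ 2) / (β * U ^ 2) * β =
        (ρ.re - 1 / 2) ^ 2 / U ^ 2 + -((ρ.im - T) / U) ^ 2 := by
      rw [div_pow]
      field_simp
      ring
    rw [e2]
    have : 0 ≤ (ρ.re - 1 / 2) ^ 2 / U ^ 2 := by positivity
    linarith
  rw [hd, norm_mul, norm_mul, Real.mul_rpow (by positivity) (norm_nonneg _),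
    Real.mul_rpow (norm_nonneg _) (norm_nonneg _)]
  have hw := wt_pos T U ρ.im
  calc ‖ρ - 1‖ ^ β * (‖deriv riemannZeta ρ‖ ^ β * wt T U ρ.im)
      = ‖ρ - 1‖ ^ β * ‖deriv riemannZeta ρ‖ ^ β * wt T U ρ.im := by ring
    _ ≤ _ := by gcongr

/-- the point of a circle at which `|F|` is maximal -/
theorem max_pt {F : ℂ → ℂ} (hF : Differentiable ℂ F) {r : ℝ} (hr : 0 < r) (ρ : ℂ) :
    ∃ p : ℂ, ‖p - ρ‖ ≤ r ∧ ‖deriv F ρ‖ ≤ ‖F p‖ / r := by
  have hne : (sphere ρ r).Nonempty := NormedSpace.sphere_nonempty.mpr hr.le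
  obtain ⟨p, hp, hmax⟩ := (isCompact_sphere ρ r).exists_isMaxOn hne
    (f := fun z => ‖F z‖) (hF.continuous.norm.continuousOn)
  refine ⟨p, ?_, ?_⟩
  · rw [mem_sphere, dist_eq_norm] at hp
    exact hp.le
  · exact Complex.norm_deriv_le_of_forall_mem_sphere_norm_le hr hF.diffContOnCl
      fun z hz => hmax hz

/-- **Discrete moments of the derivative over zeros.** -/
theorem deriv_zeros {β : ℝ} (hβ : 0 < β) {A a R : ℝ} (hA : 0 ≤ A) (ha : 0 < a) (hR : 0 < R)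
    {ε : ℝ} (hε : 0 < ε) : ∀ᶠ T : ℝ in atTop, ∀ U : ℝ, Adm T U →
      ∑' ρ : ZS (A / Real.log T), ENNReal.ofReal (‖deriv riemannZeta ρ‖ ^ β * wt T U (ρ : ℂ).im) ≤
      ENNReal.ofReal ((a ^ β)⁻¹ * (KZ β A a R + ε) *
        (Real.log T ^ (β + 1) * MB β T U (1 / 2))) := by
  obtain ⟨e, he0, he2, hc⟩ := comb hβ hA ha.le hR hε
  filter_upwards [hc, (log_div_tendsto A).eventually
    (gt_mem_nhds (show (0 : ℝ) < 1 / 4 by norm_num)), eventually_ge_atTop 3]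
    with T h1 h2 hT U h
  have hT0 : 0 < T := by linarith
  have hL := h.log
  have hL0 : 0 < Real.log T := by linarith
  rw [abs_of_nonneg (by positivity)] at h2
  have hd0 : 0 < (1 - e) * T := mul_pos (by linarith) hT0
  set L := Real.log T with hLd
  have hr0 : 0 < a / L := by positivity
  choose p hp hpd using max_pt (FB_diff β T U) hr0
  have hκ0 : 0 < (L / a) ^ β := by positivity
  -- the basic inequality
  have key : ∀ ρ ∈ ZS (A / L), ∀ d : ℝ, 0 < d → d ≤ ‖ρ - 1‖ →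
      ‖deriv riemannZeta ρ‖ ^ β * wt T U ρ.im ≤ (L / a) ^ β * (d ^ β)⁻¹ * ‖FB β T U (p ρ)‖ ^ β := by
    intro ρ hρ d hd hd1
    have a1 := deriv_FB hβ (T := T) h.pos hρ.1
    have a2 : ‖deriv (FB β T U) ρ‖ ^ β ≤ (L / a) ^ β * ‖FB β T U (p ρ)‖ ^ β := by
      rw [← Real.mul_rpow (by positivity) (norm_nonneg _)]
      apply Real.rpow_le_rpow (norm_nonneg _) _ hβ.le
      refine (hpd ρ).trans (le_of_eq ?_)
      field_simp
    have hw := wt_pos T U ρ.im
    have a3 : d ^ β * (‖deriv riemannZeta ρ‖ ^ β * wt T U ρ.im) ≤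
        (L / a) ^ β * ‖FB β T U (p ρ)‖ ^ β := by
      refine le_trans ?_ (a1.trans a2)
      have : d ^ β ≤ ‖ρ - 1‖ ^ β := Real.rpow_le_rpow hd.le hd1 hβ.le
      gcongr
    have hdβ : 0 < d ^ β := by positivity
    calc ‖deriv riemannZeta ρ‖ ^ β * wt T U ρ.im
        = (d ^ β)⁻¹ * (d ^ β * (‖deriv riemannZeta ρ‖ ^ β * wt T U ρ.im)) := by
          field_simp
      _ ≤ (d ^ β)⁻¹ * ((L / a) ^ β * ‖FB β T U (p ρ)‖ ^ β) := by gcongr
      _ = _ := by ring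
  have h5 := h1 U h p (fun ρ _ => hp ρ) ((L / a) ^ β)
    (fun ρ => ‖deriv riemannZeta ρ‖ ^ β * wt T U ρ.im) hκ0
    (fun ρ hρ => by
      have h6 := key ρ hρ (1 / 4) (by norm_num) (dist_one (hρ.2.trans h2.le))
      refine h6.trans (le_of_eq ?_)
      rw [← Real.inv_rpow (by norm_num)]
      norm_num)
    (fun ρ hρ hy => by
      refine key ρ hρ _ hd0 ?_
      have h7 := Complex.abs_im_le_norm (ρ - 1)
      rw [Complex.sub_im, Complex.one_im, sub_zero] at h7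
      have h8 := (abs_le.mp hy).1
      refine le_trans ?_ ((le_abs_self _).trans h7)
      nlinarith)
  calc ∑' ρ : ZS (A / L), ENNReal.ofReal (‖deriv riemannZeta ρ‖ ^ β * wt T U (ρ : ℂ).im)
      ≤ ∑' ρ : ZS (A / L), (mult (ρ : ℂ) : ℝ≥0∞) *
        ENNReal.ofReal (‖deriv riemannZeta ρ‖ ^ β * wt T U (ρ : ℂ).im) := by
        refine ENNReal.tsum_le_tsum fun ρ => ?_
        have : 1 ≤ mult (ρ : ℂ) := Nat.one_le_iff_ne_zero.mpr (mult_ne_zero ρ.2.1)
        have h9 : (1 : ℝ≥0∞) ≤ (mult (ρ : ℂ) : ℝ≥0∞) := by exact_mod_cast this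
        calc ENNReal.ofReal (‖deriv riemannZeta ρ‖ ^ β * wt T U (ρ : ℂ).im)
            = 1 * ENNReal.ofReal (‖deriv riemannZeta ρ‖ ^ β * wt T U (ρ : ℂ).im) := (one_mul _).symm
          _ ≤ _ := by gcongr
    _ ≤ _ := h5
    _ = _ := by
        congr 1
        rw [Real.div_rpow hL0.le ha.le, Real.rpow_add hL0, Real.rpow_one]
        field_simp

end

end Q97.RD
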