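import Pool.Agent.Q97.RD.St
import Pool.Agent.Q97.RB.Off

set_option autoImplicit false

open Filter MeasureTheory Metric Set Topology Complex
open scoped ENNReal

namespace Q97.RD

open Q97.RB Q97.MM

noncomputable section

theorem mult_ne_zero {ρ : ℂ} (h : riemannZeta ρ = 0) : mult ρ ≠ 0 := by
  have hne : ρ ≠ 1 := by
    rintro rfl
    exact riemannZeta_one_ne_zero h
  have hZ := Z1_differentiable.analyticAt ρ
  rw [← ord_Z1]
  have h0 : Z1 ρ = 0 := by rw [Z1_of_ne hne, h, mul_zero]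
  have h1 : analyticOrderAt Z1 ρ ≠ 0 := by
    rw [Ne, hZ.analyticOrderAt_eq_zero]
    exact fun h2 => h2 h0
  have h2 : analyticOrderAt Z1 ρ ≠ ⊤ := by
    intro h3
    rw [analyticOrderAt_eq_top] at h3
    have hA : AnalyticOnNhd ℂ Z1 univ := fun z _ => Z1_differentiable.analyticAt z
    have h4 := hA.eq_of_eventuallyEq (g := fun _ => 0) (fun z _ => analyticAt_const) h3
    have h5 := congrFun h4 1
    rw [Z1_one] at h5
    exact one_ne_zero h5
  unfold analyticOrderNatAt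
  intro h3
  rcases ENat.toNat_eq_zero.mp h3 with h4 | h4
  · exact h1 h4
  · exact h2 h4

theorem zeros_countable : {ρ : ℂ | riemannZeta ρ = 0}.Countable := by
  have h1 : {ρ : ℂ | riemannZeta ρ = 0} ⊆ ⋃ n : ℕ, {ρ : ℂ | ρ ∈ closedBall 0 (n : ℝ) ∧ mult ρ ≠ 0} := by
    intro ρ hρ
    obtain ⟨n, hn⟩ := exists_nat_ge ‖ρ‖
    refine mem_iUnion.mpr ⟨n, ?_, mult_ne_zero hρ⟩
    rw [mem_closedBall, dist_zero_right]
    exact hn
  exact (countable_iUnion fun n : ℕ => (fin_supp 0 (n : ℝ)).countable).mono h1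

theorem FB_zero (β T U : ℝ) {u : ℂ} (h : riemannZeta u = 0) : FB β T U u = 0 := by
  have hne : u ≠ 1 := by
    rintro rfl
    exact riemannZeta_one_ne_zero h
  rw [FB, FF, Z1_of_ne hne, h]
  simp

/-- The circle averages far from `T`. -/
theorem far_cav {β : ℝ} (hβ : 0 < β) (D : ℕ) {e : ℝ} (he : 0 < e) : ∀ᶠ T : ℝ in atTop,
    ∀ U : ℝ, Adm T U → ∀ x y r : ℝ, |x - 1 / 2| ≤ 1 / 8 → 0 < r → r ≤ 1 / 8 →
      e * (U * Real.log T) < |y - T| →
      Real.circleAverage (fun z => ‖FB β T U z‖ ^ β) (x + y * I) r ≤ 4 * Q97.BS.tR D T y := by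
  have he2 : 0 < e / 2 := by positivity
  filter_upwards [Q97.BS.tail ⌈2 * β⌉₊ D (Real.exp 1 * 45 ^ β) he2,
    Real.tendsto_log_atTop.eventually (eventually_ge_atTop (1 / (4 * e))), eventually_ge_atTop 3]
    with T h1 h2 hT U h x y r hx hr hr1 hy
  have hT0 : 0 < T := by linarith
  have hU1 := h.2.1
  have hU : 0 < U := by linarith
  have hci : CircleIntegrable (fun z => ‖FB β T U z‖ ^ β) (x + y * I) r :=
    ((pw_cont (FB_diff β T U) hβ).comp (continuous_circleMap _ r)).intervalIntegrable _ _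
  apply Real.circleAverage_mono_on_of_le_circle hci
  intro z hz
  rw [mem_sphere, abs_of_pos hr, dist_eq_norm] at hz
  have e1 : z = (z.re : ℂ) + z.im * I := (Complex.re_add_im z).symm
  have h5 := Complex.abs_re_le_norm (z - (x + y * I))
  have h6 := Complex.abs_im_le_norm (z - (x + y * I))
  rw [hz] at h5 h6
  have e2 : (z - (x + y * I)).re = z.re - x := by simp
  have e3 : (z - (x + y * I)).im = z.im - y := by simp
  rw [e2] at h5
  rw [e3] at h6
  have a0 : |z.re - 1 / 2| ≤ 1 / 4 := by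
    calc |z.re - 1 / 2| = |(z.re - x) + (x - 1 / 2)| := by ring_nf
      _ ≤ |z.re - x| + |x - 1 / 2| := abs_add_le _ _
      _ ≤ _ := by linarith
  have a0' := abs_le.mp a0
  have a1 : |y - T| ≤ |z.im - T| + 1 / 8 := by
    calc |y - T| = |(z.im - T) - (z.im - y)| := by ring_nf
      _ ≤ |z.im - T| + |z.im - y| := abs_sub _ _
      _ ≤ _ := by linarith
  have a2 : 1 / 8 ≤ e / 2 * (U * Real.log T) := by
    have h3 : 1 / (4 * e) ≤ U * Real.log T := by
      have := h.log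
      nlinarith
    calc (1 : ℝ) / 8 = e / 2 * (1 / (4 * e)) := by field_simp; norm_num
      _ ≤ _ := by gcongr
  have a3 : e / 2 * (U * Real.log T) < |z.im - T| := by linarith
  have h7 := h1 U h z.im a3
  have h8 := Z1_rpow_bd hβ (x := z.re) (by linarith [a0'.1]) (by linarith [a0'.2]) z.im
  have hw := wt_pos T U z.im
  have h9 : (z.re - 1 / 2) ^ 2 / U ^ 2 ≤ 1 := by
    rw [div_le_one (by positivity)]
    have : (z.re - 1 / 2) ^ 2 ≤ 1 := by
      rw [← sq_abs]
      nlinarith [abs_nonneg (z.re - 1 / 2)]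
    nlinarith
  have h10 : ‖FB β T U z‖ ^ β ≤ Q97.BS.tR D T z.im := by
    rw [e1, FB_pow hβ hU]
    rw [e1] at h8
    simp only [Complex.add_re, Complex.ofReal_re, Complex.mul_re, Complex.I_re, mul_zero,
      Complex.ofReal_im, Complex.I_im, mul_one, sub_self, add_zero, Complex.add_im,
      Complex.mul_im, zero_add] at h8 ⊢
    refine le_trans ?_ h7
    calc Real.exp ((z.re - 1 / 2) ^ 2 / U ^ 2) * (‖Z1 (z.re + z.im * I)‖ ^ β * wt T U z.im)
        ≤ Real.exp 1 * (45 ^ β * (1 + |z.im|) ^ ⌈2 * β⌉₊ * wt T U z.im) := by gcongr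
      _ = _ := by ring
  refine h10.trans ?_
  have hy0 := abs_nonneg (z.im - T)
  have hy1 := abs_nonneg (y - T)
  unfold Q97.BS.tR
  rw [mul_one_div, div_le_div_iff₀ (by positivity) (by positivity)]
  have a4 : 1 + |y - T| ≤ 2 * (1 + |z.im - T|) := by linarith
  calc 1 * (T ^ D * (1 + |y - T|) ^ 2) ≤ 1 * (T ^ D * (2 * (1 + |z.im - T|)) ^ 2) := by gcongr
    _ = _ := by ring

/-- The comparison of the two moments. -/
theorem HM_cmp {β : ℝ} (hβ : 0 < β) : ∃ c : ℝ, 0 < c ∧ ∀ e : ℝ, 0 < e → e < 1 / 4 →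
    ∀ᶠ T : ℝ in atTop, ∀ U : ℝ, Adm T U →
      HB β T U (1 / 2) * (1 - 2 * e) ≤ T ^ β * MB β T U (1 / 2) ∧ c ≤ MB β T U (1 / 2) := by
  obtain ⟨c, hc, hc'⟩ := H0_lower hβ
  refine ⟨c / 2, by positivity, fun e he0 he2 => ?_⟩
  filter_upwards [F1 hβ 0 he0, eventually_ge_atTop 3] with T h2 hT U h
  have hT0 : 0 < T := by linarith
  have hU := h.pos
  have hV0 := HB_pos hβ h (x := 1 / 2) (by norm_num) (by norm_num)
  set H := HB β T U (1 / 2) with hH
  set M := MB β T U (1 / 2) with hM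
  have hTβ : 0 < T ^ β := by positivity
  have g1 : H * (1 - 2 * e) ≤ T ^ β * M := by
    have g2 := (abs_le.mp (h2 U h)).2
    rw [GB_zero hβ h] at g2
    have g3 : JB β T U 0 = T ^ β * M / H := by
      unfold JB
      rw [zero_div, add_zero]
    rw [g3] at g2
    have g4 : 1 - 2 * e ≤ T ^ β * M / H := by linarith
    rw [le_div_iff₀ hV0] at g4
    linarith
  refine ⟨g1, ?_⟩
  have g6 := hc' T U h
  have g7 : T ^ β * (c / 2) ≤ T ^ β * M := by
    have g8 : c * (T ^ β * U) * (1 / 2) ≤ H * (1 - 2 * e) := by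
      have : 0 ≤ c * (T ^ β * U) := by positivity
      nlinarith
    have g9 : T ^ β * c ≤ c * (T ^ β * U) := by
      have : T ^ β * 1 ≤ T ^ β * U := mul_le_mul_of_nonneg_left h.2.1 hTβ.le
      nlinarith
    linarith
  exact le_of_mul_le_mul_left g7 hTβ

end

end Q97.RD
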