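import Pool.Agent.Q97.RD.Zf

set_option autoImplicit false

open Filter MeasureTheory Metric Set Topology Complex
open scoped ENNReal

namespace Q97.RD

open Q97.RB Q97.MM

noncomputable section

/-- the zeros of zeta in a strip around the critical line -/
def ZS (b : ℝ) : Set ℂ := {ρ | riemannZeta ρ = 0 ∧ |ρ.re - 1 / 2| ≤ b}

theorem ZS_countable (b : ℝ) : (ZS b).Countable := zeros_countable.mono fun _ h => h.1

theorem enn_div {X : ℝ≥0∞} {κ v : ℝ} (hκ : 0 < κ) (h : ENNReal.ofReal κ * X ≤ ENNReal.ofReal v) :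
    X ≤ ENNReal.ofReal (κ⁻¹ * v) := by
  have h1 : X = ENNReal.ofReal κ⁻¹ * (ENNReal.ofReal κ * X) := by
    rw [← mul_assoc, ← ENNReal.ofReal_mul (by positivity), inv_mul_cancel₀ hκ.ne',
      ENNReal.ofReal_one, one_mul]
  rw [h1, ENNReal.ofReal_mul (by positivity)]
  gcongr

/-- the constant -/
def KZ (β A a R : ℝ) : ℝ := 2 * (A + a + R) / (Real.pi * Real.exp 1 * β * R ^ 2) *
  Real.exp (β * (A + (a + R) * (1 + Real.exp 1)))

theorem ball_strip {ρ : ℂ} {b r b' : ℝ} (h : |ρ.re - 1 / 2| ≤ b) (hb : b + r ≤ b') :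
    closedBall ρ r ⊆ Sp b' := by
  intro w hw
  rw [mem_closedBall, dist_eq_norm] at hw
  have h1 := (Complex.abs_re_le_norm (w - ρ)).trans hw
  rw [Complex.sub_re] at h1
  change |w.re - 1 / 2| ≤ b'
  calc |w.re - 1 / 2| = |(w.re - ρ.re) + (ρ.re - 1 / 2)| := by ring_nf
    _ ≤ |w.re - ρ.re| + |ρ.re - 1 / 2| := abs_add_le _ _
    _ ≤ b' := by linarith

/-- The sum over all zeros in the strip. -/
theorem all_F {β : ℝ} (hβ : 0 < β) {A a R : ℝ} (hA : 0 ≤ A) (ha : 0 ≤ a) (hR : 0 < R) {ε : ℝ}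
    (hε : 0 < ε) : ∀ᶠ T : ℝ in atTop, ∀ U : ℝ, Adm T U → ∀ p : ℂ → ℂ,
      (∀ ρ ∈ ZS (A / Real.log T), ‖p ρ - ρ‖ ≤ a / Real.log T) →
      ∑' ρ : ZS (A / Real.log T), (mult (ρ : ℂ) : ℝ≥0∞) *
        ENNReal.ofReal (‖FB β T U (p ρ)‖ ^ β) ≤
      ENNReal.ofReal ((KZ β A a R + ε) * (Real.log T * HB β T U (1 / 2))) := by
  have hE : 0 < Real.exp 1 := Real.exp_pos 1
  have hπ := Real.pi_pos
  set A' := A + (a + R) * (1 + Real.exp 1) with hA'
  have hA'0 : 0 < A' := by positivity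
  set k := 2 * (A + a + R) / (Real.pi * Real.exp 1 * β * R ^ 2) with hk
  have hk0 : 0 < k := by positivity
  filter_upwards [HB_unif hβ hA'0 (ε := ε / k) (by positivity),
    (log_div_tendsto A').eventually (gt_mem_nhds (show (0 : ℝ) < 1 / 4 by norm_num))]
    with T h1 h3 U h p hp
  have hL := h.log
  have hL0 : 0 < Real.log T := by linarith
  set L := Real.log T with hLd
  rw [abs_of_pos (by positivity)] at h3
  set H := HB β T U (1 / 2) with hH
  have hH0 : 0 ≤ H := HB_nonneg _ _ _ _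
  set δ := R / L with hδ
  set r := (a + R) / L with hr
  set b := (A + a + R) / L with hb
  have hδ0 : 0 < δ := by positivity
  have hr0 : 0 < r := by positivity
  have hbr : b + r * Real.exp 1 = A' / L := by
    rw [hb, hr, hA']
    field_simp
    ring
  have hr1 : 0 < r * Real.exp 1 := by positivity
  have hz := zsum (FB_diff β T U) hβ (ord_FB β T U) (fun u hu => FB_zero β T U hu)
    (ZS_countable (A / L)) p (δ := δ) (r := r) (W := Sp b) hδ0
    (fun ρ hρ => by
      have := hp ρ hρ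
      have e : r = a / L + R / L := by rw [hr]; ring
      rw [e]
      linarith)
    (fun ρ hρ => ball_strip hρ.2 (by rw [hr, hb]; apply le_of_eq; ring)) (Sp_meas b)
  have hst := strip_cav (FB_diff β T U) hβ (FB_gd hβ T h.pos) (b := b) (r := r * Real.exp 1) hr1
    (by linarith) (by linarith) (S := (Real.exp (β * A') + ε / k) * H) (by positivity)
    (fun x hx => h1 U h x (by rw [hbr] at hx; exact hx)) (c := (Real.exp 1 * β)⁻¹) (by positivity)
  have h4 := hz.trans hst
  have e1 : ∀ ρ : ZS (A / L), (mult (ρ : ℂ) : ℝ≥0∞) *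
      ENNReal.ofReal (Real.pi * δ ^ 2 * ‖FB β T U (p ρ)‖ ^ β) =
      ENNReal.ofReal (Real.pi * δ ^ 2) * ((mult (ρ : ℂ) : ℝ≥0∞) *
        ENNReal.ofReal (‖FB β T U (p ρ)‖ ^ β)) := by
    intro ρ
    rw [ENNReal.ofReal_mul (by positivity)]
    ring
  simp only [e1] at h4
  rw [ENNReal.tsum_mul_left] at h4
  refine (enn_div (by positivity) h4).trans (le_of_eq ?_)
  congr 1
  have e2 : KZ β A a R = k * Real.exp (β * A') := rfl
  rw [e2, hb, hδ]
  have e3 : (k * Real.exp (β * A') + ε) = k * (Real.exp (β * A') + ε / k) := by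
    field_simp
  rw [e3, hk]
  field_simp

/-- The sum over the zeros far from `T`. -/
theorem far_F {β : ℝ} (hβ : 0 < β) {A a R : ℝ} (hA : 0 ≤ A) (ha : 0 ≤ a) (hR : 0 < R) {e : ℝ}
    (he : 0 < e) {ε : ℝ} (hε : 0 < ε) : ∀ᶠ T : ℝ in atTop, ∀ U : ℝ, Adm T U → ∀ p : ℂ → ℂ,
      (∀ ρ ∈ ZS (A / Real.log T), ‖p ρ - ρ‖ ≤ a / Real.log T) →
      ∑' ρ : ↥(ZS (A / Real.log T) ∩ {ρ | e * (U * Real.log T) < |ρ.im - T|}),
        (mult (ρ : ℂ) : ℝ≥0∞) * ENNReal.ofReal (‖FB β T U (p ρ)‖ ^ β) ≤ ENNReal.ofReal ε := by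
  have hE : 0 < Real.exp 1 := Real.exp_pos 1
  have hE1 : 1 ≤ Real.exp 1 := Real.one_le_exp (by norm_num)
  have hπ := Real.pi_pos
  set A' := A + (a + R) * (1 + Real.exp 1) with hA'
  have hA'0 : 0 < A' := by positivity
  set k := (Real.pi * R ^ 2)⁻¹ * ((Real.exp 1 * β)⁻¹ * (2 * (A + a + R) * (4 * Real.pi))) with hk
  have hk0 : 0 < k := by positivity
  have hlim : Tendsto (fun T : ℝ => k * (Real.log T / T)) atTop (𝓝 0) := by
    have h1 : Tendsto (fun T : ℝ => Real.log T / T) atTop (𝓝 0) := by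
      have := Real.isLittleO_log_id_atTop.tendsto_div_nhds_zero
      exact this
    have := h1.const_mul k
    rwa [mul_zero] at this
  filter_upwards [far_cav hβ 1 (half_pos he), hlim.eventually (gt_mem_nhds hε),
    (log_div_tendsto A').eventually (gt_mem_nhds (show (0 : ℝ) < 1 / 8 by norm_num)),
    Real.tendsto_log_atTop.eventually (eventually_ge_atTop (1 / (4 * e))), eventually_ge_atTop 3]
    with T h1 h2 h3 h5 hT U h p hp
  have hT0 : 0 < T := by linarith
  have hL := h.log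
  have hL0 : 0 < Real.log T := by linarith
  set L := Real.log T with hLd
  rw [abs_of_pos (by positivity)] at h3
  set δ := R / L with hδ
  set r := (a + R) / L with hr
  set b := (A + a + R) / L with hb
  have hδ0 : 0 < δ := by positivity
  have hr0 : 0 < r := by positivity
  have hb0 : 0 < b := by positivity
  have hbr : b + r * Real.exp 1 = A' / L := by
    rw [hb, hr, hA']
    field_simp
    ring
  have hr1 : 0 < r * Real.exp 1 := by positivity
  have hrr : r ≤ r * Real.exp 1 := le_mul_of_one_le_right hr0.le hE1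
  set Y : Set ℝ := {y | e / 2 * (U * L) < |y - T|} with hY
  have hYm : MeasurableSet Y := measurableSet_lt measurable_const (by fun_prop)
  have hU1 := h.2.1
  have a2 : 1 / 8 ≤ e / 2 * (U * L) := by
    have h3 : 1 / (4 * e) ≤ U * L := by nlinarith
    calc (1 : ℝ) / 8 = e / 2 * (1 / (4 * e)) := by field_simp; norm_num
      _ ≤ _ := by gcongr
  have hz := zsum (FB_diff β T U) hβ (ord_FB β T U) (fun u hu => FB_zero β T U hu)
    (Z := ZS (A / L) ∩ {ρ | e * (U * L) < |ρ.im - T|})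
    ((ZS_countable (A / L)).mono inter_subset_left) p (δ := δ) (r := r)
    (W := Sp b ∩ {z | z.im ∈ Y}) hδ0
    (fun ρ hρ => by
      have := hp ρ hρ.1
      have e : r = a / L + R / L := by rw [hr]; ring
      rw [e]
      linarith)
    (fun ρ hρ => by
      refine subset_inter (ball_strip hρ.1.2 (by rw [hr, hb]; apply le_of_eq; ring)) ?_
      intro w hw
      rw [mem_closedBall, dist_eq_norm] at hw
      have h7 := (Complex.abs_im_le_norm (w - ρ)).trans hw
      rw [Complex.sub_im] at h7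
      have h8 : e * (U * L) < |ρ.im - T| := hρ.2
      change e / 2 * (U * L) < |w.im - T|
      have h9 : |ρ.im - T| ≤ |w.im - T| + |w.im - ρ.im| := by
        calc |ρ.im - T| = |(w.im - T) - (w.im - ρ.im)| := by ring_nf
          _ ≤ _ := abs_sub _ _
      linarith) ((Sp_meas b).inter (Complex.measurable_im hYm))
  obtain ⟨t1, t2⟩ := Q97.BS.tR_int 1 hT0
  have hst := strip_maj (FB_diff β T U) hβ (b := b) (r := r * Real.exp 1) hYm
    (t := fun y => 4 * Q97.BS.tR 1 T y)
    (fun y => by unfold Q97.BS.tR; positivity) (t1.const_mul 4)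
    (fun x y hx hy => h1 U h x y _ (by linarith) hr1 (by linarith) hy)
    (c := (Real.exp 1 * β)⁻¹) (by positivity)
  have h4 := hz.trans hst
  have e1 : ∀ ρ : ↥(ZS (A / L) ∩ {ρ | e * (U * L) < |ρ.im - T|}), (mult (ρ : ℂ) : ℝ≥0∞) *
      ENNReal.ofReal (Real.pi * δ ^ 2 * ‖FB β T U (p ρ)‖ ^ β) =
      ENNReal.ofReal (Real.pi * δ ^ 2) * ((mult (ρ : ℂ) : ℝ≥0∞) *
        ENNReal.ofReal (‖FB β T U (p ρ)‖ ^ β)) := by
    intro ρ
    rw [ENNReal.ofReal_mul (by positivity)]
    ring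
  simp only [e1] at h4
  rw [ENNReal.tsum_mul_left] at h4
  refine (enn_div (by positivity) h4).trans (ENNReal.ofReal_le_ofReal ?_)
  refine le_trans ?_ h2.le
  rw [integral_const_mul]
  rw [pow_one] at t2
  calc (Real.pi * δ ^ 2)⁻¹ * ((Real.exp 1 * β)⁻¹ * (2 * b * (4 * ∫ y, Q97.BS.tR 1 T y)))
      ≤ (Real.pi * δ ^ 2)⁻¹ * ((Real.exp 1 * β)⁻¹ * (2 * b * (4 * (Real.pi / T)))) := by gcongr
    _ = k * (L / T) := by
        rw [hk, hb, hδ]
        field_simp

end

end Q97.RD
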