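import Pool.Agent.Q97.RD.Ar
import Pool.Agent.Q97.RB.Tz

set_option autoImplicit false

open Filter MeasureTheory Metric Set Topology Complex
open scoped ENNReal

namespace Q97.RD

open Q97.RB Q97.MM

noncomputable section

/-- Sums over points are bounded by integrals with respect to the counting function of the discs. -/
theorem sum_area {ι : Type*} [Countable ι] {F : ℂ → ℂ} (hF : Differentiable ℂ F) {β : ℝ}
    (hβ : 0 < β) (p c : ι → ℂ) (m : ι → ℝ≥0∞) {δ r : ℝ} (hδ : 0 < δ)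
    (h : ∀ i, ‖p i - c i‖ + δ ≤ r) :
    ∑' i, m i * ENNReal.ofReal (Real.pi * δ ^ 2 * ‖F (p i)‖ ^ β) ≤
      ∫⁻ w : ℂ, ENNReal.ofReal (‖F w‖ ^ β) *
        ∑' i, m i * (closedBall (c i) r).indicator (fun _ => (1 : ℝ≥0∞)) w := by
  have hgm : Measurable (fun z => ENNReal.ofReal (‖F z‖ ^ β)) :=
    (pw_cont hF hβ).measurable.ennreal_ofReal
  have h1 : ∀ i, m i * ENNReal.ofReal (Real.pi * δ ^ 2 * ‖F (p i)‖ ^ β) ≤
      ∫⁻ w : ℂ, ENNReal.ofReal (‖F w‖ ^ β) *
        (m i * (closedBall (c i) r).indicator (fun _ => (1 : ℝ≥0∞)) w) := by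
    intro i
    have h2 : ∫⁻ w : ℂ, ENNReal.ofReal (‖F w‖ ^ β) *
        (m i * (closedBall (c i) r).indicator (fun _ => (1 : ℝ≥0∞)) w) =
        m i * ∫⁻ w in closedBall (c i) r, ENNReal.ofReal (‖F w‖ ^ β) := by
      rw [← lintegral_indicator measurableSet_closedBall, ← lintegral_const_mul _
        (hgm.indicator measurableSet_closedBall)]
      refine lintegral_congr fun w => ?_
      by_cases hw : w ∈ closedBall (c i) r
      · rw [indicator_of_mem hw, indicator_of_mem hw]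
        ring
      · rw [indicator_of_notMem hw, indicator_of_notMem hw]
        ring
    rw [h2]
    gcongr
    refine (area hF hβ (p i) hδ).trans (lintegral_mono_set ?_)
    apply closedBall_subset_closedBall'
    rw [dist_eq_norm]
    linarith [h i]
  refine (ENNReal.tsum_le_tsum h1).trans (le_of_eq ?_)
  rw [← lintegral_tsum]
  · refine lintegral_congr fun w => ?_
    rw [ENNReal.tsum_mul_left]
  · intro i
    exact (hgm.mul ((measurable_const.indicator measurableSet_closedBall).const_mul _)).aemeasurable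

theorem cnt_ind (Z : Set ℂ) (w : ℂ) (r : ℝ) :
    ∑' ρ : Z, (mult (ρ : ℂ) : ℝ≥0∞) * (closedBall (ρ : ℂ) r).indicator (fun _ => (1 : ℝ≥0∞)) w ≤
      (count w r : ℝ≥0∞) := by
  have hfin := fin_supp w r
  have h1 : ∑' ρ : Z, (mult (ρ : ℂ) : ℝ≥0∞) *
      (closedBall (ρ : ℂ) r).indicator (fun _ => (1 : ℝ≥0∞)) w ≤
      ∑' ρ : ℂ, (mult (ρ : ℂ) : ℝ≥0∞) *
      (closedBall (ρ : ℂ) r).indicator (fun _ => (1 : ℝ≥0∞)) w :=
    ENNReal.tsum_comp_le_tsum_of_injective Subtype.val_injective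
      (fun ρ : ℂ => (mult (ρ : ℂ) : ℝ≥0∞) * (closedBall (ρ : ℂ) r).indicator (fun _ => (1 : ℝ≥0∞)) w)
  refine h1.trans ?_
  have hsym : ∀ ρ : ℂ, w ∈ closedBall ρ r ↔ ρ ∈ closedBall w r := fun ρ => by
    rw [mem_closedBall, mem_closedBall, dist_comm]
  rw [tsum_eq_sum (s := hfin.toFinset)]
  · rw [count_eq w le_rfl, Nat.cast_sum]
    refine Finset.sum_le_sum fun ρ hρ => ?_
    rw [Set.Finite.mem_toFinset] at hρ
    rw [indicator_of_mem ((hsym ρ).mpr hρ.1), indicator_of_mem hρ.1, mul_one]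
  · intro ρ hρ
    rw [Set.Finite.mem_toFinset] at hρ
    by_cases h : w ∈ closedBall ρ r
    · have h2 : mult ρ = 0 := by
        by_contra h3
        exact hρ ⟨(hsym ρ).mp h, h3⟩
      rw [h2, Nat.cast_zero, zero_mul]
    · rw [indicator_of_notMem h, mul_zero]

/-- The pointwise bound by circle averages. -/
theorem pt_bd {F : ℂ → ℂ} (hF : Differentiable ℂ F) {β : ℝ} (hβ : 0 < β)
    (hm : ∀ u, analyticOrderNatAt F u = mult u) (hz : ∀ u, riemannZeta u = 0 → F u = 0) (w : ℂ)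
    {r : ℝ} (hr : 0 < r) : ENNReal.ofReal (‖F w‖ ^ β) * (count w r : ℝ≥0∞) ≤
      ENNReal.ofReal ((Real.exp 1 * β)⁻¹ *
        Real.circleAverage (fun z => ‖F z‖ ^ β) w (r * Real.exp 1)) := by
  by_cases h0 : riemannZeta w = 0
  · rw [hz w h0, norm_zero, Real.zero_rpow hβ.ne', ENNReal.ofReal_zero, zero_mul]
    exact zero_le
  · have hr1 : 0 < r * Real.exp 1 := by positivity
    have h1 := count_le h0 hr (q := 1) (by norm_num)
    rw [one_mul] at h1
    have h2 := jensen_ineq hF (c := w) hr1 hβ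
    rw [NN_eq hF hm w hr1] at h2
    set N := logcount w (r * Real.exp 1) with hN
    have h3 : β * N ≤ Real.exp (β * N) * (Real.exp 1)⁻¹ := by
      have := Real.add_one_le_exp (β * N - 1)
      rw [Real.exp_sub] at this
      rw [← div_eq_mul_inv]
      linarith
    have h4 : (count w r : ℝ) ≤ (Real.exp 1 * β)⁻¹ * Real.exp (β * N) := by
      calc (count w r : ℝ) ≤ N := h1
        _ = β⁻¹ * (β * N) := by field_simp
        _ ≤ β⁻¹ * (Real.exp (β * N) * (Real.exp 1)⁻¹) := by gcongr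
        _ = _ := by rw [mul_inv]; ring
    rw [← ENNReal.ofReal_natCast, ← ENNReal.ofReal_mul (by positivity)]
    apply ENNReal.ofReal_le_ofReal
    calc ‖F w‖ ^ β * (count w r : ℝ) ≤ ‖F w‖ ^ β * ((Real.exp 1 * β)⁻¹ * Real.exp (β * N)) := by
          gcongr
      _ = (Real.exp 1 * β)⁻¹ * (‖F w‖ ^ β * Real.exp (β * N)) := by ring
      _ ≤ _ := by gcongr

/-- The sum over zeros of the values at nearby points. -/
theorem zsum {F : ℂ → ℂ} (hF : Differentiable ℂ F) {β : ℝ} (hβ : 0 < β)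
    (hm : ∀ u, analyticOrderNatAt F u = mult u) (hz : ∀ u, riemannZeta u = 0 → F u = 0)
    {Z W : Set ℂ} (hZ : Z.Countable) (p : ℂ → ℂ) {δ r : ℝ} (hδ : 0 < δ)
    (h : ∀ ρ ∈ Z, ‖p ρ - ρ‖ + δ ≤ r) (hW : ∀ ρ ∈ Z, closedBall ρ r ⊆ W) (hWm : MeasurableSet W) :
    ∑' ρ : Z, (mult (ρ : ℂ) : ℝ≥0∞) * ENNReal.ofReal (Real.pi * δ ^ 2 * ‖F (p ρ)‖ ^ β) ≤
      ∫⁻ w in W, ENNReal.ofReal ((Real.exp 1 * β)⁻¹ *
        Real.circleAverage (fun z => ‖F z‖ ^ β) w (r * Real.exp 1)) := by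
  rcases Z.eq_empty_or_nonempty with hZe | ⟨ρ₀, hρ₀⟩
  · subst hZe
    simp
  have hr : 0 < r := by
    have := h ρ₀ hρ₀
    have := norm_nonneg (p ρ₀ - ρ₀)
    linarith
  have : Countable Z := hZ.to_subtype
  refine (sum_area hF hβ (fun ρ : Z => p ρ) (fun ρ : Z => (ρ : ℂ))
    (fun ρ : Z => (mult (ρ : ℂ) : ℝ≥0∞)) hδ (fun ρ => h ρ ρ.2)).trans ?_
  rw [← lintegral_indicator hWm]
  refine lintegral_mono fun w => ?_
  by_cases hw : w ∈ W
  · rw [indicator_of_mem hw]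
    refine le_trans ?_ (pt_bd hF hβ hm hz w hr)
    gcongr
    exact cnt_ind Z w r
  · rw [indicator_of_notMem hw]
    have h0 : ∑' ρ : Z, (mult (ρ : ℂ) : ℝ≥0∞) *
        (closedBall (ρ : ℂ) r).indicator (fun _ => (1 : ℝ≥0∞)) w = 0 := by
      rw [ENNReal.tsum_eq_zero]
      intro ρ
      rw [indicator_of_notMem fun h1 => hw (hW ρ ρ.2 h1), mul_zero]
    rw [h0, mul_zero]

end

end Q97.RD
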